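import Pool.Agent.TH612.CF.Mn
import Pool.Agent.H345R2.Chi

set_option autoImplicit false

/-! The factor of the functional equation in a sector around the imaginary axis. -/

namespace Pool.Agent.TH612.MD

open Complex Filter Topology MeasureTheory Set
open scoped ComplexConjugate
open Pool.Agent.W182.KO Pool.Agent.TH612.CF

noncomputable section

lemma XX_H (s : ℂ) : XX s = H345.XX s := rfl

/-- If `g' = c g` with `Re c ≤ a` then `‖g‖` grows at most like `exp (a v)`. -/
lemma grow {g c : ℝ → ℂ} {a : ℝ}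
    (hd : ∀ v ∈ Icc (0 : ℝ) 1, HasDerivAt g (g v * c v) v)
    (hc : ∀ v ∈ Icc (0 : ℝ) 1, (c v).re ≤ a) : ‖g 1‖ ≤ Real.exp a * ‖g 0‖ := by
  let φ : ℝ → ℝ := fun x => Complex.normSq (g x) * Real.exp (-(2 * a * x))
  have hφ : ∀ x ∈ Icc (0 : ℝ) 1,
      HasDerivAt φ ((2 * (c x).re - 2 * a) * Complex.normSq (g x) * Real.exp (-(2 * a * x))) x := by
    intro x hx
    have h1 := hd x hx
    have hre : HasDerivAt (fun x => (g x).re) (g x * c x).re x :=
      (Complex.reCLM.hasFDerivAt.comp_hasDerivAt x h1)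
    have him : HasDerivAt (fun x => (g x).im) (g x * c x).im x :=
      (Complex.imCLM.hasFDerivAt.comp_hasDerivAt x h1)
    have h2 : HasDerivAt (fun x => Complex.normSq (g x))
        ((g x * c x).re * (g x).re + (g x).re * (g x * c x).re +
          ((g x * c x).im * (g x).im + (g x).im * (g x * c x).im)) x := by
      have := (hre.mul hre).add (him.mul him)
      refine this.congr_of_eventuallyEq ?_
      filter_upwards with y
      simp [Complex.normSq_apply]
    have h3 : HasDerivAt (fun x : ℝ => Real.exp (-(2 * a * x)))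
        (Real.exp (-(2 * a * x)) * (-(2 * a))) x := by
      have h4 : HasDerivAt (fun x : ℝ => -(2 * a * x)) (-(2 * a)) x := by
        have h5 := ((hasDerivAt_id x).const_mul (2 * a)).neg
        rw [mul_one] at h5
        exact h5
      exact h4.exp
    refine (h2.mul h3).congr_deriv ?_
    rw [Complex.normSq_apply]
    simp only [Complex.mul_re, Complex.mul_im]
    ring
  have hanti : AntitoneOn φ (Icc (0 : ℝ) 1) := by
    refine antitoneOn_of_deriv_nonpos (convex_Icc 0 1)
      (fun x hx => (hφ x hx).continuousAt.continuousWithinAt)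
      (fun x hx => (hφ x (interior_subset hx)).differentiableAt.differentiableWithinAt) ?_
    intro x hx
    have hx' := interior_subset hx
    rw [(hφ x hx').deriv]
    have h1 := hc x hx'
    have h2 := Complex.normSq_nonneg (g x)
    have h3 := (Real.exp_pos (-(2 * a * x))).le
    have h4 : 2 * (c x).re - 2 * a ≤ 0 := by linarith
    exact mul_nonpos_of_nonpos_of_nonneg (mul_nonpos_of_nonpos_of_nonneg h4 h2) h3
  have hle := hanti (left_mem_Icc.2 zero_le_one) (right_mem_Icc.2 zero_le_one) zero_le_one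
  simp only [φ, mul_zero, neg_zero, Real.exp_zero, mul_one] at hle
  rw [Complex.normSq_eq_norm_sq, Complex.normSq_eq_norm_sq] at hle
  have e1 : ‖g 1‖ ^ 2 ≤ (Real.exp a * ‖g 0‖) ^ 2 := by
    have h5 : ‖g 1‖ ^ 2 = ‖g 1‖ ^ 2 * Real.exp (-(2 * a)) * Real.exp (2 * a) := by
      rw [mul_assoc, ← Real.exp_add]; simp
    rw [h5, mul_pow, ← Real.exp_nat_mul, mul_comm (Real.exp _)]
    push_cast
    exact mul_le_mul_of_nonneg_right hle (Real.exp_pos _).le
  exact le_of_sq_le_sq e1 (by positivity)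

/-- the logarithmic derivative of `XX` in the upper half plane -/
def LX (s : ℂ) : ℂ := if 1 / 2 ≤ s.re then H345.Chi.L2 s else conj (H345.Chi.L2 (1 - conj s))

lemma sin_ne {s : ℂ} (h : 1 ≤ s.im) : Complex.sin (Real.pi * s) ≠ 0 := by
  have h1 := H345.Chi.norm_cos_ge (Real.pi * s - Real.pi / 2)
  rw [Complex.cos_sub_pi_div_two] at h1
  have h2 : ((Real.pi : ℂ) * s - Real.pi / 2).im = Real.pi * s.im := by simp
  rw [h2] at h1
  intro h0
  rw [h0, norm_zero] at h1
  have h3 : 0 < Real.sinh (Real.pi * s.im) := Real.sinh_pos_iff.2 (by positivity)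
  linarith

lemma XX_one {s : ℂ} (h : 1 ≤ s.im) : XX s * XX (1 - s) = 1 := by
  rw [XX_H, XX_H]
  exact H345.Chi.XX_mul s (sin_ne h)

lemma XX_ne {s : ℂ} (h : 1 ≤ s.im) : XX s ≠ 0 := left_ne_zero_of_mul_eq_one (XX_one h)

lemma XX_hd {s : ℂ} (h : 1 ≤ s.im) : HasDerivAt XX (XX s * LX s) s := by
  unfold LX
  split_ifs with h0
  · exact H345.Chi.hasDerivAt_XX (by linarith) h
  · push Not at h0
    set w : ℂ := 1 - conj s with hw
    have hwre : 0 < w.re := by rw [hw]; simp; linarith
    have hwim : 1 ≤ w.im := by rw [hw]; simpa using h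
    have e1 : conj w = 1 - s := by rw [hw]; simp
    have d1 : HasDerivAt XX (XX w * H345.Chi.L2 w) w := H345.Chi.hasDerivAt_XX hwre hwim
    have d2 := d1.conj_conj
    have e2 : (conj ∘ XX ∘ conj : ℂ → ℂ) = XX := by
      funext z
      simp only [Function.comp]
      rw [XX_conj, Complex.conj_conj]
    rw [e2, e1] at d2
    have d3 : HasDerivAt (fun z : ℂ => XX (1 - z)) (-(conj (XX w * H345.Chi.L2 w))) s := by
      have h1 : HasDerivAt (fun z : ℂ => 1 - z) (-1) s := by
        simpa using (hasDerivAt_id s).const_sub 1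
      have h2 := HasDerivAt.comp s d2 h1
      refine h2.congr_deriv ?_
      ring
    have hne : XX (1 - s) ≠ 0 := right_ne_zero_of_mul_eq_one (XX_one h)
    have d4 := d3.inv hne
    have hcont : Continuous fun z : ℂ => z.im := Complex.continuous_im
    -- near `s` the two functions agree
    have hev : XX =ᶠ[𝓝 s] fun z => (XX (1 - z))⁻¹ := by
      have hc : ContinuousAt (fun z : ℂ => Complex.sin (Real.pi * z)) s := by fun_prop
      filter_upwards [hc.eventually_ne (sin_ne h)] with z hz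
      have := H345.Chi.XX_mul z hz
      exact (inv_eq_of_mul_eq_one_left this).symm
    refine (d4.congr_of_eventuallyEq hev).congr_deriv ?_
    have e3 : XX (1 - s) = conj (XX w) := by rw [← e1, XX_conj]
    have e4 : XX s = (XX (1 - s))⁻¹ := (inv_eq_of_mul_eq_one_left (XX_one h)).symm
    rw [e4, map_mul, ← e3]
    field_simp

lemma L2_near {s : ℂ} {t0 : ℝ} (h0 : 0 < s.re) (ht : 16 ≤ t0)
    (hs : ‖s - (1 / 2 + t0 * I)‖ ≤ t0 / 4) :
    ‖H345.Chi.L2 s - (Real.log (t0 / (2 * Real.pi)) : ℂ)‖ ≤ 16 * (1 + ‖s - (1 / 2 + t0 * I)‖) / t0 := by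
  have ht0 : 0 < t0 := by linarith
  set r : ℝ := ‖s - (1 / 2 + t0 * I)‖ with hr
  have him : 3 / 4 * t0 ≤ s.im := by
    have h1 := Complex.abs_im_le_norm (s - (1 / 2 + t0 * I))
    have h2 : (s - (1 / 2 + (t0 : ℂ) * I)).im = s.im - t0 := by simp
    rw [h2] at h1
    have := (abs_le.1 (h1.trans hs)).1
    linarith
  have hu0 : 0 < s.im := by linarith
  have hdg := H370.DG.logDeriv_Gamma' h0
  have hinv : 1 / s.im ≤ 4 / 3 / t0 := by
    rw [div_le_div_iff₀ hu0 ht0]; linarith
  have b2 : ‖∑' n, H370.DG.er n s‖ ≤ 2 * (4 / 3 / t0) := by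
    refine (H345.Chi.tsum_er_le h0 (by linarith : 1 ≤ s.im)).trans ?_
    rw [show (2:ℝ) / s.im = 2 * (1 / s.im) by ring]
    gcongr
  have b3 := (H345.Chi.tan_close (by linarith : 1 ≤ s.im)).trans hinv
  have b4 : ‖1 / s‖ ≤ 4 / 3 / t0 := by
    refine le_trans ?_ hinv
    rw [norm_div, norm_one]
    apply one_div_le_one_div_of_le hu0
    exact (le_abs_self _).trans (abs_im_le_norm s)
  have b5 : ‖1 / (s + 1)‖ ≤ 4 / 3 / t0 := by
    refine le_trans ?_ hinv
    rw [norm_div, norm_one]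
    apply one_div_le_one_div_of_le hu0
    refine le_trans ?_ (abs_im_le_norm (s + 1))
    simp [le_abs_self]
  have b1 : ‖Complex.log (s + 2) - ((Real.log t0 : ℂ) + (Real.pi / 2 : ℂ) * I)‖ ≤
      3 / 2 * ((r + 5 / 2) / t0) := by
    have hIu : ((t0 : ℂ) * I) ≠ 0 := by simp [ht0.ne']
    set w : ℂ := (s + 2 - t0 * I) / (t0 * I) with hw
    have e1 : s + 2 = ((t0 : ℂ) * I) * (1 + w) := by
      rw [hw, mul_add, mul_one, mul_div_cancel₀ _ hIu]; ring
    have hwn : ‖w‖ ≤ (r + 5 / 2) / t0 := by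
      rw [hw, norm_div]
      have e5 : ‖((t0 : ℂ) * I)‖ = t0 := by
        rw [norm_mul, norm_I, mul_one, Complex.norm_real, Real.norm_of_nonneg ht0.le]
      rw [e5]
      gcongr
      have e6 : s + 2 - t0 * I = (s - (1 / 2 + t0 * I)) + (5 / 2 : ℝ) := by push_cast; ring
      rw [e6]
      refine (norm_add_le _ _).trans ?_
      rw [Complex.norm_real, Real.norm_of_nonneg (by norm_num)]
    have hwn2 : ‖w‖ ≤ 1 / 2 := by
      refine hwn.trans ?_
      rw [div_le_iff₀ ht0]
      linarith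
    have hre : 0 < (1 + w).re := by
      have h1 := Complex.abs_re_le_norm w
      have h2 := (abs_le.1 (h1.trans hwn2)).1
      rw [Complex.add_re, Complex.one_re]
      linarith
    have e2 : Complex.log ((t0 : ℂ) * I) = (Real.log t0 : ℂ) + (Real.pi / 2 : ℂ) * I := by
      rw [Complex.log_ofReal_mul ht0 I_ne_zero, Complex.log_I]
    have e3 : Complex.log (s + 2) = Complex.log ((t0 : ℂ) * I) + Complex.log (1 + w) := by
      conv_lhs => rw [e1]
      apply Complex.log_mul hIu (by intro h; rw [h] at hre; simp at hre)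
      have a1 : ((t0 : ℂ) * I).arg = Real.pi / 2 := by
        rw [Complex.arg_real_mul _ ht0, Complex.arg_I]
      have a2 := abs_arg_lt_pi_div_two_iff.mpr (Or.inl hre)
      rw [abs_lt] at a2
      rw [a1]
      constructor
      · linarith [Real.pi_pos]
      · linarith [Real.pi_pos]
    rw [e3, e2, add_sub_cancel_left]
    refine (Complex.norm_log_one_add_half_le_self hwn2).trans ?_
    gcongr
  have e0 : (Real.log (t0 / (2 * Real.pi)) : ℂ) = (Real.log t0 : ℂ) - (Real.log (2 * Real.pi) : ℂ) := by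
    rw [Real.log_div ht0.ne' (by positivity)]
    push_cast
    ring
  have e : H345.Chi.L2 s - (Real.log (t0 / (2 * Real.pi)) : ℂ) =
      (Complex.log (s + 2) - ((Real.log t0 : ℂ) + (Real.pi / 2 : ℂ) * I)) - 1 / s - 1 / (s + 1)
        + ∑' n, H370.DG.er n s -
        ((Real.pi / 2 : ℂ) * (Complex.sin (Real.pi * s / 2) / Complex.cos (Real.pi * s / 2)) -
          (Real.pi / 2 : ℂ) * I) := by
    rw [H345.Chi.L2, hdg, e0]
    ring
  rw [e]
  refine (norm_sub_le _ _).trans ?_
  refine (add_le_add (norm_add_le _ _) le_rfl).trans ?_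
  refine (add_le_add (add_le_add (norm_sub_le _ _) le_rfl) le_rfl).trans ?_
  refine (add_le_add (add_le_add (add_le_add (norm_sub_le _ _) le_rfl) le_rfl) le_rfl).trans ?_
  have hr0 : 0 ≤ r := norm_nonneg _
  calc _ ≤ 3 / 2 * ((r + 5 / 2) / t0) + 4 / 3 / t0 + 4 / 3 / t0 + 2 * (4 / 3 / t0) + 4 / 3 / t0 := by
        gcongr
    _ = (3 / 2 * r + (15 / 4 + 20 / 3)) / t0 := by ring
    _ ≤ _ := by
        gcongr
        linarith

lemma LX_near {s : ℂ} {t0 : ℝ} (ht : 16 ≤ t0) (hs : ‖s - (1 / 2 + t0 * I)‖ ≤ t0 / 4) :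
    ‖LX s - (Real.log (t0 / (2 * Real.pi)) : ℂ)‖ ≤ 16 * (1 + ‖s - (1 / 2 + t0 * I)‖) / t0 := by
  unfold LX
  split_ifs with h0
  · exact L2_near (by linarith) ht hs
  · push Not at h0
    have e1 : ‖(1 - conj s) - (1 / 2 + t0 * I)‖ = ‖s - (1 / 2 + t0 * I)‖ := by
      have : (1 - conj s) - (1 / 2 + t0 * I) = -conj (s - (1 / 2 + t0 * I)) := by
        simp only [map_sub, map_add, map_mul, map_div₀, map_one, map_ofNat, conj_ofReal, conj_I]
        ring
      rw [this, norm_neg, Complex.norm_conj]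
    have h1 := L2_near (s := 1 - conj s) (t0 := t0) (by simp; linarith) ht (by rw [e1]; exact hs)
    rw [e1] at h1
    have e2 : conj (H345.Chi.L2 (1 - conj s)) - (Real.log (t0 / (2 * Real.pi)) : ℂ) =
        conj (H345.Chi.L2 (1 - conj s) - (Real.log (t0 / (2 * Real.pi)) : ℂ)) := by
      rw [map_sub, conj_ofReal]
    rw [e2, Complex.norm_conj]
    exact h1

/-- comparison of two values of `XX` in a sector -/
theorem XX_ratio {t0 y : ℝ} {t : ℂ} (ht : 64 ≤ t0) (hy : |y| ≤ t0 / 16)
    (h : ‖t - t0‖ * (1 + |y|) ≤ t0 / 16) :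
    ‖XX (1 / 2 + I * (t + y))‖ ≤ Real.exp 4 * ‖XX (1 / 2 + I * t)‖ := by
  have ht0 : 0 < t0 := by linarith
  have hyn := abs_nonneg y
  have hrn := norm_nonneg (t - t0)
  have hr : ‖t - t0‖ ≤ t0 / 16 := by nlinarith
  have hry : |y| * ‖t - t0‖ ≤ t0 / 16 := by nlinarith
  set g : ℝ → ℂ := fun v => XX (1 / 2 + I * (t + v * y)) with hg
  set c : ℝ → ℂ := fun v => I * y * LX (1 / 2 + I * (t + v * y)) with hc
  have hpos : ∀ v ∈ Icc (0:ℝ) 1, t0 / 2 ≤ t0 + v * y ∧
      ‖(1 / 2 + I * (t + v * y)) - (1 / 2 + ((t0 + v * y : ℝ) : ℂ) * I)‖ = ‖t - t0‖ := by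
    intro v hv
    constructor
    · have h1 : |v * y| ≤ t0 / 16 := by
        rw [abs_mul, abs_of_nonneg hv.1]
        nlinarith [hv.2]
      have := (abs_le.1 h1).1
      linarith
    · have : (1 / 2 + I * (t + v * y)) - (1 / 2 + ((t0 + v * y : ℝ) : ℂ) * I) = I * (t - t0) := by
        push_cast; ring
      rw [this, norm_mul, norm_I, one_mul]
  have him : ∀ v ∈ Icc (0:ℝ) 1, 1 ≤ (1 / 2 + I * (t + v * y)).im := by
    intro v hv
    have e1 : (1 / 2 + I * (t + v * y)).im = t.re + v * y := by simp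
    have h1 := (hpos v hv).1
    have h2 := Complex.abs_re_le_norm (t - t0)
    have h3 : (t - (t0 : ℂ)).re = t.re - t0 := by simp
    rw [h3] at h2
    have h4 := (abs_le.1 (h2.trans hr)).1
    rw [e1]
    linarith
  have key := grow (g := g) (c := c) (a := 4) (fun v hv => ?_) (fun v hv => ?_)
  · simp only [hg, ofReal_one, one_mul, ofReal_zero, zero_mul, add_zero] at key
    exact key
  · have d1 := XX_hd (him v hv)
    have d2 : HasDerivAt (fun v : ℝ => 1 / 2 + I * (t + (v : ℂ) * y)) (I * y) v := by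
      have h1 : HasDerivAt (fun v : ℝ => (v : ℂ)) 1 v := Complex.ofRealCLM.hasDerivAt
      have h2 := (((h1.mul_const (y : ℂ)).const_add t).const_mul I).const_add (1 / 2)
      refine h2.congr_deriv ?_
      ring
    have d3 := HasDerivAt.comp v d1 d2
    refine d3.congr_deriv ?_
    simp only [hg, hc]
    ring
  · obtain ⟨h1, h2⟩ := hpos v hv
    have h3 := LX_near (s := 1 / 2 + I * (t + v * y)) (t0 := t0 + v * y) (by linarith)
      (by rw [h2]; linarith)
    rw [h2] at h3
    set l : ℝ := Real.log ((t0 + v * y) / (2 * Real.pi)) with hl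
    have e1 : (c v).re = (I * y * (LX (1 / 2 + I * (t + v * y)) - (l : ℂ))).re := by
      simp only [hc]
      rw [mul_sub, sub_re]
      have : (I * (y : ℂ) * (l : ℂ)).re = 0 := by simp
      rw [this, sub_zero]
    rw [e1]
    refine (Complex.re_le_norm _).trans ?_
    rw [norm_mul, norm_mul, norm_I, one_mul, Complex.norm_real, Real.norm_eq_abs]
    have hp : 0 < t0 + v * y := by linarith
    calc |y| * ‖LX (1 / 2 + I * (t + v * y)) - (l : ℂ)‖ ≤
          |y| * (16 * (1 + ‖t - t0‖) / (t0 + v * y)) := by gcongr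
      _ ≤ |y| * (16 * (1 + ‖t - t0‖) / (t0 / 2)) := by gcongr
      _ = 32 * (|y| + |y| * ‖t - t0‖) / t0 := by ring
      _ ≤ 32 * (t0 / 16 + t0 / 16) / t0 := by gcongr
      _ = 4 := by field_simp; norm_num

end

end Pool.Agent.TH612.MD
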