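import Pool.Agent.TH612.MD.E2
import Pool.Agent.TH612.CF.Cb

set_option autoImplicit false

/-! The choice of the direction, and the other swap terms. -/

namespace Pool.Agent.TH612.MD

open Complex Filter Topology MeasureTheory Set
open scoped ContDiff ComplexConjugate
open Pool.Agent.W182.KO hiding ee SS_summable
open Pool.Agent.TH612.CF

noncomputable section

variable {k : ℕ}

/-- numbering of the places -/
def ix (i : Fin k ⊕ Fin k) : ℕ := Sum.elim (fun j : Fin k => (j : ℕ)) (fun j : Fin k => k + (j : ℕ)) i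

lemma ix_inj : Function.Injective (ix (k := k)) := by
  intro a b h
  rcases a with a | a <;> rcases b with b | b <;> simp only [ix, Sum.elim_inl, Sum.elim_inr] at h
  · congr 1; exact Fin.ext h
  · have := a.2; omega
  · have := b.2; omega
  · congr 1; exact Fin.ext (by omega)

lemma ix_lt (i : Fin k ⊕ Fin k) : ix i < 2 * k := by
  rcases i with a | a <;> simp only [ix, Sum.elim_inl, Sum.elim_inr]
  · have := a.2; omega
  · have := a.2; omega

/-- distinct ratios -/
def rx (i : Fin k ⊕ Fin k) : ℝ := ((ix i : ℝ) + 1) / (2 * k + 1)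

lemma rx_low (i : Fin k ⊕ Fin k) : 1 / (2 * k + 1) ≤ rx i := by
  unfold rx
  gcongr
  have : (0:ℝ) ≤ ix i := Nat.cast_nonneg _
  linarith

lemma rx_pos (i : Fin k ⊕ Fin k) : 0 < rx i := by unfold rx; positivity

lemma rx_le (i : Fin k ⊕ Fin k) : rx i ≤ 1 := by
  unfold rx
  rw [div_le_one (by positivity)]
  have : ((ix i : ℕ) : ℝ) + 1 ≤ 2 * k := by exact_mod_cast ix_lt i
  linarith

lemma rx_sep {i j : Fin k ⊕ Fin k} (h : i ≠ j) : 1 / (2 * k + 1) ≤ |rx i - rx j| := by
  unfold rx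
  rw [← sub_div, abs_div, abs_of_pos (by positivity : (0:ℝ) < 2 * k + 1)]
  gcongr
  have h1 : ix i ≠ ix j := fun h0 => h (ix_inj h0)
  have e : (ix i : ℝ) + 1 - ((ix j : ℝ) + 1) = ((ix i : ℤ) - (ix j : ℤ) : ℤ) := by push_cast; ring
  rw [e, ← Int.cast_abs]
  have h2 : (1:ℤ) ≤ |(ix i : ℤ) - (ix j : ℤ)| := by
    apply Int.one_le_abs
    omega
  exact_mod_cast h2

/-- size of the direction -/
def da (A : Finset (Fin k ⊕ Fin k)) (b : Bool) (ε : ℝ) (i : Fin k ⊕ Fin k) : ℝ :=
  if decide (i ∈ A) = b then 1 - ε * rx i else ε * rx i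

/-- the direction -/
def dv (A : Finset (Fin k ⊕ Fin k)) (b : Bool) (ε : ℝ) (i : Fin k ⊕ Fin k) : ℝ :=
  if i ∈ A then da A b ε i else -da A b ε i

variable {A : Finset (Fin k ⊕ Fin k)} {b : Bool} {ε : ℝ}

lemma da_low (h0 : 0 < ε) (h1 : ε ≤ 1 / 2) (i : Fin k ⊕ Fin k) : ε / (2 * k + 1) ≤ da A b ε i := by
  unfold da
  have hr := rx_low i
  have hr1 := rx_le i
  have e : ε / (2 * k + 1) = ε * (1 / (2 * k + 1)) := by ring
  split_ifs
  · have h2 : ε * rx i ≤ 1 / 2 := by nlinarith [rx_pos i]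
    have h3 : ε / (2 * k + 1) ≤ 1 / 2 := by
      refine (div_le_self h0.le ?_).trans h1
      have : (0:ℝ) ≤ k := Nat.cast_nonneg k
      linarith
    linarith
  · rw [e]; gcongr

lemma da_pos (h0 : 0 < ε) (h1 : ε ≤ 1 / 2) (i : Fin k ⊕ Fin k) : 0 < da A b ε i :=
  lt_of_lt_of_le (by positivity) (da_low h0 h1 i)

lemma dv_abs (h0 : 0 < ε) (h1 : ε ≤ 1 / 2) (i : Fin k ⊕ Fin k) : |dv A b ε i| = da A b ε i := by
  unfold dv
  have := da_pos (A := A) (b := b) h0 h1 i
  split_ifs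
  · exact abs_of_pos this
  · rw [abs_neg]; exact abs_of_pos this

lemma dv_pos (h0 : 0 < ε) (h1 : ε ≤ 1 / 2) (i : Fin k ⊕ Fin k) : 0 < dv A b ε i ↔ i ∈ A := by
  unfold dv
  have := da_pos (A := A) (b := b) h0 h1 i
  split_ifs with h
  · simp [h, this]
  · simp only [h, iff_false, not_lt]; linarith

lemma dv_neg (h0 : 0 < ε) (h1 : ε ≤ 1 / 2) (i : Fin k ⊕ Fin k) : dv A b ε i < 0 ↔ i ∉ A := by
  unfold dv
  have := da_pos (A := A) (b := b) h0 h1 i
  split_ifs with h
  · simp only [h, not_true_eq_false, iff_false, not_lt]; exact this.le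
  · simp [h, this]

theorem dv_VV (A : Finset (Fin k ⊕ Fin k)) (b : Bool) (h0 : 0 < ε) (h1 : ε ≤ 1 / 2) :
    VV (dv A b ε) (ε / (2 * k + 1)) := by
  refine ⟨by positivity, fun p q hpq => ?_, fun i => ?_, fun i => ?_⟩
  · have hp := da_low (A := A) (b := b) h0 h1 p
    have hq := da_low (A := A) (b := b) h0 h1 q
    have hp0 := da_pos (A := A) (b := b) h0 h1 p
    have hq0 := da_pos (A := A) (b := b) h0 h1 q
    have e : ε / (2 * k + 1) = ε * (1 / (2 * k + 1)) := by ring
    by_cases hA : p ∈ A <;> by_cases hB : q ∈ A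
    · have : |dv A b ε p - dv A b ε q| = ε * |rx p - rx q| := by
        unfold dv da
        rw [if_pos hA, if_pos hB]
        simp only [hA, hB]
        split_ifs
        · rw [show 1 - ε * rx p - (1 - ε * rx q) = -(ε * (rx p - rx q)) by ring, abs_neg, abs_mul,
            abs_of_pos h0]
        · rw [← mul_sub, abs_mul, abs_of_pos h0]
      rw [this, e]
      have := rx_sep hpq
      gcongr
    · unfold dv
      rw [if_pos hA, if_neg hB, sub_neg_eq_add, abs_of_pos (by linarith)]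
      linarith
    · unfold dv
      rw [if_neg hA, if_pos hB, abs_of_neg (by linarith)]
      linarith
    · have : |dv A b ε p - dv A b ε q| = ε * |rx p - rx q| := by
        unfold dv da
        rw [if_neg hA, if_neg hB]
        simp only [hA, hB]
        split_ifs
        · rw [show -(1 - ε * rx p) - -(1 - ε * rx q) = ε * (rx p - rx q) by ring, abs_mul,
            abs_of_pos h0]
        · rw [show -(ε * rx p) - -(ε * rx q) = -(ε * (rx p - rx q)) by ring, abs_neg, abs_mul,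
            abs_of_pos h0]
      rw [this, e]
      have := rx_sep hpq
      gcongr
  · rw [dv_abs h0 h1]
    unfold da
    have := rx_pos i
    have := rx_le i
    split_ifs <;> nlinarith
  · rw [dv_abs h0 h1]
    exact da_low h0 h1 i

lemma GV_iff (h0 : 0 < ε) (h1 : ε ≤ 1 / 2) (π : Equiv.Perm (Fin k ⊕ Fin k)) :
    GV (dv A b ε) π ↔ ∀ j, π (Sum.inl j) ∈ A ∧ π (Sum.inr j) ∉ A := by
  unfold GV
  simp only [dv_pos h0 h1, dv_neg h0 h1]

/-- sum over the positive places -/
lemma sum_pos_part (h0 : 0 < ε) (h1 : ε ≤ 1 / 2) :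
    ∑ i, fb (bv (dv A b ε) i) * |dv A b ε i| = (∑ i ∈ A, dv A b ε i) - ∑ j, dv A b ε (Sum.inl j) := by
  have e1 : ∑ i ∈ A, dv A b ε i = ∑ i, if i ∈ A then dv A b ε i else 0 := by
    rw [Finset.sum_ite_mem]; simp
  have e2 : ∑ j, dv A b ε (Sum.inl j) = ∑ i : Fin k ⊕ Fin k, if i.isLeft = true then dv A b ε i else 0 := by
    rw [Fintype.sum_sum_type]
    simp
  rw [e1, e2, ← Finset.sum_sub_distrib]
  refine Finset.sum_congr rfl fun i _ => ?_
  unfold bv fb
  by_cases hA : i ∈ A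
  · have hp := (dv_pos (A := A) (b := b) h0 h1 i).2 hA
    rw [if_pos hp, if_pos hA, abs_of_pos hp]
    rcases i with j | j <;> simp
  · have hn := (dv_neg (A := A) (b := b) h0 h1 i).2 hA
    have hn' : ¬ 0 < dv A b ε i := not_lt.2 hn.le
    rw [if_neg hn', if_neg hA, abs_of_neg hn]
    rcases i with j | j <;> simp

lemma bad_sum (hA : A.card = k) (h0 : 0 < ε) (h1 : ε ≤ 1 / 2) {π : Equiv.Perm (Fin k ⊕ Fin k)}
    (h : ¬ GV (dv A b ε) π) :
    ∑ j, dv A b ε (π (Sum.inl j)) ≤ (∑ i ∈ A, dv A b ε i) - (1 - ε) := by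
  classical
  rw [GV_iff h0 h1] at h
  set S : Finset (Fin k ⊕ Fin k) := Finset.univ.image (fun j : Fin k => π (Sum.inl j)) with hS
  have hinj : Function.Injective (fun j : Fin k => π (Sum.inl j)) := π.injective.comp Sum.inl_injective
  have hcard : S.card = k := by
    rw [hS, Finset.card_image_of_injective _ hinj]; simp
  have e1 : ∑ j, dv A b ε (π (Sum.inl j)) = ∑ i ∈ S, dv A b ε i := by
    rw [hS, Finset.sum_image (fun a _ c _ hac => hinj hac)]
  have hne : S ≠ A := by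
    intro hSA
    apply h
    intro j
    constructor
    · rw [← hSA, hS]
      exact Finset.mem_image_of_mem _ (Finset.mem_univ j)
    · rw [← hSA, hS, Finset.mem_image]
      rintro ⟨j', _, hj'⟩
      have := π.injective hj'
      simp at this
  have hn1 : (A \ S).Nonempty := by
    rw [Finset.sdiff_nonempty]
    intro hsub
    exact hne (Finset.eq_of_subset_of_card_le hsub (by rw [hA, hcard])).symm
  have hn2 : (S \ A).Nonempty := by
    rw [Finset.sdiff_nonempty]
    intro hsub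
    exact hne (Finset.eq_of_subset_of_card_le hsub (by rw [hA, hcard]))
  have e2 := Finset.sum_sdiff_sub_sum_sdiff (s₁ := A) (s₂ := S) (f := fun i => dv A b ε i)
  have hP : 0 ≤ ∑ i ∈ A \ S, dv A b ε i := Finset.sum_nonneg fun i hi =>
    ((dv_pos h0 h1 i).2 (Finset.mem_sdiff.1 hi).1).le
  have hM : ∑ i ∈ S \ A, dv A b ε i ≤ 0 := Finset.sum_nonpos fun i hi =>
    ((dv_neg h0 h1 i).2 (Finset.mem_sdiff.1 hi).2).le
  rw [e1]
  have hbig : ∀ i, decide (i ∈ A) = b → 1 - ε ≤ |dv A b ε i| := fun i hi => by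
    rw [dv_abs h0 h1]
    unfold da
    rw [if_pos hi]
    have := rx_le i
    nlinarith
  cases hb : b with
  | true =>
    obtain ⟨a, ha⟩ := hn1
    have haA := (Finset.mem_sdiff.1 ha).1
    have g1 := Finset.single_le_sum (f := fun i => dv A b ε i) (fun i hi =>
      ((dv_pos (A := A) (b := b) h0 h1 i).2 (Finset.mem_sdiff.1 hi).1).le) ha
    have g2 := hbig a (by rw [hb]; simpa using haA)
    rw [abs_of_pos ((dv_pos (A := A) (b := b) h0 h1 a).2 haA)] at g2
    rw [hb] at g1 g2 e2 hP hM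
    linarith
  | false =>
    obtain ⟨a, ha⟩ := hn2
    have haA := (Finset.mem_sdiff.1 ha).2
    have g1 := Finset.single_le_sum (f := fun i => -dv A b ε i) (fun i hi => by
      have := ((dv_neg (A := A) (b := b) h0 h1 i).2 (Finset.mem_sdiff.1 hi).2)
      linarith) ha
    have g2 := hbig a (by rw [hb]; simpa using haA)
    rw [abs_of_neg ((dv_neg (A := A) (b := b) h0 h1 a).2 haA)] at g2
    rw [Finset.sum_neg_distrib] at g1
    rw [hb] at g1 g2 e2 hP hM
    linarith

/-- the sum of the side `b` -/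
def sd (A : Finset (Fin k ⊕ Fin k)) (b : Bool) (ℓ : Fin k ⊕ Fin k → ℝ) : ℝ :=
  ∑ i, if decide (i ∈ A) = b then ℓ i else 0

/-- the exponent of the other swap terms -/
theorem bad_exp (hA : A.card = k) (h0 : 0 < ε) (h1 : ε ≤ 1 / 2) {π : Equiv.Perm (Fin k ⊕ Fin k)}
    (h : ¬ GV (dv A b ε) π) {ℓ ξ : Fin k ⊕ Fin k → ℝ} (hℓ : ∀ i, 0 ≤ ℓ i)
    (hξ : ∀ i, ξ i = ℓ i - fb (bv (dv A b ε) i)) :
    (∑ i, ξ i * |dv A b ε i|) + ee (dv A b ε) π ≤ sd A b ℓ - 1 + ε * (1 + ∑ i, ℓ i) := by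
  have e1 : ∑ i, ξ i * |dv A b ε i| = (∑ i, ℓ i * |dv A b ε i|) -
      ∑ i, fb (bv (dv A b ε) i) * |dv A b ε i| := by
    rw [← Finset.sum_sub_distrib]
    refine Finset.sum_congr rfl fun i _ => ?_
    rw [hξ]; ring
  rw [e1, sum_pos_part h0 h1]
  have g := bad_sum hA h0 h1 h
  unfold ee
  have e2 : ∑ i, ℓ i * |dv A b ε i| ≤ sd A b ℓ + ε * ∑ i, ℓ i := by
    unfold sd
    rw [Finset.mul_sum, ← Finset.sum_add_distrib]
    refine Finset.sum_le_sum fun i _ => ?_
    rw [dv_abs h0 h1]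
    unfold da
    have := rx_pos i
    have := rx_le i
    have := hℓ i
    split_ifs
    · nlinarith [mul_nonneg (mul_nonneg this h0.le) (rx_pos i).le, mul_nonneg h0.le this]
    · have h5 : ε * rx i ≤ ε := by nlinarith
      nlinarith
  linarith

end

end Pool.Agent.TH612.MD
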