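import Pool.Agent.TH612.MD.Os

set_option autoImplicit false

/-! One dimensional integrals attached to one place. -/

namespace Pool.Agent.TH612.MD

open Complex Filter Topology MeasureTheory Set
open scoped ContDiff
open Pool.Agent.W182.KO Pool.Agent.TH612.CF

noncomputable section

section multi

variable {ι : Type*} [Fintype ι]

/-- an integrable product weight -/
def JI (y : ι → ℝ) : ℝ := ∏ i, ((1 + |y i|) ^ 2)⁻¹

lemma JI_pos (y : ι → ℝ) : 0 < JI y := Finset.prod_pos fun i _ => by positivity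

lemma JI_int : Integrable (JI : (ι → ℝ) → ℝ) := by
  unfold JI
  exact Integrable.fintype_prod (f := fun (_ : ι) (x : ℝ) => ((1 + |x|) ^ 2)⁻¹)
    (fun _ => one_add_inv_sq_int)

lemma JI_integral : ∫ y : ι → ℝ, JI y = J2 ^ Fintype.card ι := by
  unfold JI J2
  rw [integral_fintype_prod_volume_eq_prod (f := fun (_ : ι) (x : ℝ) => ((1 + |x|) ^ 2)⁻¹),
    Finset.prod_const, Finset.card_univ]

lemma decayI {g : (ι → ℝ) → ℂ} {B : ℝ} (hb : ∀ᵐ y : ι → ℝ, ‖g y‖ ≤ B * JI y) :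
    ‖∫ y, g y‖ ≤ B * J2 ^ Fintype.card ι := by
  rw [← JI_integral, ← integral_const_mul]
  exact norm_integral_le_of_norm_le (JI_int.const_mul B) hb

lemma decayI_int {g : (ι → ℝ) → ℂ} {B : ℝ} (hg : AEStronglyMeasurable g)
    (hb : ∀ᵐ y : ι → ℝ, ‖g y‖ ≤ B * JI y) : Integrable g :=
  (JI_int.const_mul B).mono' hg hb

end multi

/-- functional equation factor, present when `b` holds -/
def Xf (b : Bool) (w : ℂ) : ℂ := if b then XX w else 1

/-- `1` or `0` -/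
def fb (b : Bool) : ℝ := if b then 1 else 0

lemma fb_nonneg (b : Bool) : 0 ≤ fb b := by unfold fb; split_ifs <;> norm_num

lemma fb_le (b : Bool) : fb b ≤ 1 := by unfold fb; split_ifs <;> norm_num

/-- reflected or plain zeta function -/
def Ff (b : Bool) (w : ℂ) : ℂ := if b then riemannZeta (1 - w) else riemannZeta w

lemma Ff_eq (b : Bool) {w : ℂ} (hw : 0 < w.re) (h1 : w ≠ 1) : Ff b w = Xf b w * riemannZeta w := by
  unfold Ff Xf
  split_ifs
  · exact zeta_XX hw h1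
  · rw [one_mul]

lemma Xf_diff (b : Bool) {s : ℂ} (hs : 0 < s.re) : DifferentiableAt ℂ (Xf b) s := by
  unfold Xf
  split_ifs
  · exact XX_diff hs
  · exact differentiableAt_const 1

/-- polynomial bound in a strip -/
lemma Xf_poly (b : Bool) (x : ℝ) : ∃ (K : ℝ) (M : ℕ), 1 ≤ K ∧ ∀ r v : ℝ, 0 ≤ r → r ≤ x →
    ‖Xf b (((1 / 2 + r : ℝ) : ℂ) + v * I)‖ ≤ K * (1 + |v|) ^ M := by
  obtain ⟨K, hK, h⟩ := XX_bound (c := max 1 (1 / 2 + x)) (le_max_left _ _)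
  obtain ⟨M, hM⟩ := exists_nat_ge (max 1 (1 / 2 + x) - 1 / 2)
  refine ⟨K, M, hK, fun r v h0 h1 => ?_⟩
  have hv : 1 ≤ 1 + |v| := by have := abs_nonneg v; linarith
  unfold Xf
  split_ifs
  · refine (h (1 / 2 + r) v (by linarith) (le_trans (by linarith) (le_max_right _ _))).trans ?_
    rw [← Real.rpow_natCast]
    have := Real.rpow_le_rpow_of_exponent_le hv hM
    gcongr
  · rw [norm_one]
    have : (1:ℝ) ≤ (1 + |v|) ^ M := one_le_pow₀ hv
    nlinarith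

/-- admissible abscissae -/
def Ad (x : ℝ) : Prop := (0 ≤ x ∧ x ≤ 1 / 4) ∨ 1 / 2 ≤ x

lemma Ad.nonneg {x : ℝ} (h : Ad x) : 0 ≤ x := by
  rcases h with h | h
  · exact h.1
  · linarith

/-- sharp bound on a line -/
lemma Xf_sharp (b : Bool) {x : ℝ} (hx : Ad x) : ∃ K : ℝ, 1 ≤ K ∧ ∀ v : ℝ,
    ‖Xf b (((1 / 2 + x : ℝ) : ℂ) + v * I)‖ ≤ K * (1 + |v|) ^ (fb b * x) := by
  rcases hx with hx | hx
  · obtain ⟨K, hK, h⟩ := XX_two
    refine ⟨K, hK, fun v => ?_⟩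
    unfold Xf fb
    split_ifs
    · have h1 := (h (1 / 2 + x) v (by linarith) (by linarith)).1
      rw [show (1:ℝ) / 2 + x - 1 / 2 = 1 * x by ring] at h1
      exact h1
    · rw [norm_one, zero_mul, Real.rpow_zero, mul_one]
      exact hK
  · obtain ⟨K, hK, h⟩ := XX_bound (c := 1 / 2 + x) (by linarith)
    refine ⟨K, hK, fun v => ?_⟩
    unfold Xf fb
    split_ifs
    · have h1 := h (1 / 2 + x) v (by linarith) le_rfl
      rw [show (1:ℝ) / 2 + x - 1 / 2 = 1 * x by ring] at h1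
      exact h1
    · rw [norm_one, zero_mul, Real.rpow_zero, mul_one]
      exact hK

/-- the integrand -/
def w1 (Ψ : ℝ → ℂ) (b : Bool) (L : ℝ) (n : ℕ) (u : ℝ) (s : ℂ) : ℂ :=
  P Ψ (L * s) * (Xf b (1 / 2 + s + u * I) * (n : ℂ) ^ (-(1 / 2 + s + u * I)))

/-- the integral of one term -/
def W1 (Ψ : ℝ → ℂ) (b : Bool) (x L : ℝ) (n : ℕ) (u : ℝ) : ℂ := ∫ y : ℝ, w1 Ψ b L n u (x + y * I)

variable {ξ1 : ℝ} {Ψ : ℝ → ℂ}

lemma w1_diff (h : TF ξ1 Ψ) (b : Bool) (L : ℝ) {n : ℕ} (hn : 1 ≤ n) (u : ℝ) {s : ℂ} (hs : 0 ≤ s.re) :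
    DifferentiableAt ℂ (w1 Ψ b L n u) s := by
  unfold w1
  have hn0 : (n : ℂ) ≠ 0 := by exact_mod_cast (by omega : n ≠ 0)
  have d1 : DifferentiableAt ℂ (fun s : ℂ => P Ψ (L * s)) s := ((P_diff h) _).comp s (by fun_prop)
  have d2 : DifferentiableAt ℂ (fun s : ℂ => Xf b (1 / 2 + s + u * I)) s :=
    DifferentiableAt.comp s (f := fun s : ℂ => 1 / 2 + s + u * I) (Xf_diff b (by simp; linarith))
      (by fun_prop)
  have d3 : DifferentiableAt ℂ (fun s : ℂ => (n : ℂ) ^ (-(1 / 2 + s + u * I))) s :=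
    DifferentiableAt.const_cpow (by fun_prop) (Or.inl hn0)
  exact d1.mul (d2.mul d3)

lemma P_dec (h : TF ξ1 Ψ) (N : ℕ) : ∃ C : ℝ, 0 ≤ C ∧ ∀ (L r y : ℝ), 1 ≤ L → 0 ≤ r →
    ‖P Ψ (L * (r + y * I))‖ ≤ C * Real.exp (ξ1 * (L * r)) / (1 + |y|) ^ N := by
  obtain ⟨C, hC, hP⟩ := P_bound h N
  refine ⟨C, hC, fun L r y hL hr => ?_⟩
  have e0 : ((L:ℂ) * (r + y * I)).re = L * r := by simp
  have e1 : ((L:ℂ) * (r + y * I)).im = L * y := by simp
  have h1 := P_bd_line (ψ := Ψ) hP (z := (L:ℂ) * (r + y * I)) (y := y)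
    (by rw [e0]; exact mul_nonneg (by linarith) hr) (by
    rw [e1, abs_mul, abs_of_pos (by linarith : 0 < L)]
    exact le_mul_of_one_le_left (abs_nonneg _) hL)
  rwa [e0] at h1

lemma abs_peetre (y u : ℝ) : 1 + |y + u| ≤ (1 + |y|) * (1 + |u|) := by
  have h1 := abs_add_le y u
  have := mul_nonneg (abs_nonneg y) (abs_nonneg u)
  nlinarith

lemma npow_norm {n : ℕ} (hn : 1 ≤ n) (x y u : ℝ) :
    ‖(n : ℂ) ^ (-(1 / 2 + ((x : ℂ) + y * I) + u * I))‖ = (n : ℝ) ^ (-(1 / 2 + x)) := by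
  rw [Complex.norm_natCast_cpow_of_pos hn]
  congr 1
  simp

/-- decay of the integrand on a line, sharp in `u` -/
lemma w1_dec (h : TF ξ1 Ψ) (b : Bool) {x : ℝ} (hx : Ad x) (N : ℕ) : ∃ C : ℝ, 0 ≤ C ∧
    ∀ (L u y : ℝ) (n : ℕ), 1 ≤ L → 1 ≤ n →
      ‖w1 Ψ b L n u (x + y * I)‖ ≤
        C * (Real.exp (ξ1 * (L * x)) * (1 + |u|) ^ (fb b * x) * (n : ℝ) ^ (-(1 / 2 + x))) /
          (1 + |y|) ^ N := by
  obtain ⟨K, hK, hX⟩ := Xf_sharp b hx
  obtain ⟨M, hM⟩ := exists_nat_ge (fb b * x)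
  obtain ⟨C, hC, hP⟩ := P_dec h (N + M)
  refine ⟨C * K, by positivity, fun L u y n hL hn => ?_⟩
  have hx0 := hx.nonneg
  have hfx : 0 ≤ fb b * x := mul_nonneg (fb_nonneg b) hx0
  have g1 := hP L x y hL hx0
  have g2 := hX (y + u)
  have e1 : (1 / 2 + ((x : ℂ) + y * I) + u * I) = ((1 / 2 + x : ℝ) : ℂ) + ((y + u : ℝ) : ℂ) * I := by
    push_cast; ring
  have hy : 1 ≤ 1 + |y| := by have := abs_nonneg y; linarith
  have hy0 : 0 < 1 + |y| := by linarith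
  have hu0 : 0 < 1 + |u| := by have := abs_nonneg u; linarith
  have g3 : (1 + |y + u|) ^ (fb b * x) ≤ (1 + |y|) ^ M * (1 + |u|) ^ (fb b * x) := by
    calc _ ≤ ((1 + |y|) * (1 + |u|)) ^ (fb b * x) :=
          Real.rpow_le_rpow (by positivity) (abs_peetre y u) hfx
      _ = (1 + |y|) ^ (fb b * x) * (1 + |u|) ^ (fb b * x) := Real.mul_rpow hy0.le hu0.le
      _ ≤ _ := by
        rw [← Real.rpow_natCast (1 + |y|) M]
        have := Real.rpow_le_rpow_of_exponent_le hy hM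
        gcongr
  unfold w1
  rw [norm_mul, norm_mul, npow_norm hn, e1]
  have hK0 : 0 ≤ K := by linarith
  calc _ ≤ (C * Real.exp (ξ1 * (L * x)) / (1 + |y|) ^ (N + M)) *
        ((K * ((1 + |y|) ^ M * (1 + |u|) ^ (fb b * x))) * (n : ℝ) ^ (-(1 / 2 + x))) := by
        have := g2.trans (mul_le_mul_of_nonneg_left g3 hK0)
        gcongr
    _ = _ := by
        rw [pow_add]
        field_simp

lemma w1_cont (h : TF ξ1 Ψ) (b : Bool) {x : ℝ} (hx : 0 ≤ x) (L : ℝ) {n : ℕ} (hn : 1 ≤ n) (u : ℝ) :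
    Continuous (fun y : ℝ => w1 Ψ b L n u (x + y * I)) := by
  rw [continuous_iff_continuousAt]
  intro y
  exact ContinuousAt.comp (f := fun y : ℝ => ((x : ℂ) + y * I))
    (w1_diff h b L hn u (by simpa using hx)).continuousAt (by fun_prop)

lemma w1_int (h : TF ξ1 Ψ) (b : Bool) {x : ℝ} (hx : Ad x) {L : ℝ} (hL : 1 ≤ L) {n : ℕ} (hn : 1 ≤ n)
    (u : ℝ) : Integrable (fun y : ℝ => w1 Ψ b L n u (x + y * I)) := by
  obtain ⟨C, hC, hb⟩ := w1_dec h b hx (0 + 2)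
  exact decay_integrable (n := 0) (w1_cont h b hx.nonneg L hn u) (by positivity)
    fun y => hb L u y n hL hn

/-- bound for one term -/
lemma W1_bd (h : TF ξ1 Ψ) (b : Bool) {x : ℝ} (hx : Ad x) : ∃ C : ℝ, 0 ≤ C ∧
    ∀ (L u : ℝ) (n : ℕ), 1 ≤ L → 1 ≤ n →
      ‖W1 Ψ b x L n u‖ ≤
        C * (Real.exp (ξ1 * (L * x)) * (1 + |u|) ^ (fb b * x) * (n : ℝ) ^ (-(1 / 2 + x))) := by
  obtain ⟨C, hC, hb⟩ := w1_dec h b hx (0 + 2)
  have hJ := J2_nonneg
  refine ⟨C * J2, by positivity, fun L u n hL hn => ?_⟩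
  refine (norm_integral_decay (n := 0) (by positivity) fun y => hb L u y n hL hn).trans (le_of_eq ?_)
  ring

/-- independence of the line -/
lemma W1_indep (h : TF ξ1 Ψ) (b : Bool) {x : ℝ} (hx : 0 ≤ x) {L : ℝ} (hL : 1 ≤ L) {n : ℕ}
    (hn : 1 ≤ n) (u : ℝ) : W1 Ψ b x L n u = W1 Ψ b 0 L n u := by
  obtain ⟨K, M, hK, hX⟩ := Xf_poly b x
  obtain ⟨C, hC, hP⟩ := P_dec h (2 + M)
  have hn1 : (1:ℝ) ≤ n := by exact_mod_cast hn
  have key := strip_shift (f := w1 Ψ b L n u) (a := 0) (b := x)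
    (B := C * Real.exp (|ξ1| * (L * x)) * (K * (1 + |u|) ^ M)) hx (by positivity)
    (fun s h1 _ => w1_diff h b L hn u h1) (fun s h1 h2 => ?_)
  · exact key.symm
  · have g1 := hP L s.re s.im hL h1
    rw [Complex.re_add_im] at g1
    have g2 := hX s.re (s.im + u) h1 h2
    have e1 : (1 / 2 + s + u * I) = ((1 / 2 + s.re : ℝ) : ℂ) + ((s.im + u : ℝ) : ℂ) * I := by
      conv_lhs => rw [← Complex.re_add_im s]
      push_cast; ring
    have e2 : ‖(n : ℂ) ^ (-(1 / 2 + s + u * I))‖ ≤ 1 := by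
      have := npow_norm hn s.re s.im u
      rw [Complex.re_add_im] at this
      rw [this]
      exact Real.rpow_le_one_of_one_le_of_nonpos hn1 (by linarith)
    have g3 : Real.exp (ξ1 * (L * s.re)) ≤ Real.exp (|ξ1| * (L * x)) := by
      refine Real.exp_le_exp.2 ?_
      have h0 : 0 ≤ L * s.re := mul_nonneg (by linarith) h1
      calc ξ1 * (L * s.re) ≤ |ξ1| * (L * s.re) := mul_le_mul_of_nonneg_right (le_abs_self _) h0
        _ ≤ _ := by gcongr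
    have g4 := abs_peetre s.im u
    have hy0 : 0 < 1 + |s.im| := by positivity
    have hK0 : 0 ≤ K := by linarith
    unfold w1
    rw [norm_mul, norm_mul]
    rw [← e1] at g2
    calc _ ≤ (C * Real.exp (|ξ1| * (L * x)) / (1 + |s.im|) ^ (2 + M)) *
          ((K * ((1 + |s.im|) * (1 + |u|)) ^ M) * 1) := by
          have q1 : ‖P Ψ (L * s)‖ ≤ C * Real.exp (|ξ1| * (L * x)) / (1 + |s.im|) ^ (2 + M) :=
            g1.trans (by gcongr)
          have q2 : ‖Xf b (1 / 2 + s + u * I)‖ ≤ K * ((1 + |s.im|) * (1 + |u|)) ^ M :=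
            g2.trans (by gcongr)
          gcongr
      _ = _ := by
          rw [pow_add, mul_pow]
          field_simp

end

end Pool.Agent.TH612.MD
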