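import Pool.Agent.TH612.MD.G2

set_option autoImplicit false

/-! Sums over tuples: products of series, bounds, truncation. -/

namespace Pool.Agent.TH612.MD

open Complex Filter Topology MeasureTheory Set
open scoped ContDiff ComplexConjugate
open Pool.Agent.W182.KO hiding ee SS_summable
open Pool.Agent.TH612.CF

noncomputable section

variable {k : ℕ}

lemma prod_LS : ∀ (k : ℕ) (f : Fin k → ℕ → ℂ) (S : Fin k → ℂ), (∀ j, LSeriesHasSum (f j) 0 (S j)) →
    LSeriesHasSum (fun n => ∑ d ∈ Nat.finMulAntidiag k n, ∏ j, f j (d j)) 0 (∏ j, S j)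
  | 0, f, S, _ => by
      have h1 : (fun n => ∑ d ∈ Nat.finMulAntidiag 0 n, ∏ j, f j (d j)) =
          fun n => if n = 1 then (1:ℂ) else 0 := by
        funext n
        split_ifs with h
        · subst h
          rw [Nat.finMulAntidiag_one]
          simp
        · rw [Nat.finMulAntidiag_zero_left h]
          simp
      rw [h1]
      simp only [Finset.univ_eq_empty, Finset.prod_empty]
      unfold LSeriesHasSum
      have h2 : LSeries.term (fun n => if n = 1 then (1:ℂ) else 0) 0 = fun n => if n = 1 then 1 else 0 := by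
        funext n
        rw [LSeries.term]
        by_cases h' : n = 1
        · subst h'; simp
        · simp [h']
      rw [h2]
      exact hasSum_ite_eq 1 1
  | k + 1, f, S, h => by
      have ih := prod_LS k (fun j => f j.succ) (fun j => S j.succ) (fun j => h j.succ)
      have h2 := (h 0).convolution ih
      rw [Fin.prod_univ_succ]
      convert h2 using 1
      funext n
      rw [LSeries.convolution_def]
      exact antidiag_succ f n

lemma LS_iff {f : ℕ → ℂ} (h0 : f 0 = 0) {S : ℂ} : LSeriesHasSum f 0 S ↔ HasSum f S := by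
  unfold LSeriesHasSum
  have : LSeries.term f 0 = f := by
    funext n
    rcases Nat.eq_zero_or_pos n with hn | hn
    · subst hn; simp [h0]
    · rw [LSeries.term_of_ne_zero hn.ne']
      simp
  rw [this]

lemma Om_zero (Ψ : Fin k → ℝ → ℂ) (b : Fin k → Bool) (L u : ℝ) : Om Ψ b L u 0 = 0 := by
  unfold Om; simp

lemma Om_hasSum {ξ : Fin k → ℝ} {Ψ : Fin k → ℝ → ℂ} (hΨ : ∀ j, TF (ξ j) (Ψ j)) (b : Fin k → Bool)
    {κ : ℝ} (hκ : 0 < κ) {L : ℝ} (hL : 1 ≤ L) (u : ℝ) :
    HasSum (Om Ψ b L u) (∏ j, N2 (Ψ j) (b j) κ L u) := by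
  have h1 : ∀ j, LSeriesHasSum (fun n => W1 (Ψ j) (b j) 0 L n u) 0 (N2 (Ψ j) (b j) κ L u) := by
    intro j
    rw [LS_iff (f := fun n => W1 (Ψ j) (b j) 0 L n u) (W1_zero _ _ _ le_rfl)]
    have h2 := N2_hasSum (hΨ j) (b j) hκ hL u
    refine h2.congr_fun ?_ 
    intro n
    rcases Nat.eq_zero_or_pos n with hn | hn
    · subst hn
      rw [W1_zero _ _ _ le_rfl, W1_zero _ _ _ (by positivity)]
    · exact (W1_indep (hΨ j) (b j) (by positivity) hL hn u).symm
  have h2 := prod_LS k (fun j n => W1 (Ψ j) (b j) 0 L n u) _ h1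
  rw [LS_iff (by simp)] at h2
  exact h2

lemma card_anti (k n : ℕ) (hn : 1 ≤ n) : ((Nat.finMulAntidiag k n).card : ℝ) ≤ (n : ℝ) ^ k := by
  have h2 : (Nat.finMulAntidiag k n).card ≤ n.divisors.card ^ k := by
    rw [Nat.finMulAntidiag_eq_piFinset_divisors_filter dvd_rfl (by omega)]
    refine (Finset.card_filter_le _ _).trans ?_
    rw [Fintype.card_piFinset]
    simp
  have h3 : n.divisors.card ≤ n := Nat.card_divisors_le_self n
  have h4 : (Nat.finMulAntidiag k n).card ≤ n ^ k := h2.trans (Nat.pow_le_pow_left h3 k)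
  exact_mod_cast h4

/-- size of a convolution -/
lemma Om_bd {ξ : Fin k → ℝ} {Ψ : Fin k → ℝ → ℂ} (hΨ : ∀ j, TF (ξ j) (Ψ j)) (b : Fin k → Bool)
    {x : ℝ} (hx : Ad x) : ∃ C : ℝ, 0 ≤ C ∧ ∀ (L u : ℝ) (n : ℕ), 1 ≤ L → 1 ≤ n →
      ‖Om Ψ b L u n‖ ≤ C * (Real.exp (L * x * ∑ j, ξ j) * (1 + |u|) ^ (x * ∑ j, fb (b j)) *
        ((n : ℝ) ^ k * (n : ℝ) ^ (-(1 / 2 + x)))) := by
  have hW := fun j => W1_bd (hΨ j) (b j) hx
  choose C hC hb using hW
  refine ⟨∏ j, C j, Finset.prod_nonneg fun j _ => hC j, fun L u n hL hn => ?_⟩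
  have hu : 0 < 1 + |u| := by have := abs_nonneg u; linarith
  have hn0 : (0:ℝ) ≤ n := Nat.cast_nonneg n
  have h1 : ∀ d ∈ Nat.finMulAntidiag k n, ‖∏ j, W1 (Ψ j) (b j) 0 L (d j) u‖ ≤
      (∏ j, C j) * (Real.exp (L * x * ∑ j, ξ j) * (1 + |u|) ^ (x * ∑ j, fb (b j)) *
        (n : ℝ) ^ (-(1 / 2 + x))) := by
    intro d hd
    rw [norm_prod]
    have hd1 : ∀ j, 1 ≤ d j := fun j =>
      Nat.one_le_iff_ne_zero.2 (Nat.ne_zero_of_mem_finMulAntidiag hd j)
    have h2 : ∏ j, ‖W1 (Ψ j) (b j) 0 L (d j) u‖ ≤ ∏ j, (C j * (Real.exp (L * x * ξ j) *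
        (1 + |u|) ^ (x * fb (b j)) * (d j : ℝ) ^ (-(1 / 2 + x)))) := by
      refine Finset.prod_le_prod (fun _ _ => norm_nonneg _) fun j _ => ?_
      rw [← W1_indep (hΨ j) (b j) hx.nonneg hL (hd1 j) u]
      refine (hb j L u (d j) hL (hd1 j)).trans (le_of_eq ?_)
      congr 3
      · congr 1; ring
      · congr 1; ring
    refine h2.trans (le_of_eq ?_)
    rw [Finset.prod_mul_distrib, Finset.prod_mul_distrib, Finset.prod_mul_distrib, ← Real.exp_sum,
      ← Finset.mul_sum, ← Real.rpow_sum_of_pos hu, ← Finset.mul_sum,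
      Real.finsetProd_rpow _ _ (fun j _ => Nat.cast_nonneg (d j))]
    congr 3
    have := Nat.prod_eq_of_mem_finMulAntidiag hd
    rw [← this]; push_cast; rfl
  unfold Om
  refine (norm_sum_le_of_le _ h1).trans ?_
  rw [Finset.sum_const, nsmul_eq_mul]
  have h3 := card_anti k n hn
  have hCp : 0 ≤ ∏ j, C j := Finset.prod_nonneg fun j _ => hC j
  calc _ ≤ (n : ℝ) ^ k * ((∏ j, C j) * (Real.exp (L * x * ∑ j, ξ j) * (1 + |u|) ^ (x * ∑ j, fb (b j)) *
        (n : ℝ) ^ (-(1 / 2 + x)))) := by gcongr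
    _ = _ := by ring

/-- the comparison series -/
def ZZ : ℝ := ∑' n : ℕ, (n : ℝ) ^ (-(3 / 2) : ℝ)

lemma ZZ_sum : Summable (fun n : ℕ => (n : ℝ) ^ (-(3 / 2) : ℝ)) :=
  Real.summable_nat_rpow.2 (by norm_num)

lemma ZZ_nonneg : 0 ≤ ZZ := tsum_nonneg fun n => by positivity

/-- off-diagonal part of a product -/
def og (a b : ℕ → ℂ) (x : ℕ × ℕ) : ℂ := if x.1 = x.2 then 0 else a x.1 * b x.2

lemma og_norm (a b : ℕ → ℂ) (x : ℕ × ℕ) : ‖og a b x‖ ≤ ‖a x.1‖ * ‖b x.2‖ := by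
  unfold og
  split_ifs
  · rw [norm_zero]; positivity
  · rw [norm_mul]

lemma og_summable {a b : ℕ → ℂ} (sa : Summable fun n => ‖a n‖) (sb : Summable fun n => ‖b n‖) :
    Summable (og a b) := by
  have h1 : Summable fun x : ℕ × ℕ => ‖a x.1‖ * ‖b x.2‖ :=
    sa.mul_of_nonneg sb (fun _ => norm_nonneg _) (fun _ => norm_nonneg _)
  exact Summable.of_norm_bounded h1 (og_norm a b)

lemma og_eq {a b : ℕ → ℂ} (sa : Summable fun n => ‖a n‖) (sb : Summable fun n => ‖b n‖) :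
    (∑' n, a n) * (∑' n, b n) - (∑' n, a n * b n) = ∑' x, og a b x := by
  have sab : Summable fun x : ℕ × ℕ => a x.1 * b x.2 := summable_mul_of_summable_norm sa sb
  have e1 : (∑' n, a n) * (∑' n, b n) = ∑' x : ℕ × ℕ, a x.1 * b x.2 :=
    tsum_mul_tsum_of_summable_norm sa sb
  have hinj : Function.Injective (fun n : ℕ => (n, n)) := fun m n h => (Prod.ext_iff.1 h).1
  have sd : Summable fun x : ℕ × ℕ => (if x.1 = x.2 then a x.1 * b x.2 else 0) := by
    have := sab.sub (og_summable sa sb)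
    refine this.congr fun x => ?_
    unfold og
    split_ifs <;> ring
  have e2 : ∑' n, a n * b n = ∑' x : ℕ × ℕ, (if x.1 = x.2 then a x.1 * b x.2 else 0) := by
    have hsup : Function.support (fun x : ℕ × ℕ => (if x.1 = x.2 then a x.1 * b x.2 else 0)) ⊆
        Set.range (fun n : ℕ => (n, n)) := by
      intro x hx
      have h1 : x.1 = x.2 := by
        by_contra h
        rw [Function.mem_support, if_neg h] at hx
        exact hx rfl
      exact ⟨x.1, Prod.ext rfl h1⟩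
    rw [← hinj.tsum_eq hsup]
    refine tsum_congr fun n => ?_
    rw [if_pos rfl]
  rw [e1, e2, ← sab.tsum_sub sd]
  refine tsum_congr fun x => ?_
  unfold og
  split_ifs <;> ring

/-- truncation of the double sum -/
theorem trunc {a b : ℕ → ℂ} {pA pB tA tB : ℝ} {M N : ℕ} (hpA : 0 ≤ pA) (hpB : 0 ≤ pB) (htA : 0 ≤ tA)
    (htB : 0 ≤ tB) (ha : ∀ n : ℕ, ‖a n‖ ≤ pA * (n : ℝ) ^ (-(3 / 2) : ℝ))
    (hb : ∀ n : ℕ, ‖b n‖ ≤ pB * (n : ℝ) ^ (-(3 / 2) : ℝ))
    (ha' : ∀ n : ℕ, M ≤ n → ‖a n‖ ≤ tA * (n : ℝ) ^ (-(3 / 2) : ℝ))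
    (hb' : ∀ n : ℕ, N ≤ n → ‖b n‖ ≤ tB * (n : ℝ) ^ (-(3 / 2) : ℝ)) :
    ‖(∑' n, a n) * (∑' n, b n) - (∑' n, a n * b n) -
      ∑ x ∈ Finset.range M ×ˢ Finset.range N, og a b x‖ ≤ (tA * pB + pA * tB) * ZZ ^ 2 := by
  have sa : Summable fun n => ‖a n‖ :=
    Summable.of_nonneg_of_le (fun _ => norm_nonneg _) ha (ZZ_sum.mul_left pA)
  have sb : Summable fun n => ‖b n‖ :=
    Summable.of_nonneg_of_le (fun _ => norm_nonneg _) hb (ZZ_sum.mul_left pB)
  have sg := og_summable sa sb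
  obtain ⟨q, hq⟩ : ∃ q : ℕ → ℝ, q = fun n : ℕ => (n : ℝ) ^ (-(3 / 2) : ℝ) := ⟨_, rfl⟩
  have hq0 : ∀ n, 0 ≤ q n := fun n => by rw [hq]; positivity
  have hqs : Summable q := by rw [hq]; exact ZZ_sum
  have hqZ : ∑' n, q n = ZZ := by rw [hq]; rfl
  have hqn : ∀ n : ℕ, (n : ℝ) ^ (-(3 / 2) : ℝ) = q n := fun n => by rw [hq]
  simp only [hqn] at ha hb ha' hb'
  have sqq : Summable fun x : ℕ × ℕ => q x.1 * q x.2 := hqs.mul_of_nonneg hqs hq0 hq0
  have hZ2 : ∑' x : ℕ × ℕ, q x.1 * q x.2 = ZZ ^ 2 := by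
    rw [← hqs.tsum_mul_tsum hqs sqq, hqZ, sq]
  rw [og_eq sa sb]
  set F : Finset (ℕ × ℕ) := Finset.range M ×ˢ Finset.range N with hF
  have hbd : ∀ x : ℕ × ℕ, x ∉ F → ‖og a b x‖ ≤ (tA * pB + pA * tB) * (q x.1 * q x.2) := by
    intro x hx
    have hq1 := hq0 x.1
    have hq2 := hq0 x.2
    refine (og_norm a b x).trans ?_
    have hor : M ≤ x.1 ∨ N ≤ x.2 := by
      by_contra hcon
      push Not at hcon
      refine hx ?_
      rw [hF, Finset.mem_product, Finset.mem_range, Finset.mem_range]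
      exact hcon
    rcases hor with h | h
    · calc ‖a x.1‖ * ‖b x.2‖ ≤ (tA * q x.1) * (pB * q x.2) := by
            have := ha' x.1 h
            have := hb x.2
            gcongr
        _ = tA * pB * (q x.1 * q x.2) := by ring
        _ ≤ _ := by
            have : 0 ≤ pA * tB * (q x.1 * q x.2) := by positivity
            rw [add_mul]; linarith
    · calc ‖a x.1‖ * ‖b x.2‖ ≤ (pA * q x.1) * (tB * q x.2) := by
            have := ha x.1
            have := hb' x.2 h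
            gcongr
        _ = pA * tB * (q x.1 * q x.2) := by ring
        _ ≤ _ := by
            have : 0 ≤ tA * pB * (q x.1 * q x.2) := by positivity
            rw [add_mul]; linarith
  -- remove the finite part
  have e5 : (∑' x, og a b x) - ∑ x ∈ F, og a b x = ∑' x, (if x ∈ F then 0 else og a b x) := by
    have s1 : Summable fun x => (if x ∈ F then og a b x else 0) :=
      summable_of_ne_finset_zero (s := F) fun x hx => if_neg hx
    have e6 : ∑ x ∈ F, og a b x = ∑' x, (if x ∈ F then og a b x else 0) := by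
      rw [tsum_eq_sum (s := F) fun x hx => if_neg hx]
      exact Finset.sum_congr rfl fun x hx => (if_pos hx).symm
    rw [e6, ← sg.tsum_sub s1]
    refine tsum_congr fun x => ?_
    split_ifs <;> ring
  rw [e5, ← hZ2, ← tsum_mul_left]
  refine tsum_of_norm_bounded (sqq.mul_left _).hasSum fun x => ?_
  split_ifs with hx
  · rw [norm_zero]
    have := hq0 x.1
    have := hq0 x.2
    positivity
  · exact hbd x hx

end

end Pool.Agent.TH612.MD
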