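import Pool.Agent.TH612.MD.F

set_option autoImplicit false

/-! The off-diagonal estimate. -/

namespace Pool.Agent.TH612.MD

open Complex Filter Topology MeasureTheory Set
open scoped ContDiff ComplexConjugate
open Pool.Agent.W182.KO hiding ee SS_summable
open Pool.Agent.TH612.CF

noncomputable section

variable {k : ℕ}

section side

variable {ξ : Fin k → ℝ} {Ψ : Fin k → ℝ → ℂ} {c2 : ℝ}

/-- total length of one side -/
def lam (ξ : Fin k → ℝ) (b : Fin k → Bool) : ℝ := ∑ j, (ξ j + fb (b j))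

lemma npow_eq {n : ℕ} (hn : 1 ≤ n) (k : ℕ) (x : ℝ) :
    (n : ℝ) ^ k * (n : ℝ) ^ (-(1 / 2 + (k + 1 + x))) = (n : ℝ) ^ (-(3 / 2) : ℝ) * (n : ℝ) ^ (-x) := by
  have hn0 : (0:ℝ) < n := by exact_mod_cast hn
  rw [← Real.rpow_natCast, ← Real.rpow_add hn0, ← Real.rpow_add hn0]
  congr 1; ring

lemma Om_T (hΨ : ∀ j, TF (ξ j) (Ψ j)) (b : Fin k → Bool) (hc2 : 0 ≤ c2) {x : ℝ} (hx : 0 ≤ x) :
    ∃ C : ℝ, 0 ≤ C ∧ ∀ (T u : ℝ) (n : ℕ), Real.exp 1 ≤ T → |u| ≤ c2 * T → 1 ≤ n →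
      ‖Om Ψ b (Real.log T) u n‖ ≤ C * T ^ ((k + 1 + x) * lam ξ b) *
        ((n : ℝ) ^ (-(3 / 2) : ℝ) * (n : ℝ) ^ (-x)) := by
  have hAd : Ad (k + 1 + x) := Or.inr (by have : (0:ℝ) ≤ k := Nat.cast_nonneg k; linarith)
  obtain ⟨C, hC, hb⟩ := Om_bd hΨ b hAd
  set F : ℝ := ∑ j, fb (b j) with hF
  have hF0 : 0 ≤ F := Finset.sum_nonneg fun j _ => fb_nonneg _
  refine ⟨C * (1 + c2) ^ ((k + 1 + x) * F), by positivity, fun T u n hT hu hn => ?_⟩
  have hT1 : 1 ≤ T := by have := Real.add_one_le_exp 1; linarith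
  have hT0 : 0 < T := by linarith
  have hL : 1 ≤ Real.log T := by rwa [Real.le_log_iff_exp_le hT0]
  have hX := hAd.nonneg
  have g := hb (Real.log T) u n hL hn
  rw [npow_eq hn] at g
  refine g.trans ?_
  have e1 : Real.exp (Real.log T * (k + 1 + x) * ∑ j, ξ j) = T ^ ((k + 1 + x) * ∑ j, ξ j) := by
    rw [Real.rpow_def_of_pos hT0]
    congr 1; ring
  have e2 : (1 + |u|) ^ ((k + 1 + x) * F) ≤ (1 + c2) ^ ((k + 1 + x) * F) * T ^ ((k + 1 + x) * F) := by
    rw [← Real.mul_rpow (by linarith) hT0.le]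
    refine Real.rpow_le_rpow (by positivity) ?_ (by positivity)
    nlinarith
  have e3 : T ^ ((k + 1 + x) * lam ξ b) = T ^ ((k + 1 + x) * ∑ j, ξ j) * T ^ ((k + 1 + x) * F) := by
    rw [← Real.rpow_add hT0]
    unfold lam
    rw [Finset.sum_add_distrib, hF]
    congr 1; ring
  rw [e1, e3]
  calc _ ≤ C * (T ^ ((k + 1 + x) * ∑ j, ξ j) * ((1 + c2) ^ ((k + 1 + x) * F) * T ^ ((k + 1 + x) * F)) *
        ((n : ℝ) ^ (-(3 / 2) : ℝ) * (n : ℝ) ^ (-x))) := by gcongr
    _ = _ := by ring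

/-- polynomial bound -/
lemma Om_p (hΨ : ∀ j, TF (ξ j) (Ψ j)) (b : Fin k → Bool) (hc2 : 0 ≤ c2) :
    ∃ C : ℝ, 0 ≤ C ∧ ∀ (T u : ℝ) (n : ℕ), Real.exp 1 ≤ T → |u| ≤ c2 * T →
      ‖Om Ψ b (Real.log T) u n‖ ≤ C * T ^ ((k + 1) * lam ξ b) * (n : ℝ) ^ (-(3 / 2) : ℝ) := by
  obtain ⟨C, hC, hb⟩ := Om_T hΨ b hc2 le_rfl
  refine ⟨C, hC, fun T u n hT hu => ?_⟩
  have hT1 : 1 ≤ T := by have := Real.add_one_le_exp 1; linarith
  have hT0 : 0 < T := by linarith
  rcases Nat.eq_zero_or_pos n with hn | hn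
  · subst hn
    rw [Om_zero, norm_zero]
    positivity
  · have := hb T u n hT hu hn
    rw [neg_zero, Real.rpow_zero, mul_one, add_zero] at this
    exact this

/-- tail bound -/
lemma Om_t (hΨ : ∀ j, TF (ξ j) (Ψ j)) (b : Fin k → Bool) (hc2 : 0 ≤ c2) {ε : ℝ} (hε : 0 < ε)
    (K : ℕ) : ∃ C : ℝ, 0 ≤ C ∧ ∀ (T u : ℝ) (n : ℕ), Real.exp 1 ≤ T → |u| ≤ c2 * T →
      T ^ (lam ξ b + ε) ≤ n → ‖Om Ψ b (Real.log T) u n‖ ≤ C / T ^ K * (n : ℝ) ^ (-(3 / 2) : ℝ) := by
  set x : ℝ := (K + (k + 1) * |lam ξ b|) / ε with hx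
  have hx0 : 0 ≤ x := by positivity
  obtain ⟨C, hC, hb⟩ := Om_T hΨ b hc2 hx0
  refine ⟨C, hC, fun T u n hT hu hn => ?_⟩
  have hT1 : 1 ≤ T := by have := Real.add_one_le_exp 1; linarith
  have hT0 : 0 < T := by linarith
  have hTp : 0 < T ^ (lam ξ b + ε) := by positivity
  have hn0 : (0:ℝ) < n := by linarith
  have hn1 : 1 ≤ n := by
    rcases Nat.eq_zero_or_pos n with h | h
    · subst h; simp at hn0
    · exact h
  refine (hb T u n hT hu hn1).trans ?_
  have g1 : (n : ℝ) ^ (-x) ≤ T ^ (-((lam ξ b + ε) * x)) := by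
    rw [Real.rpow_neg hn0.le, Real.rpow_neg hT0.le, Real.rpow_mul hT0.le]
    refine inv_anti₀ (by positivity) ?_
    exact Real.rpow_le_rpow hTp.le hn hx0
  have g2 : T ^ ((k + 1 + x) * lam ξ b) * T ^ (-((lam ξ b + ε) * x)) ≤ 1 / T ^ K := by
    rw [← Real.rpow_add hT0, one_div, ← Real.rpow_natCast, ← Real.rpow_neg hT0.le]
    refine Real.rpow_le_rpow_of_exponent_le hT1 ?_
    have h1 : ε * x = K + (k + 1) * |lam ξ b| := by rw [hx]; field_simp
    have h2 : (k + 1) * lam ξ b ≤ (k + 1) * |lam ξ b| :=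
      mul_le_mul_of_nonneg_left (le_abs_self _) (by positivity)
    nlinarith
  have hq : 0 ≤ (n : ℝ) ^ (-(3 / 2) : ℝ) := by positivity
  calc _ ≤ C * T ^ ((k + 1 + x) * lam ξ b) * ((n : ℝ) ^ (-(3 / 2) : ℝ) * T ^ (-((lam ξ b + ε) * x))) := by
        gcongr
    _ = C * (T ^ ((k + 1 + x) * lam ξ b) * T ^ (-((lam ξ b + ε) * x))) * (n : ℝ) ^ (-(3 / 2) : ℝ) := by ring
    _ ≤ C * (1 / T ^ K) * (n : ℝ) ^ (-(3 / 2) : ℝ) := by gcongr
    _ = _ := by ring

end side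

lemma log_sep {m n : ℕ} (hm : 1 ≤ m) (hn : 1 ≤ n) (hmn : m ≠ n) {R : ℝ} (hR : (m : ℝ) ≤ R ∨ (n : ℝ) ≤ R) :
    1 / (R + 1) ≤ |Real.log m - Real.log n| := by
  have key : ∀ {p q : ℕ}, 1 ≤ q → q < p → (p : ℝ) ≤ R ∨ (q : ℝ) ≤ R →
      1 / (R + 1) ≤ Real.log p - Real.log q := by
    intro p q hq hqp hR'
    have hq0 : (0:ℝ) < q := by exact_mod_cast hq
    have hp0 : (0:ℝ) < p := by exact_mod_cast (by omega : 0 < p)
    have hpq : (q : ℝ) + 1 ≤ p := by exact_mod_cast hqp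
    have hqR : (q : ℝ) ≤ R := by
      rcases hR' with h | h <;> linarith
    rw [← Real.log_div hp0.ne' hq0.ne']
    have h1 := Real.one_sub_inv_le_log_of_pos (div_pos hp0 hq0)
    rw [inv_div] at h1
    refine le_trans ?_ h1
    have h2 : (q : ℝ) / p ≤ q / (q + 1) := by gcongr
    have h3 : 1 - (q : ℝ) / (q + 1) = 1 / (q + 1) := by field_simp; ring
    have h4 : 1 / (R + 1) ≤ 1 / ((q : ℝ) + 1) := by
      apply one_div_le_one_div_of_le (by linarith)
      linarith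
    linarith
  rcases lt_or_gt_of_ne hmn with h | h
  · have := key hm h hR.symm
    rw [abs_sub_comm]
    exact this.trans (le_abs_self _)
  · have := key hn h hR
    exact this.trans (le_abs_self _)

variable {v : Fin k ⊕ Fin k → ℝ} {μ : ℝ} {ξ : Fin k ⊕ Fin k → ℝ} {Ψ : Fin k ⊕ Fin k → ℝ → ℂ}
  {c1 c2 : ℝ} {w : ℝ → ℂ}

lemma sum_pi (π : Equiv.Perm (Fin k ⊕ Fin k)) (f : Fin k ⊕ Fin k → ℝ) :
    ∑ i, f i = (∑ j, f (π (Sum.inl j))) + ∑ j, f (π (Sum.inr j)) := by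
  rw [← Equiv.sum_comp π f, Fintype.sum_sum_type]

lemma sum_log_anti {n : ℕ} {d : Fin k → ℕ} (hd : d ∈ Nat.finMulAntidiag k n) :
    ∑ j, Real.log (d j) = Real.log n := by
  rw [← Real.log_prod (fun j _ => by
    exact_mod_cast Nat.ne_zero_of_mem_finMulAntidiag hd j)]
  congr 1
  rw [← Nat.prod_eq_of_mem_finMulAntidiag hd]
  push_cast; rfl

lemma sv_log {π : Equiv.Perm (Fin k ⊕ Fin k)} (h : GV v π) {m n : ℕ} {d d' : Fin k → ℕ}
    (hd : d ∈ Nat.finMulAntidiag k m) (hd' : d' ∈ Nat.finMulAntidiag k n) :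
    ∑ i, sv v i * Real.log (NN π d d' i) = Real.log m - Real.log n := by
  rw [sum_pi π]
  simp only [NN_inl, NN_inr, sv_inl h, sv_inr h, one_mul, neg_mul, Finset.sum_neg_distrib]
  rw [sum_log_anti hd, sum_log_anti hd']
  ring

/-- balance -/
lemma bal {π : Equiv.Perm (Fin k ⊕ Fin k)} (h : GV v π) : Bal (bv v) (sv v) := by
  refine ⟨sv_pm v, fun z hz => ?_⟩
  rw [prod_pi π]
  simp only [sv_inl h, sv_inr h, bv_inl h, bv_inr h]
  have him : 1 ≤ (1 / 2 + I * z).im := by simpa using hz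
  have e1 : ∏ j : Fin k, Xf (π (Sum.inl j)).isRight (1 / 2 + I * (((1:ℝ) : ℂ) * z)) =
      XX (1 / 2 + I * z) ^ (SL π).card := by
    unfold Xf SL
    rw [Finset.prod_ite, Finset.prod_const, Finset.prod_const_one, mul_one]
    simp
  have e2 : ∏ j : Fin k, Xf (π (Sum.inr j)).isLeft (1 / 2 + I * (((-1:ℝ) : ℂ) * z)) =
      XX (1 - (1 / 2 + I * z)) ^ (SR π).card := by
    unfold Xf SR
    rw [Finset.prod_ite, Finset.prod_const, Finset.prod_const_one, mul_one]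
    congr 2
    push_cast; ring
  rw [e1, e2, ← card_SL_SR, ← mul_pow, XX_one him, one_pow]

/-- the finite off-diagonal sum -/
theorem fin_off (hw : WT c1 c2 w) (hc1 : 0 < c1) (hc12 : c1 ≤ c2) (hΨ : ∀ i, TF (ξ i) (Ψ i))
    {π : Equiv.Perm (Fin k ⊕ Fin k)} (h : GV v π) (J : ℕ) :
    ∃ C : ℝ, 0 ≤ C ∧ ∀ (L T R : ℝ) (x : ℕ × ℕ), 1 ≤ L → 64 ≤ T → 128 ≤ c1 * T → 0 ≤ R →
      ((x.1 : ℝ) ≤ R ∨ (x.2 : ℝ) ≤ R) →
      IntervalIntegrable (fun t => w (t / T) * og (Om (sA π Ψ) (sA π (bv v)) L t)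
        (Om (sB π Ψ) (sB π (bv v)) L (-t)) x) volume (c1 * T) (c2 * T) ∧
      ‖∫ t in (c1 * T)..(c2 * T), w (t / T) * og (Om (sA π Ψ) (sA π (bv v)) L t)
        (Om (sB π Ψ) (sB π (bv v)) L (-t)) x‖ ≤
        ((x.1 : ℝ) ^ k * (x.2 : ℝ) ^ k) * (C * T * (1 / (T * (1 / (R + 1)))) ^ J) := by
  obtain ⟨C, hC, hoff⟩ := off_term hw hc1 hc12 hΨ (bal h) J
  refine ⟨C, hC, fun L T R x hL hT hcT hR hxR => ?_⟩
  have hT0 : 0 < T := by linarith
  have hle : c1 * T ≤ c2 * T := by gcongr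
  have hca : 0 ≤ c1 * T := by positivity
  by_cases hx0 : x.1 = x.2
  · have e : (fun t => w (t / T) * og (Om (sA π Ψ) (sA π (bv v)) L t)
        (Om (sB π Ψ) (sB π (bv v)) L (-t)) x) = fun _ => 0 := by
      funext t
      unfold og
      rw [if_pos hx0, mul_zero]
    rw [e]
    refine ⟨by simp, ?_⟩
    rw [intervalIntegral.integral_zero, norm_zero]
    positivity
  · have e : (fun t => w (t / T) * og (Om (sA π Ψ) (sA π (bv v)) L t)
        (Om (sB π Ψ) (sB π (bv v)) L (-t)) x) = fun t =>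
        ∑ d ∈ Nat.finMulAntidiag k x.1, ∑ d' ∈ Nat.finMulAntidiag k x.2,
          w (t / T) * ∏ i, W1 (Ψ i) (bv v i) 0 L (NN π d d' i) (sv v i * t) := by
      funext t
      unfold og
      rw [if_neg hx0, Om_mul h, Finset.mul_sum]
      refine Finset.sum_congr rfl fun d _ => ?_
      rw [Finset.mul_sum]
    rw [e]
    have hi : ∀ d ∈ Nat.finMulAntidiag k x.1, ∀ d' ∈ Nat.finMulAntidiag k x.2,
        IntervalIntegrable (fun t => w (t / T) * ∏ i, W1 (Ψ i) (bv v i) 0 L (NN π d d' i) (sv v i * t))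
          volume (c1 * T) (c2 * T) := by
      intro d hd d' hd'
      rw [intervalIntegrable_iff_integrableOn_Ioc_of_le hle]
      have hN := NN_pos π hd hd'
      have hAd : Ad 0 := Or.inl ⟨le_rfl, by norm_num⟩
      obtain ⟨Cw, hCw, hbw⟩ := hw.bdd
      have hD := fun i => w1_dec (hΨ i) (bv v i) hAd 2
      choose CD hCD hDb using hD
      have hGc := GT_joint hw.cont hΨ (bv v) (sv v) (x := fun _ => 0) (fun _ => le_rfl) L T hN
      have hint := prodintC (G := GT w Ψ (bv v) (sv v) (fun _ => 0) L T (NN π d d'))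
        (a := c1 * T) (b := c2 * T) (B := Cw * ∏ i, CD i) hGc.continuousOn
        (Eventually.of_forall fun y t _ => by
          unfold GT JI
          rw [norm_mul, norm_prod, mul_assoc, ← Finset.prod_mul_distrib]
          have h1 : ∏ i, ‖w1 (Ψ i) (bv v i) L (NN π d d' i) (sv v i * t) ((0:ℝ) + y i * I)‖ ≤
              ∏ i, (CD i * ((1 + |y i|) ^ 2)⁻¹) := by
            refine Finset.prod_le_prod (fun _ _ => norm_nonneg _) fun i _ => ?_
            refine (hDb i L (sv v i * t) (y i) (NN π d d' i) hL (hN i)).trans ?_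
            rw [mul_zero, mul_zero, mul_zero, Real.exp_zero, Real.rpow_zero, one_mul, one_mul, add_zero,
              div_eq_mul_inv]
            have hNi : (1:ℝ) ≤ NN π d d' i := by exact_mod_cast hN i
            have h2 : (NN π d d' i : ℝ) ^ (-(1 / 2) : ℝ) ≤ 1 :=
              Real.rpow_le_one_of_one_le_of_nonpos hNi (by norm_num)
            have := hCD i
            calc CD i * (NN π d d' i : ℝ) ^ (-(1 / 2) : ℝ) * ((1 + |y i|) ^ 2)⁻¹ ≤
                CD i * 1 * ((1 + |y i|) ^ 2)⁻¹ := by gcongr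
              _ = _ := by ring
          have := hbw (t / T)
          gcongr)
      refine hint.integral_prod_left.congr (Eventually.of_forall fun t => ?_)
      simp only
      unfold GT
      rw [integral_const_mul, integral_fintype_prod_volume_eq_prod
        (f := fun (i : Fin k ⊕ Fin k) (x : ℝ) => w1 (Ψ i) (bv v i) L (NN π d d' i) (sv v i * t)
          ((0:ℝ) + x * I))]
      rfl
    have hi2 : ∀ d ∈ Nat.finMulAntidiag k x.1, IntervalIntegrable (fun t =>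
        ∑ d' ∈ Nat.finMulAntidiag k x.2,
          w (t / T) * ∏ i, W1 (Ψ i) (bv v i) 0 L (NN π d d' i) (sv v i * t))
          volume (c1 * T) (c2 * T) := fun d hd => by
      have := IntervalIntegrable.sum (Nat.finMulAntidiag k x.2) (fun d' hd' => hi d hd d' hd')
      refine this.congr (fun t _ => ?_)
      simp
    constructor
    · have := IntervalIntegrable.sum (Nat.finMulAntidiag k x.1) (fun d hd => hi2 d hd)
      refine this.congr (fun t _ => ?_)
      simp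
    · rw [intervalIntegral.integral_finsetSum fun d hd => hi2 d hd]
      set Bd : ℝ := C * T * (1 / (T * (1 / (R + 1)))) ^ J with hBd
      have hBd0 : 0 ≤ Bd := by positivity
      have hterm : ∀ d ∈ Nat.finMulAntidiag k x.1, ‖∫ t in (c1 * T)..(c2 * T),
          ∑ d' ∈ Nat.finMulAntidiag k x.2,
          w (t / T) * ∏ i, W1 (Ψ i) (bv v i) 0 L (NN π d d' i) (sv v i * t)‖ ≤
          (x.2 : ℝ) ^ k * Bd := by
        intro d hd
        rw [intervalIntegral.integral_finsetSum fun d' hd' => hi d hd d' hd']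
        have h1 : ∀ d' ∈ Nat.finMulAntidiag k x.2, ‖∫ t in (c1 * T)..(c2 * T),
            w (t / T) * ∏ i, W1 (Ψ i) (bv v i) 0 L (NN π d d' i) (sv v i * t)‖ ≤ Bd := by
          intro d' hd'
          have hx1 : 1 ≤ x.1 := Nat.one_le_iff_ne_zero.2 (Nat.mem_finMulAntidiag.1 hd).2
          have hx2 : 1 ≤ x.2 := Nat.one_le_iff_ne_zero.2 (Nat.mem_finMulAntidiag.1 hd').2
          refine hoff L T (1 / (R + 1)) (NN π d d') hL hT hcT (by positivity) ?_ (NN_pos π hd hd') ?_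
          · rw [div_le_one (by linarith)]
            linarith
          · rw [sv_log h hd hd']
            exact log_sep hx1 hx2 hx0 hxR
        refine (norm_sum_le_of_le _ h1).trans ?_
        rw [Finset.sum_const, nsmul_eq_mul]
        rcases Nat.eq_zero_or_pos x.2 with hz | hz
        · rw [hz]; simp; positivity
        · have := card_anti k x.2 hz
          gcongr
      refine (norm_sum_le_of_le _ hterm).trans ?_
      rw [Finset.sum_const, nsmul_eq_mul]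
      rcases Nat.eq_zero_or_pos x.1 with hz | hz
      · rw [hz]; simp; positivity
      · have := card_anti k x.1 hz
        calc _ ≤ (x.1 : ℝ) ^ k * ((x.2 : ℝ) ^ k * Bd) := by gcongr
          _ = _ := by ring

end

end Pool.Agent.TH612.MD
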