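import Pool.Agent.TH612.MD.E

set_option autoImplicit false

/-! The product of the zeta factors against one main swap term. -/

namespace Pool.Agent.TH612.MD

open Complex Filter Topology MeasureTheory Set
open scoped ContDiff ComplexConjugate
open Pool.Agent.W182.KO hiding ee SS_summable
open Pool.Agent.TH612.CF

noncomputable section

lemma prod_dif {ι : Type*} (s : Finset ι) (a b : ι → ℂ) {B ε : ℝ} (hB : 1 ≤ B) (hε : 0 ≤ ε)
    (ha : ∀ i, ‖a i‖ ≤ B) (hb : ∀ i, ‖b i‖ ≤ B) (hab : ∀ i, ‖a i - b i‖ ≤ ε) :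
    ‖∏ i ∈ s, a i - ∏ i ∈ s, b i‖ ≤ s.card * B ^ s.card * ε := by
  classical
  induction s using Finset.induction_on with
  | empty => simp
  | insert i s hi ih =>
    rw [Finset.prod_insert hi, Finset.prod_insert hi, Finset.card_insert_of_notMem hi]
    have e : a i * ∏ i ∈ s, a i - b i * ∏ i ∈ s, b i =
        a i * (∏ i ∈ s, a i - ∏ i ∈ s, b i) + (a i - b i) * ∏ i ∈ s, b i := by ring
    have h1 : ‖∏ i ∈ s, b i‖ ≤ B ^ s.card := by
      rw [norm_prod, ← Finset.prod_const]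
      exact Finset.prod_le_prod (fun _ _ => norm_nonneg _) fun i _ => hb i
    have hB0 : 0 ≤ B := by linarith
    have h2 : B ^ s.card ≤ B ^ (s.card + 1) := pow_le_pow_right₀ hB (by omega)
    rw [e]
    refine (norm_add_le _ _).trans ?_
    rw [norm_mul, norm_mul]
    have g1 := ha i
    have g2 := hab i
    calc ‖a i‖ * ‖∏ i ∈ s, a i - ∏ i ∈ s, b i‖ + ‖a i - b i‖ * ‖∏ i ∈ s, b i‖ ≤
        B * (s.card * B ^ s.card * ε) + ε * B ^ s.card := by gcongr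
      _ ≤ B * (s.card * B ^ s.card * ε) + ε * B ^ (s.card + 1) := by gcongr
      _ = _ := by push_cast; ring

lemma N2_bd {ξ1 : ℝ} {Ψ : ℝ → ℂ} (h : TF ξ1 Ψ) (b : Bool) {c2 : ℝ} (hc2 : 0 ≤ c2) :
    ∃ C p : ℝ, 0 ≤ C ∧ 0 ≤ p ∧ ∀ T u : ℝ, Real.exp 1 ≤ T → |u| ≤ c2 * T →
      ‖N2 Ψ b (1 / 8) (Real.log T) u‖ ≤ C * T ^ p := by
  obtain ⟨C, hC, hb⟩ := W1_bd h b (x := 1 / 2 + 4 * (1 / 8)) (Or.inr (by norm_num))
  set x : ℝ := 1 / 2 + 4 * (1 / 8) with hx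
  have hx0 : x = 1 := by rw [hx]; norm_num
  have hf := fb_nonneg b
  have hs : Summable fun n : ℕ => (n : ℝ) ^ (-(1 / 2 + x)) :=
    Real.summable_nat_rpow.2 (by rw [hx0]; norm_num)
  have hS0 : 0 ≤ ∑' n : ℕ, (n : ℝ) ^ (-(1 / 2 + x)) := tsum_nonneg fun n => by positivity
  refine ⟨C * (1 + c2) ^ (fb b * x) * ∑' n : ℕ, (n : ℝ) ^ (-(1 / 2 + x)), |ξ1| * x + fb b * x,
    by positivity, by positivity, fun T u hT hu => ?_⟩
  have hT1 : 1 ≤ T := by have := Real.add_one_le_exp 1; linarith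
  have hT0 : 0 < T := by linarith
  have hL : 1 ≤ Real.log T := by rwa [Real.le_log_iff_exp_le hT0]
  have e1 : Real.exp (ξ1 * (Real.log T * x)) ≤ T ^ (|ξ1| * x) := by
    rw [Real.rpow_def_of_pos hT0]
    apply Real.exp_le_exp.2
    have := le_abs_self ξ1
    have h0 : 0 ≤ Real.log T * x := by positivity
    nlinarith
  have e2 : (1 + |u|) ^ (fb b * x) ≤ (1 + c2) ^ (fb b * x) * T ^ (fb b * x) := by
    rw [← Real.mul_rpow (by linarith) hT0.le]
    refine Real.rpow_le_rpow (by positivity) ?_ (by positivity)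
    nlinarith
  have hT2 : T ^ (|ξ1| * x + fb b * x) = T ^ (|ξ1| * x) * T ^ (fb b * x) := Real.rpow_add hT0 _ _
  have key := N2_hasSum h b (κ := 1 / 8) (by norm_num) hL u
  rw [← key.tsum_eq]
  have hbd : ∀ n : ℕ, ‖W1 Ψ b x (Real.log T) n u‖ ≤
      (C * (1 + c2) ^ (fb b * x) * T ^ (|ξ1| * x + fb b * x)) * (n : ℝ) ^ (-(1 / 2 + x)) := by
    intro n
    rcases Nat.eq_zero_or_pos n with hn | hn
    · subst hn
      rw [W1_zero _ _ _ (by positivity), norm_zero]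
      positivity
    · refine (hb (Real.log T) u n hL hn).trans ?_
      rw [hT2]
      calc _ ≤ C * (T ^ (|ξ1| * x) * ((1 + c2) ^ (fb b * x) * T ^ (fb b * x)) *
          (n : ℝ) ^ (-(1 / 2 + x))) := by gcongr
        _ = _ := by ring
  refine (tsum_of_norm_bounded (hs.mul_left _).hasSum hbd).trans (le_of_eq ?_)
  rw [tsum_mul_left]
  ring

variable {k : ℕ} {v : Fin k ⊕ Fin k → ℝ} {μ : ℝ} {ξ : Fin k ⊕ Fin k → ℝ} {Ψ : Fin k ⊕ Fin k → ℝ → ℂ}
  {c1 c2 : ℝ} {w : ℝ → ℂ}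

lemma pN (hΨ : ∀ i, TF (ξ i) (Ψ i)) (v : Fin k ⊕ Fin k → ℝ) (hc1 : 0 < c1) (hc12 : c1 ≤ c2) (K : ℕ) :
    ∃ C T1 : ℝ, 0 ≤ C ∧ Real.exp 1 ≤ T1 ∧ ∀ T t : ℝ, T1 ≤ T → c1 * T ≤ t → t ≤ c2 * T →
      ‖∏ i, N1 (Ψ i) (bv v i) (Real.log T) (sv v i * t) -
        ∏ i, N2 (Ψ i) (bv v i) (1 / 8) (Real.log T) (sv v i * t)‖ ≤ C / T ^ K := by
  have hc2 : 0 ≤ c2 := by linarith
  have hN := fun i => N2_bd (hΨ i) (bv v i) hc2
  choose C p hC hp hb using hN
  set n : ℕ := (Finset.univ : Finset (Fin k ⊕ Fin k)).card with hn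
  set P : ℝ := ∑ i, p i with hP
  have hP0 : 0 ≤ P := Finset.sum_nonneg fun i _ => hp i
  set K' : ℕ := K + ⌈P * n⌉₊ with hK'
  have hS := fun i => N1_shift (hΨ i) (bv v i) (κ := 1 / 8) (by norm_num) hc1 hc12 K'
  choose C' T1 hC' hT1 hb' using hS
  have hS0 : 0 ≤ ∑ i, C i := Finset.sum_nonneg fun i _ => hC i
  have hS0' : 0 ≤ ∑ i, C' i := Finset.sum_nonneg fun i _ => hC' i
  set B0 : ℝ := 1 + ∑ i, C i + ∑ i, C' i with hB0
  have hB01 : 1 ≤ B0 := by linarith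
  refine ⟨n * B0 ^ n * ∑ i, C' i, Real.exp 1 + ∑ i, |T1 i|, by positivity, by
    have : 0 ≤ ∑ i, |T1 i| := Finset.sum_nonneg fun i _ => abs_nonneg _
    linarith, fun T t hT h1 h2 => ?_⟩
  have hTs : 0 ≤ ∑ i, |T1 i| := Finset.sum_nonneg fun i _ => abs_nonneg _
  have hTe : Real.exp 1 ≤ T := by linarith
  have hT1' : ∀ i, T1 i ≤ T := fun i => by
    have := Finset.single_le_sum (f := fun i => |T1 i|) (fun i _ => abs_nonneg _) (Finset.mem_univ i)
    have h3 := le_abs_self (T1 i)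
    have h4 := Real.exp_pos 1
    linarith
  have hT1 : 1 ≤ T := by have := Real.add_one_le_exp 1; linarith
  have hT0 : 0 < T := by linarith
  have ht0 : 0 ≤ t := by
    have : 0 < c1 * T := by positivity
    linarith
  have habs : ∀ i, |sv v i * t| = t := fun i => by
    rw [abs_mul, abs_of_nonneg ht0]
    rcases sv_pm v i with h | h <;> rw [h] <;> simp
  have hd : ∀ i, ‖N1 (Ψ i) (bv v i) (Real.log T) (sv v i * t) -
        N2 (Ψ i) (bv v i) (1 / 8) (Real.log T) (sv v i * t)‖ ≤ (∑ i, C' i) / T ^ K' := fun i => by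
    refine (hb' i T (sv v i * t) (hT1' i) (by rw [habs]; exact h1) (by rw [habs]; exact h2)).trans ?_
    have := Finset.single_le_sum (f := C') (fun i _ => hC' i) (Finset.mem_univ i)
    gcongr
  have h2b : ∀ i, ‖N2 (Ψ i) (bv v i) (1 / 8) (Real.log T) (sv v i * t)‖ ≤ (∑ i, C i) * T ^ P := fun i => by
    refine (hb i T (sv v i * t) hTe (by rw [habs]; exact h2)).trans ?_
    have g1 := Finset.single_le_sum (f := C) (fun i _ => hC i) (Finset.mem_univ i)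
    have g2 := Finset.single_le_sum (f := p) (fun i _ => hp i) (Finset.mem_univ i)
    have g3 : T ^ (p i) ≤ T ^ P := Real.rpow_le_rpow_of_exponent_le hT1 g2
    have := hC i
    gcongr
  have hTP : 1 ≤ T ^ P := Real.one_le_rpow hT1 hP0
  have hTK : (∑ i, C' i) / T ^ K' ≤ ∑ i, C' i := div_le_self hS0' (one_le_pow₀ hT1)
  have key := prod_dif (Finset.univ : Finset (Fin k ⊕ Fin k))
    (fun i => N1 (Ψ i) (bv v i) (Real.log T) (sv v i * t))
    (fun i => N2 (Ψ i) (bv v i) (1 / 8) (Real.log T) (sv v i * t)) (B := B0 * T ^ P)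
    (ε := (∑ i, C' i) / T ^ K') (by nlinarith) (by positivity)
    (fun i => by
      have g := norm_le_norm_add_norm_sub' (N1 (Ψ i) (bv v i) (Real.log T) (sv v i * t))
        (N2 (Ψ i) (bv v i) (1 / 8) (Real.log T) (sv v i * t))
      have g2 := h2b i
      have g3 := hd i
      nlinarith)
    (fun i => (h2b i).trans (by
      have : ∑ i, C i ≤ B0 := by linarith
      gcongr)) hd
  refine key.trans ?_
  rw [← hn, mul_pow]
  have e1 : (T ^ P) ^ n ≤ T ^ ⌈P * n⌉₊ := by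
    rw [← Real.rpow_natCast (T ^ P), ← Real.rpow_mul hT0.le, ← Real.rpow_natCast]
    exact Real.rpow_le_rpow_of_exponent_le hT1 (Nat.le_ceil _)
  have e2 : T ^ K' = T ^ K * T ^ ⌈P * n⌉₊ := by rw [hK', pow_add]
  rw [e2]
  calc (n:ℝ) * (B0 ^ n * (T ^ P) ^ n) * ((∑ i, C' i) / (T ^ K * T ^ ⌈P * n⌉₊)) ≤
      (n:ℝ) * (B0 ^ n * T ^ ⌈P * n⌉₊) * ((∑ i, C' i) / (T ^ K * T ^ ⌈P * n⌉₊)) := by gcongr
    _ = _ := by field_simp

lemma prod_N2 {π : Equiv.Perm (Fin k ⊕ Fin k)} (h : GV v π) (Ψ : Fin k ⊕ Fin k → ℝ → ℂ) (κ L t : ℝ) :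
    ∏ i, N2 (Ψ i) (bv v i) κ L (sv v i * t) =
      (∏ j, N2 (sA π Ψ j) (sA π (bv v) j) κ L t) * ∏ j, N2 (sB π Ψ j) (sB π (bv v) j) κ L (-t) := by
  rw [prod_pi π]
  simp only [sv_inl h, sv_inr h, one_mul, neg_mul]
  rfl

/-- truncation for the difference -/
lemma pT (hv : VV v μ) (hΨ : ∀ i, TF (ξ i) (Ψ i)) {π : Equiv.Perm (Fin k ⊕ Fin k)} (h : GV v π)
    {c0 : ℝ} (h1 : 0 < c0) (h2 : c0 < 1 / 4) (hc2 : 0 ≤ c2) {ε : ℝ} (hε : 0 < ε) (K : ℕ) :
    ∃ C : ℝ, 0 ≤ C ∧ ∀ T t : ℝ, Real.exp 1 ≤ T → 0 ≤ t → t ≤ c2 * T →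
      ‖∏ i, N2 (Ψ i) (bv v i) (1 / 8) (Real.log T) (sv v i * t) - Jp Ψ v c0 (Real.log T) π t -
        ∑ x ∈ Finset.range ⌈T ^ (lam (sA π ξ) (sA π (bv v)) + ε)⌉₊ ×ˢ
          Finset.range ⌈T ^ (lam (sB π ξ) (sB π (bv v)) + ε)⌉₊,
          og (Om (sA π Ψ) (sA π (bv v)) (Real.log T) t)
            (Om (sB π Ψ) (sB π (bv v)) (Real.log T) (-t)) x‖ ≤ C / T ^ K := by
  have hA : ∀ j, TF (sA π ξ j) (sA π Ψ j) := fun j => hΨ _
  have hB : ∀ j, TF (sB π ξ j) (sB π Ψ j) := fun j => hΨ _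
  set la : ℝ := lam (sA π ξ) (sA π (bv v)) with hla
  set lb : ℝ := lam (sB π ξ) (sB π (bv v)) with hlb
  obtain ⟨CA, hCA, hbA⟩ := Om_p hA (sA π (bv v)) hc2
  obtain ⟨CB, hCB, hbB⟩ := Om_p hB (sB π (bv v)) hc2
  set Q : ℕ := ⌈(k + 1) * (|la| + |lb|)⌉₊ with hQ
  obtain ⟨DA, hDA, htA⟩ := Om_t hA (sA π (bv v)) hc2 hε (K + Q)
  obtain ⟨DB, hDB, htB⟩ := Om_t hB (sB π (bv v)) hc2 hε (K + Q)
  refine ⟨(DA * CB + CA * DB) * ZZ ^ 2, by have := ZZ_nonneg; positivity, fun T t hT ht0 ht => ?_⟩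
  have hT1 : 1 ≤ T := by have := Real.add_one_le_exp 1; linarith
  have hT0 : 0 < T := by linarith
  have hL : 1 ≤ Real.log T := by rwa [Real.le_log_iff_exp_le hT0]
  have hu : |t| ≤ c2 * T := by rwa [abs_of_nonneg ht0]
  have hu' : |-t| ≤ c2 * T := by rwa [abs_neg]
  have sA' := Om_hasSum hA (sA π (bv v)) (κ := 1 / 8) (by norm_num) hL t
  have sB' := Om_hasSum hB (sB π (bv v)) (κ := 1 / 8) (by norm_num) hL (-t)
  have sJ := good_hasSum hv hΨ h h1 h2 hL ht0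
  have eJ : Jp Ψ v c0 (Real.log T) π t = ∑' n, Om (sA π Ψ) (sA π (bv v)) (Real.log T) t n *
      Om (sB π Ψ) (sB π (bv v)) (Real.log T) (-t) n := sJ.tsum_eq.symm
  rw [prod_N2 h, ← sA'.tsum_eq, ← sB'.tsum_eq, eJ]
  refine (trunc (pA := CA * T ^ ((k + 1) * la)) (pB := CB * T ^ ((k + 1) * lb))
    (tA := DA / T ^ (K + Q)) (tB := DB / T ^ (K + Q)) (by positivity) (by positivity)
    (by positivity) (by positivity) (fun n => hbA T t n hT hu) (fun n => hbB T (-t) n hT hu')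
    (fun n hn => htA T t n hT hu ((Nat.ceil_le).1 hn))
    (fun n hn => htB T (-t) n hT hu' ((Nat.ceil_le).1 hn))).trans ?_
  have hz := ZZ_nonneg
  have g : ∀ x : ℝ, |x| ≤ |la| + |lb| → T ^ ((k + 1) * x) ≤ T ^ Q := by
    intro x hx
    rw [← Real.rpow_natCast]
    refine Real.rpow_le_rpow_of_exponent_le hT1 ?_
    refine le_trans ?_ (Nat.le_ceil _)
    have : x ≤ |la| + |lb| := (le_abs_self x).trans hx
    gcongr
  have ga := g la (by have := abs_nonneg lb; linarith)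
  have gb := g lb (by have := abs_nonneg la; linarith)
  rw [pow_add]
  calc (DA / (T ^ K * T ^ Q) * (CB * T ^ ((k + 1) * lb)) + CA * T ^ ((k + 1) * la) *
        (DB / (T ^ K * T ^ Q))) * ZZ ^ 2 ≤ (DA / (T ^ K * T ^ Q) * (CB * T ^ Q) + CA * T ^ Q *
        (DB / (T ^ K * T ^ Q))) * ZZ ^ 2 := by gcongr
    _ = _ := by field_simp

/-- the off-diagonal theorem for one main swap term -/
theorem offd (hw : WT c1 c2 w) (hc1 : 0 < c1) (hc12 : c1 ≤ c2) (hv : VV v μ)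
    (hΨ : ∀ i, TF (ξ i) (Ψ i)) {π : Equiv.Perm (Fin k ⊕ Fin k)} (h : GV v π) {c0 : ℝ} (h1 : 0 < c0)
    (h2 : c0 < 1 / 4)
    (hlam : lam (sA π ξ) (sA π (bv v)) < 1 ∨ lam (sB π ξ) (sB π (bv v)) < 1) :
    ∃ C T1 : ℝ, 0 ≤ C ∧ Real.exp 1 ≤ T1 ∧ ∀ T, T1 ≤ T →
      ‖∫ t in (c1 * T)..(c2 * T), w (t / T) * ((∏ i, N1 (Ψ i) (bv v i) (Real.log T) (sv v i * t)) -
        Jp Ψ v c0 (Real.log T) π t)‖ ≤ C := by
  set la : ℝ := lam (sA π ξ) (sA π (bv v)) with hla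
  set lb : ℝ := lam (sB π ξ) (sB π (bv v)) with hlb
  obtain ⟨ε, a', hε, ha0, ha1, hcase⟩ : ∃ ε a' : ℝ, 0 < ε ∧ 0 ≤ a' ∧ a' < 1 ∧ (la + ε ≤ a' ∨ lb + ε ≤ a') := by
    rcases hlam with hl | hl
    · refine ⟨(1 - la) / 2, max (la + (1 - la) / 2) 0, by linarith, le_max_right _ _, ?_,
        Or.inl (le_max_left _ _)⟩
      rw [max_lt_iff]
      constructor <;> linarith
    · refine ⟨(1 - lb) / 2, max (lb + (1 - lb) / 2) 0, by linarith, le_max_right _ _, ?_,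
        Or.inr (le_max_left _ _)⟩
      rw [max_lt_iff]
      constructor <;> linarith
  have hc2 : 0 ≤ c2 := by linarith
  obtain ⟨Cw, hCw, hbw⟩ := hw.bdd
  obtain ⟨C1, T1, hC1, hT1, hb1⟩ := pN hΨ v hc1 hc12 1
  obtain ⟨C2, hC2, hb2⟩ := pT hv hΨ h h1 h2 hc2 hε 1
  set pa : ℝ := max (la + ε) 0 with hpa
  set pb : ℝ := max (lb + ε) 0 with hpb
  have hpa0 : 0 ≤ pa := le_max_right _ _
  have hpb0 : 0 ≤ pb := le_max_right _ _
  set J : ℕ := ⌈((k + 1) * (pa + pb) + 1) / (1 - a')⌉₊ with hJ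
  obtain ⟨C3, hC3, hb3⟩ := fin_off hw hc1 hc12 hΨ h J
  refine ⟨Cw * (C1 + C2) * (c2 - c1) + 4 * C3 * 2 ^ J, max T1 (max 64 (128 / c1)), by
    have : 0 ≤ c2 - c1 := by linarith
    positivity, hT1.trans (le_max_left _ _), fun T hT => ?_⟩
  have hTT1 : T1 ≤ T := (le_max_left _ _).trans hT
  have hTe : Real.exp 1 ≤ T := hT1.trans hTT1
  have hT64 : 64 ≤ T := ((le_max_left _ _).trans (le_max_right _ _)).trans hT
  have hT128 : 128 ≤ c1 * T := by
    have := ((le_max_right _ _).trans (le_max_right _ _)).trans hT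
    rw [div_le_iff₀ hc1] at this
    linarith
  have hT1' : 1 ≤ T := by linarith
  have hT0 : 0 < T := by linarith
  have hL : 1 ≤ Real.log T := by rwa [Real.le_log_iff_exp_le hT0]
  have hle : c1 * T ≤ c2 * T := by gcongr
  have hca : 0 ≤ c1 * T := by positivity
  obtain ⟨F, hF⟩ : ∃ F, F = Finset.range ⌈T ^ (la + ε)⌉₊ ×ˢ Finset.range ⌈T ^ (lb + ε)⌉₊ := ⟨_, rfl⟩
  obtain ⟨g, hg⟩ : ∃ g : ℕ × ℕ → ℝ → ℂ, g = fun x t => w (t / T) *
    og (Om (sA π Ψ) (sA π (bv v)) (Real.log T) t) (Om (sB π Ψ) (sB π (bv v)) (Real.log T) (-t)) x := ⟨_, rfl⟩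
  set R : ℝ := T ^ a' with hR
  have hR1 : 1 ≤ R := Real.one_le_rpow hT1' ha0
  have hx : ∀ x ∈ F, (x.1 : ℝ) ≤ T ^ pa ∧ (x.2 : ℝ) ≤ T ^ pb ∧ ((x.1 : ℝ) ≤ R ∨ (x.2 : ℝ) ≤ R) := by
    intro x hx
    rw [hF, Finset.mem_product, Finset.mem_range, Finset.mem_range, Nat.lt_ceil, Nat.lt_ceil] at hx
    refine ⟨hx.1.le.trans (Real.rpow_le_rpow_of_exponent_le hT1' (le_max_left _ _)),
      hx.2.le.trans (Real.rpow_le_rpow_of_exponent_le hT1' (le_max_left _ _)), ?_⟩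
    rcases hcase with hc | hc
    · exact Or.inl (hx.1.le.trans (Real.rpow_le_rpow_of_exponent_le hT1' hc))
    · exact Or.inr (hx.2.le.trans (Real.rpow_le_rpow_of_exponent_le hT1' hc))
  have hgi : ∀ x ∈ F, IntervalIntegrable (g x) volume (c1 * T) (c2 * T) := fun x hxF => by
    rw [hg]
    exact (hb3 (Real.log T) T R x hL hT64 hT128 (by linarith) (hx x hxF).2.2).1
  have hgb : ∀ x ∈ F, ‖∫ t in (c1 * T)..(c2 * T), g x t‖ ≤
      ((x.1 : ℝ) ^ k * (x.2 : ℝ) ^ k) * (C3 * T * (1 / (T * (1 / (R + 1)))) ^ J) := fun x hxF => by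
    rw [hg]
    exact (hb3 (Real.log T) T R x hL hT64 hT128 (by linarith) (hx x hxF).2.2).2
  have hgs : IntervalIntegrable (fun t => ∑ x ∈ F, g x t) volume (c1 * T) (c2 * T) := by
    have := IntervalIntegrable.sum F hgi
    refine this.congr (fun t _ => ?_)
    simp
  have hJi := Jp_tint hw hv hΨ h1 h2 hL T hca hle π
  have hNi := N1_tint hw hΨ v hL T hca hle
  have hWi : IntervalIntegrable (fun t => w (t / T) * ((∏ i, N1 (Ψ i) (bv v i) (Real.log T) (sv v i * t)) -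
        Jp Ψ v c0 (Real.log T) π t)) volume (c1 * T) (c2 * T) := by
    refine (hNi.sub hJi).congr (fun t _ => ?_)
    ring
  have e1 : ∫ t in (c1 * T)..(c2 * T), w (t / T) * ((∏ i, N1 (Ψ i) (bv v i) (Real.log T) (sv v i * t)) -
        Jp Ψ v c0 (Real.log T) π t) =
      (∫ t in (c1 * T)..(c2 * T), (w (t / T) * ((∏ i, N1 (Ψ i) (bv v i) (Real.log T) (sv v i * t)) -
        Jp Ψ v c0 (Real.log T) π t) - ∑ x ∈ F, g x t)) + ∑ x ∈ F, ∫ t in (c1 * T)..(c2 * T), g x t := by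
    rw [intervalIntegral.integral_sub hWi hgs, intervalIntegral.integral_finsetSum hgi]
    ring
  rw [e1]
  refine (norm_add_le _ _).trans (add_le_add ?_ ?_)
  · have hpt : ∀ t ∈ Set.uIoc (c1 * T) (c2 * T), ‖w (t / T) * ((∏ i, N1 (Ψ i) (bv v i) (Real.log T)
        (sv v i * t)) - Jp Ψ v c0 (Real.log T) π t) - ∑ x ∈ F, g x t‖ ≤ Cw * ((C1 + C2) / T) := by
      intro t ht
      rw [Set.uIoc_of_le hle] at ht
      have ht0 : 0 ≤ t := hca.trans ht.1.le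
      have q1 := hb1 T t hTT1 ht.1.le ht.2
      have q2 := hb2 T t hTe ht0 ht.2
      rw [pow_one] at q1 q2
      have e2 : w (t / T) * ((∏ i, N1 (Ψ i) (bv v i) (Real.log T) (sv v i * t)) -
          Jp Ψ v c0 (Real.log T) π t) - ∑ x ∈ F, g x t =
          w (t / T) * ((∏ i, N1 (Ψ i) (bv v i) (Real.log T) (sv v i * t) -
            ∏ i, N2 (Ψ i) (bv v i) (1 / 8) (Real.log T) (sv v i * t)) +
          (∏ i, N2 (Ψ i) (bv v i) (1 / 8) (Real.log T) (sv v i * t) - Jp Ψ v c0 (Real.log T) π t -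
            ∑ x ∈ F, og (Om (sA π Ψ) (sA π (bv v)) (Real.log T) t)
              (Om (sB π Ψ) (sB π (bv v)) (Real.log T) (-t)) x)) := by
        rw [hg]
        simp only
        rw [← Finset.mul_sum]
        ring
      rw [e2, norm_mul]
      rw [← hF] at q2
      have q3 := hbw (t / T)
      have q4 := (norm_add_le (∏ i, N1 (Ψ i) (bv v i) (Real.log T) (sv v i * t) -
            ∏ i, N2 (Ψ i) (bv v i) (1 / 8) (Real.log T) (sv v i * t))
          (∏ i, N2 (Ψ i) (bv v i) (1 / 8) (Real.log T) (sv v i * t) - Jp Ψ v c0 (Real.log T) π t -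
            ∑ x ∈ F, og (Om (sA π Ψ) (sA π (bv v)) (Real.log T) t)
              (Om (sB π Ψ) (sB π (bv v)) (Real.log T) (-t)) x)).trans (add_le_add q1 q2)
      rw [← add_div] at q4
      gcongr
    refine (intervalIntegral.norm_integral_le_of_norm_le_const hpt).trans (le_of_eq ?_)
    rw [abs_of_nonneg (by linarith)]
    field_simp
  · obtain ⟨X, hX⟩ : ∃ X : ℝ, X = T ^ pa * T ^ pb := ⟨_, rfl⟩
    have hX0 : 0 ≤ X := by rw [hX]; positivity
    have hXe : X = T ^ (pa + pb) := by rw [hX, Real.rpow_add hT0]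
    have hq : (1 / (T * (1 / (R + 1)))) ≤ 2 * T ^ (-(1 - a')) := by
      have : 1 / (T * (1 / (R + 1))) = (R + 1) / T := by field_simp
      rw [this, div_le_iff₀ hT0]
      have e3 : T ^ (-(1 - a')) * T = R := by
        rw [hR]
        nth_rewrite 2 [← Real.rpow_one T]
        rw [← Real.rpow_add hT0]
        congr 1; ring
      rw [mul_assoc, e3]
      linarith
    have hRp : 0 < R + 1 := by linarith
    have hterm : ∀ x ∈ F, ‖∫ t in (c1 * T)..(c2 * T), g x t‖ ≤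
        X ^ k * (C3 * T * (2 * T ^ (-(1 - a'))) ^ J) := by
      intro x hxF
      refine (hgb x hxF).trans ?_
      have q1 := (hx x hxF).1
      have q2 := (hx x hxF).2.1
      have q3 : (x.1 : ℝ) ^ k * (x.2 : ℝ) ^ k ≤ X ^ k := by
        rw [← mul_pow, hX]
        gcongr
      have q4 : 0 ≤ 1 / (T * (1 / (R + 1))) := by positivity
      gcongr
    refine (norm_sum_le_of_le _ hterm).trans ?_
    rw [Finset.sum_const, nsmul_eq_mul]
    have hcard : (F.card : ℝ) ≤ 4 * X := by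
      rw [hF, Finset.card_product, Finset.card_range, Finset.card_range]
      push_cast
      have g1 : ∀ q : ℝ, ((⌈T ^ (q + ε)⌉₊ : ℕ) : ℝ) ≤ 2 * T ^ (max (q + ε) 0) := by
        intro q
        have h3 := (Nat.ceil_lt_add_one (by positivity : 0 ≤ T ^ (q + ε))).le
        have h4 : T ^ (q + ε) ≤ T ^ (max (q + ε) 0) :=
          Real.rpow_le_rpow_of_exponent_le hT1' (le_max_left _ _)
        have h5 : 1 ≤ T ^ (max (q + ε) 0) := Real.one_le_rpow hT1' (le_max_right _ _)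
        linarith
      have g2 := g1 la
      have g3 := g1 lb
      calc _ ≤ (2 * T ^ pa) * (2 * T ^ pb) := by gcongr
        _ = _ := by rw [hX]; ring
    have hexp : X * X ^ k * T * (T ^ (-(1 - a'))) ^ J ≤ 1 := by
      have e4 : X * X ^ k * T * (T ^ (-(1 - a'))) ^ J =
          T ^ ((pa + pb) * (k + 1) + 1 + -(1 - a') * J) := by
        rw [hXe, ← pow_succ', ← Real.rpow_natCast (T ^ (pa + pb)), ← Real.rpow_mul hT0.le,
          ← Real.rpow_natCast (T ^ (-(1 - a'))), ← Real.rpow_mul hT0.le, Real.rpow_add hT0,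
          Real.rpow_add hT0, Real.rpow_one]
        push_cast; ring
      rw [e4]
      refine Real.rpow_le_one_of_one_le_of_nonpos hT1' ?_
      have h6 : 0 < 1 - a' := by linarith
      have h7 : ((k + 1) * (pa + pb) + 1) / (1 - a') ≤ J := Nat.le_ceil _
      rw [div_le_iff₀ h6] at h7
      nlinarith
    calc (F.card : ℝ) * (X ^ k * (C3 * T * (2 * T ^ (-(1 - a'))) ^ J)) ≤
        (4 * X) * (X ^ k * (C3 * T * (2 * T ^ (-(1 - a'))) ^ J)) := by gcongr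
      _ = 4 * C3 * 2 ^ J * (X * X ^ k * T * (T ^ (-(1 - a'))) ^ J) := by rw [mul_pow]; ring
      _ ≤ 4 * C3 * 2 ^ J * 1 := by gcongr
      _ = _ := by ring

end

end Pool.Agent.TH612.MD
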