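import Pool.Agent.TH612.MD.D

set_option autoImplicit false

/-! Joint integrability. -/

namespace Pool.Agent.TH612.MD

open Complex Filter Topology MeasureTheory Set
open scoped ContDiff ComplexConjugate
open Pool.Agent.W182.KO hiding ee SS_summable
open Pool.Agent.TH612.CF

noncomputable section

variable {k : ℕ} {v : Fin k ⊕ Fin k → ℝ} {μ : ℝ} {ξ : Fin k ⊕ Fin k → ℝ} {Ψ : Fin k ⊕ Fin k → ℝ → ℂ}
  {c1 c2 : ℝ} {w : ℝ → ℂ}

/-- the integrand of the product of the zeta factors -/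
def GZ (w : ℝ → ℂ) (Ψ : Fin k ⊕ Fin k → ℝ → ℂ) (v : Fin k ⊕ Fin k → ℝ) (L T t : ℝ)
    (y : Fin k ⊕ Fin k → ℝ) : ℂ :=
  w (t / T) * ∏ i, (P (Ψ i) (L * (((sv v i * y i : ℝ) : ℂ) * I)) *
    Ff (bv v i) (1 / 2 + ((sv v i * y i + sv v i * t : ℝ) : ℂ) * I))

lemma GZ_integral (w : ℝ → ℂ) (Ψ : Fin k ⊕ Fin k → ℝ → ℂ) (v : Fin k ⊕ Fin k → ℝ) (L T t : ℝ) :
    ∫ y, GZ w Ψ v L T t y = w (t / T) * ∏ i, N1 (Ψ i) (bv v i) L (sv v i * t) := by
  unfold GZ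
  rw [integral_const_mul, integral_fintype_prod_volume_eq_prod
    (f := fun (i : Fin k ⊕ Fin k) (y : ℝ) => P (Ψ i) (L * (((sv v i * y : ℝ) : ℂ) * I)) *
      Ff (bv v i) (1 / 2 + ((sv v i * y + sv v i * t : ℝ) : ℂ) * I))]
  congr 1
  refine Finset.prod_congr rfl fun i _ => ?_
  rw [sgn_int (f := fun y : ℝ => P (Ψ i) (L * ((y : ℂ) * I)) *
      Ff (bv v i) (1 / 2 + ((y + sv v i * t : ℝ) : ℂ) * I)) (sv_pm v i)]
  rfl

lemma Ff_line (b : Bool) : ∃ (C : ℝ) (M : ℕ), 0 ≤ C ∧ Continuous (fun u : ℝ => Ff b (1 / 2 + u * I)) ∧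
    ∀ u : ℝ, ‖Ff b (1 / 2 + u * I)‖ ≤ C * (1 + |u|) ^ M := by
  obtain ⟨M, R, C, h⟩ := Ff_DQ b (κ := 1) one_pos
  exact ⟨C, M, h.hC, h.line, h.bdl⟩

/-- joint integrability for the product of the zeta factors -/
theorem GZ_int (hw : WT c1 c2 w) (hΨ : ∀ i, TF (ξ i) (Ψ i)) (v : Fin k ⊕ Fin k → ℝ)
    {L : ℝ} (hL : 1 ≤ L) (T a b : ℝ) (ha : 0 ≤ a) :
    Integrable (fun p : ℝ × (Fin k ⊕ Fin k → ℝ) => GZ w Ψ v L T p.1 p.2)
      ((volume.restrict (Ioc a b)).prod volume) := by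
  obtain ⟨Cw, hCw, hbw⟩ := hw.bdd
  have hF := fun i => Ff_line (bv v i)
  choose C M hC hc hb using hF
  have hP := fun i => P_dec (hΨ i) (2 + M i)
  choose CP hCP hPb using hP
  refine prodintC (B := Cw * ∏ i, (CP i * (C i * (1 + |b|) ^ M i))) ?_ (Eventually.of_forall fun y t ht => ?_)
  · refine Continuous.continuousOn ?_
    unfold GZ
    have h0 : Continuous fun p : ℝ × (Fin k ⊕ Fin k → ℝ) => p.1 / T := by fun_prop
    refine Continuous.mul (hw.cont.comp h0) (continuous_finsetProd _ fun i _ => Continuous.mul ?_ ?_)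
    · have h1 : Continuous fun p : ℝ × (Fin k ⊕ Fin k → ℝ) => (L:ℂ) * (((sv v i * p.2 i : ℝ) : ℂ) * I) := by
        have : Continuous fun p : ℝ × (Fin k ⊕ Fin k → ℝ) => p.2 i := (continuous_apply i).comp continuous_snd
        fun_prop
      exact (P_diff (hΨ i)).continuous.comp h1
    · have h1 : Continuous fun p : ℝ × (Fin k ⊕ Fin k → ℝ) => sv v i * p.2 i + sv v i * p.1 := by
        have : Continuous fun p : ℝ × (Fin k ⊕ Fin k → ℝ) => p.2 i := (continuous_apply i).comp continuous_snd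
        fun_prop
      exact (hc i).comp h1
  · unfold GZ JI
    rw [norm_mul, norm_prod, mul_assoc, ← Finset.prod_mul_distrib]
    have ht0 : 0 ≤ t := ha.trans ht.1.le
    have h1 : ∏ i, ‖P (Ψ i) (L * (((sv v i * y i : ℝ) : ℂ) * I)) *
        Ff (bv v i) (1 / 2 + ((sv v i * y i + sv v i * t : ℝ) : ℂ) * I)‖ ≤
        ∏ i, (CP i * (C i * (1 + |b|) ^ M i) * ((1 + |y i|) ^ 2)⁻¹) := by
      refine Finset.prod_le_prod (fun _ _ => norm_nonneg _) fun i _ => ?_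
      have g1 := hPb i L 0 (sv v i * y i) hL le_rfl
      rw [mul_zero, mul_zero, Real.exp_zero, mul_one, ofReal_zero, zero_add] at g1
      have e2 : ∀ x : ℝ, |sv v i * x| = |x| := fun x => by
        rw [abs_mul]
        rcases sv_pm v i with h | h <;> rw [h] <;> simp
      rw [e2] at g1
      have g2 := hb i (sv v i * y i + sv v i * t)
      have g3 : 1 + |sv v i * y i + sv v i * t| ≤ (1 + |y i|) * (1 + |b|) := by
        refine (abs_peetre _ _).trans ?_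
        rw [e2, e2]
        have : |t| ≤ |b| := by
          rw [abs_of_nonneg ht0]
          exact ht.2.trans (le_abs_self b)
        gcongr
      have hy : 0 < 1 + |y i| := by positivity
      rw [norm_mul]
      calc _ ≤ (CP i / (1 + |y i|) ^ (2 + M i)) * (C i * ((1 + |y i|) * (1 + |b|)) ^ M i) := by
            have := hC i
            have := hCP i
            have := g2.trans (by gcongr : C i * (1 + |sv v i * y i + sv v i * t|) ^ M i ≤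
              C i * ((1 + |y i|) * (1 + |b|)) ^ M i)
            gcongr
        _ = _ := by
            rw [pow_add, mul_pow]
            field_simp
    have := hbw (t / T)
    gcongr

/-- the average of a swap term on the shifted line -/
def Jp (Ψ : Fin k ⊕ Fin k → ℝ → ℂ) (v : Fin k ⊕ Fin k → ℝ) (c0 L : ℝ) (π : Equiv.Perm (Fin k ⊕ Fin k))
    (t : ℝ) : ℂ :=
  ∫ y : Fin k ⊕ Fin k → ℝ, phi Ψ (sv v) v L y ((1 / 2 + c0 : ℝ) : ℂ) *
    Rt t (LR y v ((1 / 2 + c0 : ℝ) : ℂ)) π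

lemma Jp_bd (hv : VV v μ) (hΨ : ∀ i, TF (ξ i) (Ψ i)) {c0 : ℝ} (h1 : 0 < c0) (h2 : c0 < 1 / 4) :
    ∃ C : ℝ, 0 ≤ C ∧ ∀ (π : Equiv.Perm (Fin k ⊕ Fin k)) (L t : ℝ) (y : Fin k ⊕ Fin k → ℝ), 1 ≤ L →
      0 ≤ t → ‖phi Ψ (sv v) v L y ((1 / 2 + c0 : ℝ) : ℂ) *
        Rt t (LR y v ((1 / 2 + c0 : ℝ) : ℂ)) π‖ ≤
      C * (Real.exp (L * c0 * ∑ i, ξ i * |v i|) * (1 + t) ^ (ee v π * c0)) * JI y := by
  have hμ := hv.pos
  obtain ⟨K, B, hK, hR⟩ := Rt_bdv hv h2 (δ := μ * c0) (by positivity)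
  obtain ⟨C, hC, hphi⟩ := phi_bd hΨ (sv_pm v) v B
  have hK0 : 0 ≤ K := by linarith
  refine ⟨C * K, by positivity, fun π L t y hL ht => ?_⟩
  have hre0 : (((1 / 2 + c0 : ℝ) : ℂ)).re - 1 / 2 = c0 := by rw [Complex.ofReal_re]; ring
  have g1 := hphi L c0 y hL h1.le
  have g2 := hR π y ((1 / 2 + c0 : ℝ) : ℂ) t (by rw [hre0, abs_of_pos h1]) ht (fun j l => by
    have := sep_linev hv y ((1 / 2 + c0 : ℝ) : ℂ) (inl_ne_inr π j l)
    rwa [hre0, abs_of_pos h1] at this)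
  rw [hre0, Complex.ofReal_im, abs_zero, add_zero, mul_one] at g2
  have hn := ny_one y
  have hY := YY_one y
  have g4 : ny y ^ B ≤ YY y ^ B := by
    have := ny_le_YY y
    gcongr
  have hJ := (JI_pos y).le
  have hYp : 0 < YY y ^ B := by positivity
  rw [norm_mul]
  calc _ ≤ (C * Real.exp (L * c0 * ∑ i, ξ i * |v i|) * (JI y * (YY y ^ B)⁻¹)) *
        (K * YY y ^ B * (1 + t) ^ (ee v π * c0)) := by
        have := g2.trans (by gcongr : K * ny y ^ B * (1 + t) ^ (ee v π * c0) ≤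
          K * YY y ^ B * (1 + t) ^ (ee v π * c0))
        gcongr
    _ = _ := by field_simp

lemma Jp_cont (hv : VV v μ) (hΨ : ∀ i, TF (ξ i) (Ψ i)) {c0 : ℝ} (h1 : 0 < c0) (h2 : c0 < 1 / 4) (L : ℝ)
    (π : Equiv.Perm (Fin k ⊕ Fin k)) : Continuous (fun p : ℝ × (Fin k ⊕ Fin k → ℝ) =>
      phi Ψ (sv v) v L p.2 ((1 / 2 + c0 : ℝ) : ℂ) * Rt p.1 (LR p.2 v ((1 / 2 + c0 : ℝ) : ℂ)) π) := by
  obtain ⟨c, hc2, hc⟩ := exists_between h2
  have hc1 : Continuous fun p : ℝ × (Fin k ⊕ Fin k → ℝ) => (p.2, ((1 / 2 + c0 : ℝ) : ℂ)) := by fun_prop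
  refine ((phi_cont hΨ (sv v) v L).comp hc1).mul ?_
  have hc3 : Continuous fun p : ℝ × (Fin k ⊕ Fin k → ℝ) => (p.1, p.2, ((1 / 2 + c0 : ℝ) : ℂ)) := by
    fun_prop
  rw [← continuousOn_univ]
  refine (Rt_jcont v hc π).comp (f := fun p : ℝ × (Fin k ⊕ Fin k → ℝ) =>
    (p.1, p.2, ((1 / 2 + c0 : ℝ) : ℂ))) hc3.continuousOn fun p _ => ?_
  exact mem_Dm hv (by
    rw [Complex.ofReal_re, show (1 / 2 + c0 - 1 / 2 : ℝ) = c0 by ring, abs_of_pos h1]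
    exact hc2) (nSS_re (by rw [Complex.ofReal_re]; linarith))

/-- integrability of one swap term -/
lemma Jp_int (hv : VV v μ) (hΨ : ∀ i, TF (ξ i) (Ψ i)) {c0 : ℝ} (h1 : 0 < c0) (h2 : c0 < 1 / 4) {L t : ℝ}
    (hL : 1 ≤ L) (ht : 0 ≤ t) (π : Equiv.Perm (Fin k ⊕ Fin k)) :
    Integrable (fun y : Fin k ⊕ Fin k → ℝ => phi Ψ (sv v) v L y ((1 / 2 + c0 : ℝ) : ℂ) *
      Rt t (LR y v ((1 / 2 + c0 : ℝ) : ℂ)) π) := by
  obtain ⟨C, hC, hb⟩ := Jp_bd hv hΨ h1 h2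
  have hc := (Jp_cont hv hΨ h1 h2 L π).comp (by fun_prop : Continuous fun y : Fin k ⊕ Fin k → ℝ => (t, y))
  exact decayI_int hc.aestronglyMeasurable (Eventually.of_forall fun y => hb π L t y hL ht)

lemma Jp_norm (hv : VV v μ) (hΨ : ∀ i, TF (ξ i) (Ψ i)) {c0 : ℝ} (h1 : 0 < c0) (h2 : c0 < 1 / 4) :
    ∃ C : ℝ, 0 ≤ C ∧ ∀ (π : Equiv.Perm (Fin k ⊕ Fin k)) (L t : ℝ), 1 ≤ L → 0 ≤ t →
      ‖Jp Ψ v c0 L π t‖ ≤ C * (Real.exp (L * c0 * ∑ i, ξ i * |v i|) * (1 + t) ^ (ee v π * c0)) := by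
  obtain ⟨C, hC, hb⟩ := Jp_bd hv hΨ h1 h2
  have := J2_nonneg
  refine ⟨C * J2 ^ Fintype.card (Fin k ⊕ Fin k), by positivity, fun π L t hL ht => ?_⟩
  refine (decayI (Eventually.of_forall fun y => hb π L t y hL ht)).trans (le_of_eq ?_)
  ring

/-- integrability in `t` -/
lemma Jp_tint (hw : WT c1 c2 w) (hv : VV v μ) (hΨ : ∀ i, TF (ξ i) (Ψ i)) {c0 : ℝ} (h1 : 0 < c0)
    (h2 : c0 < 1 / 4) {L : ℝ} (hL : 1 ≤ L) (T : ℝ) {a b : ℝ} (ha : 0 ≤ a) (hab : a ≤ b)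
    (π : Equiv.Perm (Fin k ⊕ Fin k)) :
    IntervalIntegrable (fun t => w (t / T) * Jp Ψ v c0 L π t) volume a b := by
  obtain ⟨C, hC, hb⟩ := Jp_bd hv hΨ h1 h2
  obtain ⟨Cw, hCw, hbw⟩ := hw.bdd
  rw [intervalIntegrable_iff_integrableOn_Ioc_of_le hab]
  have hcw : Continuous fun p : ℝ × (Fin k ⊕ Fin k → ℝ) => w (p.1 / T) := hw.cont.comp (by fun_prop)
  have hi := prodintC (G := fun (t : ℝ) (y : Fin k ⊕ Fin k → ℝ) => w (t / T) *
    (phi Ψ (sv v) v L y ((1 / 2 + c0 : ℝ) : ℂ) * Rt t (LR y v ((1 / 2 + c0 : ℝ) : ℂ)) π))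
    (a := a) (b := b)
    (B := Cw * (C * (Real.exp (L * c0 * ∑ i, ξ i * |v i|) * (1 + b) ^ (|ee v π| * c0))))
    (hcw.mul (Jp_cont hv hΨ h1 h2 L π)).continuousOn (Eventually.of_forall fun y t ht => by
      have ht0 : 0 ≤ t := ha.trans ht.1.le
      rw [norm_mul]
      have g1 := hb π L t y hL ht0
      have g2 := hbw (t / T)
      have hJ := (JI_pos y).le
      have g3 : (1 + t) ^ (ee v π * c0) ≤ (1 + b) ^ (|ee v π| * c0) := by
        calc _ ≤ (1 + t) ^ (|ee v π| * c0) := by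
              refine Real.rpow_le_rpow_of_exponent_le (by linarith) ?_
              exact mul_le_mul_of_nonneg_right (le_abs_self _) h1.le
          _ ≤ _ := Real.rpow_le_rpow (by linarith) (by linarith [ht.2]) (by positivity)
      calc _ ≤ Cw * (C * (Real.exp (L * c0 * ∑ i, ξ i * |v i|) * (1 + t) ^ (ee v π * c0)) * JI y) := by
            gcongr
        _ ≤ Cw * (C * (Real.exp (L * c0 * ∑ i, ξ i * |v i|) * (1 + b) ^ (|ee v π| * c0)) * JI y) := by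
            gcongr
        _ = _ := by ring)
  refine (hi.integral_prod_left).congr (Eventually.of_forall fun t => ?_)
  simp only
  rw [integral_const_mul]
  rfl

lemma N1_tint (hw : WT c1 c2 w) (hΨ : ∀ i, TF (ξ i) (Ψ i)) (v : Fin k ⊕ Fin k → ℝ)
    {L : ℝ} (hL : 1 ≤ L) (T : ℝ) {a b : ℝ} (ha : 0 ≤ a) (hab : a ≤ b) :
    IntervalIntegrable (fun t => w (t / T) * ∏ i, N1 (Ψ i) (bv v i) L (sv v i * t)) volume a b := by
  rw [intervalIntegrable_iff_integrableOn_Ioc_of_le hab]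
  refine (GZ_int hw hΨ v hL T a b ha).integral_prod_left.congr (Eventually.of_forall fun t => ?_)
  simp only
  rw [GZ_integral]

end

end Pool.Agent.TH612.MD
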