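import Pool.Agent.TH612.MD.H

set_option autoImplicit false

/-! The main swap terms as a diagonal sum. -/

namespace Pool.Agent.TH612.MD

open Complex Filter Topology MeasureTheory Set
open scoped ContDiff ComplexConjugate
open Pool.Agent.W182.KO hiding ee SS_summable
open Pool.Agent.TH612.CF

noncomputable section

variable {k : ℕ} {v : Fin k ⊕ Fin k → ℝ} {μ : ℝ}

/-- the sign of a direction -/
def sv (v : Fin k ⊕ Fin k → ℝ) (i : Fin k ⊕ Fin k) : ℝ := if 0 < v i then 1 else -1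

/-- the flipped places -/
def bv (v : Fin k ⊕ Fin k → ℝ) (i : Fin k ⊕ Fin k) : Bool := if 0 < v i then i.isRight else i.isLeft

/-- good permutations for a direction -/
def GV (v : Fin k ⊕ Fin k → ℝ) (π : Equiv.Perm (Fin k ⊕ Fin k)) : Prop :=
  ∀ j, 0 < v (π (Sum.inl j)) ∧ v (π (Sum.inr j)) < 0

lemma sv_pm (v : Fin k ⊕ Fin k → ℝ) (i : Fin k ⊕ Fin k) : sv v i = 1 ∨ sv v i = -1 := by
  unfold sv; split_ifs <;> simp

lemma sv_mul (v : Fin k ⊕ Fin k → ℝ) (i : Fin k ⊕ Fin k) : sv v i * v i = |v i| := by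
  unfold sv
  split_ifs with h
  · rw [abs_of_pos h, one_mul]
  · push Not at h
    rw [abs_of_nonpos h]; ring

lemma sv_inl {π : Equiv.Perm (Fin k ⊕ Fin k)} (h : GV v π) (j : Fin k) : sv v (π (Sum.inl j)) = 1 :=
  if_pos (h j).1

lemma sv_inr {π : Equiv.Perm (Fin k ⊕ Fin k)} (h : GV v π) (j : Fin k) : sv v (π (Sum.inr j)) = -1 :=
  if_neg (by linarith [(h j).2])

lemma bv_inl {π : Equiv.Perm (Fin k ⊕ Fin k)} (h : GV v π) (j : Fin k) :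
    bv v (π (Sum.inl j)) = (π (Sum.inl j)).isRight := if_pos (h j).1

lemma bv_inr {π : Equiv.Perm (Fin k ⊕ Fin k)} (h : GV v π) (j : Fin k) :
    bv v (π (Sum.inr j)) = (π (Sum.inr j)).isLeft := if_neg (by linarith [(h j).2])

/-- the argument attached to one place -/
def ss (v : Fin k ⊕ Fin k → ℝ) (c0 : ℝ) (y : Fin k ⊕ Fin k → ℝ) (i : Fin k ⊕ Fin k) : ℂ :=
  ((|v i| * c0 : ℝ) : ℂ) + ((sv v i * y i : ℝ) : ℂ) * I

lemma phi_ss (Ψ : Fin k ⊕ Fin k → ℝ → ℂ) (v : Fin k ⊕ Fin k → ℝ) (L c0 : ℝ) (y : Fin k ⊕ Fin k → ℝ) :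
    phi Ψ (sv v) v L y ((1 / 2 + c0 : ℝ) : ℂ) = ∏ i, P (Ψ i) (L * ss v c0 y i) := by
  unfold phi ss
  refine Finset.prod_congr rfl fun i _ => ?_
  congr 2
  push_cast; ring

lemma LR_ssl {π : Equiv.Perm (Fin k ⊕ Fin k)} (h : GV v π) (c0 : ℝ) (y : Fin k ⊕ Fin k → ℝ) (j : Fin k) :
    I * LR y v ((1 / 2 + c0 : ℝ) : ℂ) (π (Sum.inl j)) = ss v c0 y (π (Sum.inl j)) := by
  unfold ss
  rw [LR_apply, sv_inl h, abs_of_pos (h j).1]
  push_cast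
  linear_combination (-(v (π (Sum.inl j)) * c0 : ℂ)) * I_sq

lemma LR_ssr {π : Equiv.Perm (Fin k ⊕ Fin k)} (h : GV v π) (c0 : ℝ) (y : Fin k ⊕ Fin k → ℝ) (j : Fin k) :
    I * LR y v ((1 / 2 + c0 : ℝ) : ℂ) (π (Sum.inr j)) = -ss v c0 y (π (Sum.inr j)) := by
  unfold ss
  rw [LR_apply, sv_inr h, abs_of_neg (h j).2]
  push_cast
  linear_combination (-(v (π (Sum.inr j)) * c0 : ℂ)) * I_sq

lemma ss_re (v : Fin k ⊕ Fin k → ℝ) (c0 : ℝ) (y : Fin k ⊕ Fin k → ℝ) (i : Fin k ⊕ Fin k) :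
    (ss v c0 y i).re = |v i| * c0 := by
  unfold ss; simp

lemma GG_ss (hv : VV v μ) {π : Equiv.Perm (Fin k ⊕ Fin k)} (h : GV v π) {c0 : ℝ} (h1 : 0 < c0)
    (h2 : c0 < 1 / 4) (t : ℝ) (y : Fin k ⊕ Fin k → ℝ) :
    GG t (LR y v ((1 / 2 + c0 : ℝ) : ℂ)) π =
      (∏ j : Fin k, Xf (bv v (π (Sum.inl j))) (1 / 2 + ss v c0 y (π (Sum.inl j)) + ((1 * t : ℝ) : ℂ) * I)) *
      ∏ j : Fin k, Xf (bv v (π (Sum.inr j))) (1 / 2 + ss v c0 y (π (Sum.inr j)) + ((-1 * t : ℝ) : ℂ) * I) := by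
  have hre : ∀ i, 0 ≤ |v i| * c0 ∧ |v i| * c0 < 1 / 4 := fun i => by
    have := hv.le i
    have := abs_nonneg (v i)
    constructor <;> nlinarith
  unfold GG
  congr 1
  · refine Finset.prod_congr rfl fun j _ => ?_
    rw [bv_inl h]
    unfold Xf
    split_ifs
    · rw [← chi_XX]
      · congr 1
        rw [LR_ssl h]
        push_cast; ring
      · simp [ss_re]
        have := hre (π (Sum.inl j))
        linarith
      · simp [ss_re]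
        have := hre (π (Sum.inl j))
        linarith
    · rfl
  · refine Finset.prod_congr rfl fun j _ => ?_
    rw [bv_inr h]
    unfold Xf
    split_ifs
    · rw [← chi_XX]
      · congr 1
        rw [LR_ssr h]
        push_cast; ring
      · simp [ss_re]
        have := hre (π (Sum.inr j))
        linarith
      · simp [ss_re]
        have := hre (π (Sum.inr j))
        linarith
    · rfl

lemma prod_pow_z {n : ℕ} {d : Fin k → ℕ} (hd : d ∈ Nat.finMulAntidiag k n) (z : ℂ) :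
    ∏ j, (d j : ℂ) ^ z = (n : ℂ) ^ z := by
  have h3 : ∀ s : Finset (Fin k), ∏ j ∈ s, (d j : ℂ) ^ z = ((∏ j ∈ s, d j : ℕ) : ℂ) ^ z := by
    intro s
    classical
    induction s using Finset.induction_on with
    | empty => simp
    | insert i s hi ih =>
      rw [Finset.prod_insert hi, Finset.prod_insert hi, ih, Nat.cast_mul,
        Complex.natCast_mul_natCast_cpow]
  rw [h3, Nat.prod_eq_of_mem_finMulAntidiag hd]

/-- the integers attached to the places -/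
def NN (π : Equiv.Perm (Fin k ⊕ Fin k)) (d d' : Fin k → ℕ) (i : Fin k ⊕ Fin k) : ℕ :=
  Sum.elim d d' (π.symm i)

lemma NN_inl (π : Equiv.Perm (Fin k ⊕ Fin k)) (d d' : Fin k → ℕ) (j : Fin k) :
    NN π d d' (π (Sum.inl j)) = d j := by unfold NN; simp

lemma NN_inr (π : Equiv.Perm (Fin k ⊕ Fin k)) (d d' : Fin k → ℕ) (j : Fin k) :
    NN π d d' (π (Sum.inr j)) = d' j := by unfold NN; simp

lemma prod_pi (π : Equiv.Perm (Fin k ⊕ Fin k)) (f : Fin k ⊕ Fin k → ℂ) :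
    ∏ i, f i = (∏ j, f (π (Sum.inl j))) * ∏ j, f (π (Sum.inr j)) := by
  rw [← Equiv.prod_comp π f, Fintype.prod_sum_type]

/-- the terms of the main swap -/
lemma term_eq (hv : VV v μ) {π : Equiv.Perm (Fin k ⊕ Fin k)} (h : GV v π) {c0 : ℝ} (h1 : 0 < c0)
    (h2 : c0 < 1 / 4) (Ψ : Fin k ⊕ Fin k → ℝ → ℂ) (L t : ℝ) (y : Fin k ⊕ Fin k → ℝ) {n : ℕ}
    (hn : 1 ≤ n) :
    phi Ψ (sv v) v L y ((1 / 2 + c0 : ℝ) : ℂ) * (GG t (LR y v ((1 / 2 + c0 : ℝ) : ℂ)) π *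
      dg (fun j => LR y v ((1 / 2 + c0 : ℝ) : ℂ) (π (Sum.inl j)))
        (fun j => LR y v ((1 / 2 + c0 : ℝ) : ℂ) (π (Sum.inr j))) n) =
      ∑ d ∈ Nat.finMulAntidiag k n, ∑ d' ∈ Nat.finMulAntidiag k n,
        ∏ i, w1 (Ψ i) (bv v i) L (NN π d d' i) (sv v i * t) (ss v c0 y i) := by
  have hn0 : (n : ℂ) ≠ 0 := by exact_mod_cast (by omega : n ≠ 0)
  rw [GG_ss hv h h1 h2, phi_ss, prod_pi π (fun i => P (Ψ i) (L * ss v c0 y i))]
  unfold dg tau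
  simp only [LR_ssl h, LR_ssr h]
  have e1 : ∀ d ∈ Nat.finMulAntidiag k n, ∏ j, (d j : ℂ) ^ (-(ss v c0 y (π (Sum.inl j)))) =
      (∏ j, (d j : ℂ) ^ (-(1 / 2 + ss v c0 y (π (Sum.inl j)) + ((1 * t : ℝ) : ℂ) * I))) *
        (n : ℂ) ^ (1 / 2 + ((1 * t : ℝ) : ℂ) * I) := by
    intro d hd
    rw [← prod_pow_z hd, ← Finset.prod_mul_distrib]
    refine Finset.prod_congr rfl fun j _ => ?_
    have h0 : (d j : ℂ) ≠ 0 := by exact_mod_cast Nat.ne_zero_of_mem_finMulAntidiag hd j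
    rw [← Complex.cpow_add _ _ h0]
    congr 1; ring
  have e2 : ∀ d ∈ Nat.finMulAntidiag k n, ∏ j, (d j : ℂ) ^ (-(ss v c0 y (π (Sum.inr j)))) =
      (∏ j, (d j : ℂ) ^ (-(1 / 2 + ss v c0 y (π (Sum.inr j)) + ((-1 * t : ℝ) : ℂ) * I))) *
        (n : ℂ) ^ (1 / 2 + ((-1 * t : ℝ) : ℂ) * I) := by
    intro d hd
    rw [← prod_pow_z hd, ← Finset.prod_mul_distrib]
    refine Finset.prod_congr rfl fun j _ => ?_
    have h0 : (d j : ℂ) ≠ 0 := by exact_mod_cast Nat.ne_zero_of_mem_finMulAntidiag hd j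
    rw [← Complex.cpow_add _ _ h0]
    congr 1; ring
  have e3 : (n : ℂ) ^ (1 / 2 + ((1 * t : ℝ) : ℂ) * I) * (n : ℂ) ^ (1 / 2 + ((-1 * t : ℝ) : ℂ) * I) *
      (n : ℂ)⁻¹ = 1 := by
    rw [← Complex.cpow_add _ _ hn0]
    have : (1 / 2 + ((1 * t : ℝ) : ℂ) * I + (1 / 2 + ((-1 * t : ℝ) : ℂ) * I)) = 1 := by
      push_cast; ring
    rw [this, Complex.cpow_one, mul_inv_cancel₀ hn0]
  rw [Finset.sum_congr rfl e1, Finset.sum_congr rfl e2, ← Finset.sum_mul, ← Finset.sum_mul]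
  have e4 : ∀ d ∈ Nat.finMulAntidiag k n, ∀ d' ∈ Nat.finMulAntidiag k n,
      ∏ i, w1 (Ψ i) (bv v i) L (NN π d d' i) (sv v i * t) (ss v c0 y i) =
      (((∏ j, P (Ψ (π (Sum.inl j))) (L * ss v c0 y (π (Sum.inl j)))) *
        ∏ j, P (Ψ (π (Sum.inr j))) (L * ss v c0 y (π (Sum.inr j)))) *
      ((∏ j : Fin k, Xf (bv v (π (Sum.inl j))) (1 / 2 + ss v c0 y (π (Sum.inl j)) + ((1 * t : ℝ) : ℂ) * I)) *
      ∏ j : Fin k, Xf (bv v (π (Sum.inr j))) (1 / 2 + ss v c0 y (π (Sum.inr j)) + ((-1 * t : ℝ) : ℂ) * I))) *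
      ((∏ j, (d j : ℂ) ^ (-(1 / 2 + ss v c0 y (π (Sum.inl j)) + ((1 * t : ℝ) : ℂ) * I))) *
      (∏ j, (d' j : ℂ) ^ (-(1 / 2 + ss v c0 y (π (Sum.inr j)) + ((-1 * t : ℝ) : ℂ) * I)))) := by
    intro d _ d' _
    rw [prod_pi π]
    simp only [NN_inl, NN_inr, sv_inl h, sv_inr h]
    unfold w1
    simp only [Finset.prod_mul_distrib]
    ring
  rw [Finset.sum_congr rfl fun d hd => Finset.sum_congr rfl fun d' hd' => e4 d hd d' hd']
  simp only [← Finset.mul_sum, ← Finset.sum_mul]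
  linear_combination (((∏ j, P (Ψ (π (Sum.inl j))) (L * ss v c0 y (π (Sum.inl j)))) *
        ∏ j, P (Ψ (π (Sum.inr j))) (L * ss v c0 y (π (Sum.inr j)))) *
      ((∏ j : Fin k, Xf (bv v (π (Sum.inl j))) (1 / 2 + ss v c0 y (π (Sum.inl j)) + ((1 * t : ℝ) : ℂ) * I)) *
      ∏ j : Fin k, Xf (bv v (π (Sum.inr j))) (1 / 2 + ss v c0 y (π (Sum.inr j)) + ((-1 * t : ℝ) : ℂ) * I)) *
      (∑ d ∈ Nat.finMulAntidiag k n, (∏ j, (d j : ℂ) ^ (-(1 / 2 + ss v c0 y (π (Sum.inl j)) + ((1 * t : ℝ) : ℂ) * I)))) *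
      (∑ d' ∈ Nat.finMulAntidiag k n, (∏ j, (d' j : ℂ) ^ (-(1 / 2 + ss v c0 y (π (Sum.inr j)) + ((-1 * t : ℝ) : ℂ) * I))))) * e3

end

end Pool.Agent.TH612.MD
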