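import Pool.Agent.TH612.MD.G

set_option autoImplicit false

/-! The average of a main swap term as a diagonal sum. -/

namespace Pool.Agent.TH612.MD

open Complex Filter Topology MeasureTheory Set
open scoped ContDiff ComplexConjugate
open Pool.Agent.W182.KO hiding ee SS_summable
open Pool.Agent.TH612.CF

noncomputable section

variable {k : ℕ} {v : Fin k ⊕ Fin k → ℝ} {μ : ℝ} {ξ : Fin k ⊕ Fin k → ℝ} {Ψ : Fin k ⊕ Fin k → ℝ → ℂ}

/-- convolution of the termwise integrals -/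
def Om (Ψ : Fin k → ℝ → ℂ) (b : Fin k → Bool) (L u : ℝ) (n : ℕ) : ℂ :=
  ∑ d ∈ Nat.finMulAntidiag k n, ∏ j, W1 (Ψ j) (b j) 0 L (d j) u

lemma sgn_int {f : ℝ → ℂ} {σ : ℝ} (hσ : σ = 1 ∨ σ = -1) : ∫ y, f (σ * y) = ∫ y, f y := by
  rcases hσ with rfl | rfl
  · simp
  · simp only [neg_mul, one_mul]
    exact integral_neg_eq_self f volume

lemma sgn_integrable {f : ℝ → ℂ} (hf : Integrable f) {σ : ℝ} (hσ : σ = 1 ∨ σ = -1) :
    Integrable fun y => f (σ * y) := by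
  rcases hσ with rfl | rfl
  · simpa using hf
  · simp only [neg_mul, one_mul]
    exact hf.comp_neg

lemma ad_v (hv : VV v μ) {c0 : ℝ} (h1 : 0 < c0) (h2 : c0 < 1 / 4) (i : Fin k ⊕ Fin k) :
    Ad (|v i| * c0) := by
  have := hv.le i
  have := abs_nonneg (v i)
  left
  constructor <;> nlinarith

lemma int_term (hv : VV v μ) (hΨ : ∀ i, TF (ξ i) (Ψ i)) {c0 : ℝ} (h1 : 0 < c0) (h2 : c0 < 1 / 4)
    {L : ℝ} (hL : 1 ≤ L) (t : ℝ) {N : Fin k ⊕ Fin k → ℕ} (hN : ∀ i, 1 ≤ N i) :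
    Integrable (fun y : Fin k ⊕ Fin k → ℝ =>
      ∏ i, w1 (Ψ i) (bv v i) L (N i) (sv v i * t) (ss v c0 y i)) ∧
    ∫ y : Fin k ⊕ Fin k → ℝ, ∏ i, w1 (Ψ i) (bv v i) L (N i) (sv v i * t) (ss v c0 y i) =
      ∏ i, W1 (Ψ i) (bv v i) 0 L (N i) (sv v i * t) := by
  have hint : ∀ i, Integrable (fun y : ℝ => w1 (Ψ i) (bv v i) L (N i) (sv v i * t)
      (((|v i| * c0 : ℝ) : ℂ) + ((sv v i * y : ℝ) : ℂ) * I)) := fun i =>
    sgn_integrable (f := fun y : ℝ => w1 (Ψ i) (bv v i) L (N i) (sv v i * t)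
      (((|v i| * c0 : ℝ) : ℂ) + (y : ℂ) * I))
      (w1_int (hΨ i) (bv v i) (ad_v hv h1 h2 i) hL (hN i) _) (sv_pm v i)
  constructor
  · exact Integrable.fintype_prod (f := fun (i : Fin k ⊕ Fin k) (y : ℝ) =>
      w1 (Ψ i) (bv v i) L (N i) (sv v i * t) (((|v i| * c0 : ℝ) : ℂ) + ((sv v i * y : ℝ) : ℂ) * I)) hint
  · unfold ss
    rw [integral_fintype_prod_volume_eq_prod (f := fun (i : Fin k ⊕ Fin k) (y : ℝ) =>
      w1 (Ψ i) (bv v i) L (N i) (sv v i * t) (((|v i| * c0 : ℝ) : ℂ) + ((sv v i * y : ℝ) : ℂ) * I))]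
    refine Finset.prod_congr rfl fun i _ => ?_
    rw [sgn_int (f := fun y : ℝ => w1 (Ψ i) (bv v i) L (N i) (sv v i * t)
      (((|v i| * c0 : ℝ) : ℂ) + (y : ℂ) * I)) (sv_pm v i)]
    exact W1_indep (hΨ i) (bv v i) (ad_v hv h1 h2 i).nonneg hL (hN i) _

/-- data of the first side -/
def sA (π : Equiv.Perm (Fin k ⊕ Fin k)) {α : Type*} (f : Fin k ⊕ Fin k → α) : Fin k → α :=
  fun j => f (π (Sum.inl j))

/-- data of the second side -/
def sB (π : Equiv.Perm (Fin k ⊕ Fin k)) {α : Type*} (f : Fin k ⊕ Fin k → α) : Fin k → α :=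
  fun j => f (π (Sum.inr j))

lemma NN_pos (π : Equiv.Perm (Fin k ⊕ Fin k)) {n m : ℕ} {d d' : Fin k → ℕ}
    (hd : d ∈ Nat.finMulAntidiag k n) (hd' : d' ∈ Nat.finMulAntidiag k m) (i : Fin k ⊕ Fin k) :
    1 ≤ NN π d d' i := by
  obtain ⟨i', rfl⟩ := π.surjective i
  rcases i' with j | j
  · rw [NN_inl]
    exact Nat.one_le_iff_ne_zero.2 (Nat.ne_zero_of_mem_finMulAntidiag hd j)
  · rw [NN_inr]
    exact Nat.one_le_iff_ne_zero.2 (Nat.ne_zero_of_mem_finMulAntidiag hd' j)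

lemma prod_W1 {π : Equiv.Perm (Fin k ⊕ Fin k)} (h : GV v π) (Ψ : Fin k ⊕ Fin k → ℝ → ℂ) (L t : ℝ)
    (d d' : Fin k → ℕ) : ∏ i, W1 (Ψ i) (bv v i) 0 L (NN π d d' i) (sv v i * t) =
      (∏ j, W1 (sA π Ψ j) (sA π (bv v) j) 0 L (d j) t) *
        ∏ j, W1 (sB π Ψ j) (sB π (bv v) j) 0 L (d' j) (-t) := by
  rw [prod_pi π]
  simp only [NN_inl, NN_inr, sv_inl h, sv_inr h, one_mul, neg_mul]
  rfl

lemma Om_mul {π : Equiv.Perm (Fin k ⊕ Fin k)} (h : GV v π) (Ψ : Fin k ⊕ Fin k → ℝ → ℂ) (L t : ℝ)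
    (n m : ℕ) : Om (sA π Ψ) (sA π (bv v)) L t n * Om (sB π Ψ) (sB π (bv v)) L (-t) m =
      ∑ d ∈ Nat.finMulAntidiag k n, ∑ d' ∈ Nat.finMulAntidiag k m,
        ∏ i, W1 (Ψ i) (bv v i) 0 L (NN π d d' i) (sv v i * t) := by
  unfold Om
  rw [Finset.sum_mul_sum]
  refine Finset.sum_congr rfl fun d _ => Finset.sum_congr rfl fun d' _ => ?_
  rw [prod_W1 h]

theorem int_dg (hv : VV v μ) (hΨ : ∀ i, TF (ξ i) (Ψ i)) {π : Equiv.Perm (Fin k ⊕ Fin k)} (h : GV v π)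
    {c0 : ℝ} (h1 : 0 < c0) (h2 : c0 < 1 / 4) {L : ℝ} (hL : 1 ≤ L) (t : ℝ) (n : ℕ) :
    Integrable (fun y : Fin k ⊕ Fin k → ℝ => phi Ψ (sv v) v L y ((1 / 2 + c0 : ℝ) : ℂ) *
      (GG t (LR y v ((1 / 2 + c0 : ℝ) : ℂ)) π *
      dg (fun j => LR y v ((1 / 2 + c0 : ℝ) : ℂ) (π (Sum.inl j)))
        (fun j => LR y v ((1 / 2 + c0 : ℝ) : ℂ) (π (Sum.inr j))) n)) ∧
    ∫ y : Fin k ⊕ Fin k → ℝ, phi Ψ (sv v) v L y ((1 / 2 + c0 : ℝ) : ℂ) *
      (GG t (LR y v ((1 / 2 + c0 : ℝ) : ℂ)) π *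
      dg (fun j => LR y v ((1 / 2 + c0 : ℝ) : ℂ) (π (Sum.inl j)))
        (fun j => LR y v ((1 / 2 + c0 : ℝ) : ℂ) (π (Sum.inr j))) n) =
      Om (sA π Ψ) (sA π (bv v)) L t n * Om (sB π Ψ) (sB π (bv v)) L (-t) n := by
  rcases Nat.eq_zero_or_pos n with hn | hn
  · subst hn
    simp only [dg_zero, mul_zero]
    refine ⟨integrable_zero _ _ _, ?_⟩
    rw [integral_zero]
    rcases Nat.eq_zero_or_pos k with hk | hk
    · subst hk
      unfold Om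
      simp
    · unfold Om
      simp
  · have e := fun y : Fin k ⊕ Fin k → ℝ => term_eq hv h h1 h2 Ψ L t y hn
    simp only [e]
    have hi : ∀ d ∈ Nat.finMulAntidiag k n, ∀ d' ∈ Nat.finMulAntidiag k n,
        Integrable (fun y : Fin k ⊕ Fin k → ℝ =>
          ∏ i, w1 (Ψ i) (bv v i) L (NN π d d' i) (sv v i * t) (ss v c0 y i)) := fun d hd d' hd' =>
      (int_term hv hΨ h1 h2 hL t (NN_pos π hd hd')).1
    refine ⟨integrable_finsetSum _ fun d hd => integrable_finsetSum _ fun d' hd' => hi d hd d' hd', ?_⟩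
    rw [integral_finsetSum _ fun d hd => integrable_finsetSum _ fun d' hd' => hi d hd d' hd', Om_mul h]
    refine Finset.sum_congr rfl fun d hd => ?_
    rw [integral_finsetSum _ fun d' hd' => hi d hd d' hd']
    refine Finset.sum_congr rfl fun d' hd' => ?_
    exact (int_term hv hΨ h1 h2 hL t (NN_pos π hd hd')).2

/-- the main swap term -/
theorem good_hasSum (hv : VV v μ) (hΨ : ∀ i, TF (ξ i) (Ψ i)) {π : Equiv.Perm (Fin k ⊕ Fin k)}
    (h : GV v π) {c0 : ℝ} (h1 : 0 < c0) (h2 : c0 < 1 / 4) {L t : ℝ} (hL : 1 ≤ L) (ht : 0 ≤ t) :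
    HasSum (fun n : ℕ => Om (sA π Ψ) (sA π (bv v)) L t n * Om (sB π Ψ) (sB π (bv v)) L (-t) n)
      (∫ y : Fin k ⊕ Fin k → ℝ, phi Ψ (sv v) v L y ((1 / 2 + c0 : ℝ) : ℂ) *
        Rt t (LR y v ((1 / 2 + c0 : ℝ) : ℂ)) π) := by
  obtain ⟨c, hc2, hc⟩ := exists_between h2
  have hμ := hv.pos
  set δ : ℝ := μ * c0 with hδ
  have hδ0 : 0 < δ := by positivity
  obtain ⟨D, hD, hdg⟩ := dg_le k hδ0
  obtain ⟨K, hK, hGG⟩ := GG_bdv hv
  obtain ⟨C, hC, hphi⟩ := phi_bd hΨ (sv_pm v) v (2 * k)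
  have hK0 : 0 ≤ K := by linarith
  -- imaginary parts
  have hre0 : (((1 / 2 + c0 : ℝ) : ℂ)).re - 1 / 2 = c0 := by rw [Complex.ofReal_re]; ring
  have him : ∀ (y : Fin k ⊕ Fin k → ℝ) (j : Fin k),
      (LR y v ((1 / 2 + c0 : ℝ) : ℂ) (π (Sum.inl j))).im ≤ -δ ∧
      δ ≤ (LR y v ((1 / 2 + c0 : ℝ) : ℂ) (π (Sum.inr j))).im := by
    intro y j
    have g1 := hv.low (π (Sum.inl j))
    have g2 := hv.low (π (Sum.inr j))
    rw [abs_of_pos (h j).1] at g1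
    rw [abs_of_neg (h j).2] at g2
    rw [LR_im, LR_im, hre0, hδ]
    constructor <;> nlinarith
  set F : ℕ → (Fin k ⊕ Fin k → ℝ) → ℂ := fun n y => phi Ψ (sv v) v L y ((1 / 2 + c0 : ℝ) : ℂ) *
      (GG t (LR y v ((1 / 2 + c0 : ℝ) : ℂ)) π *
      dg (fun j => LR y v ((1 / 2 + c0 : ℝ) : ℂ) (π (Sum.inl j)))
        (fun j => LR y v ((1 / 2 + c0 : ℝ) : ℂ) (π (Sum.inr j))) n) with hF
  set A : ℝ := C * Real.exp (L * c0 * ∑ i, ξ i * |v i|) * (K * (1 + t) ^ (ee v π * c0)) with hA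
  have h1t : 0 < 1 + t := by linarith
  have hA0 : 0 ≤ A := by positivity
  have hFb : ∀ n y, ‖F n y‖ ≤ A * (D * (n : ℝ) ^ (-(1 + δ))) * JI y := by
    intro n y
    have g1 := hphi L c0 y hL h1.le
    have g2 := hGG π y ((1 / 2 + c0 : ℝ) : ℂ) t (by rw [hre0, abs_of_pos h1]; exact h2.le) ht
    rw [hre0, Complex.ofReal_im, abs_zero, add_zero, mul_one] at g2
    have g3 := hdg _ _ (him y) n
    have hn := ny_one y
    have hY := YY_one y
    have g4 : ny y ^ (2 * k) ≤ YY y ^ (2 * k) := by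
      have := ny_le_YY y
      gcongr
    have hJ := (JI_pos y).le
    have hYp : 0 < YY y ^ (2 * k) := by positivity
    rw [hF]
    simp only
    rw [norm_mul, norm_mul]
    calc _ ≤ (C * Real.exp (L * c0 * ∑ i, ξ i * |v i|) * (JI y * (YY y ^ (2 * k))⁻¹)) *
          ((K * YY y ^ (2 * k) * (1 + t) ^ (ee v π * c0)) * (D * (n : ℝ) ^ (-(1 + δ)))) := by
          have := g2.trans (by gcongr : K * ny y ^ (2 * k) * (1 + t) ^ (ee v π * c0) ≤
            K * YY y ^ (2 * k) * (1 + t) ^ (ee v π * c0))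
          gcongr
      _ = _ := by
          rw [hA]
          field_simp
  have hFi : ∀ n, Integrable (F n) := fun n => (int_dg hv hΨ h h1 h2 hL t n).1
  have hFsum : Summable fun n => ∫ y, ‖F n y‖ := by
    have hs : Summable (fun n : ℕ => A * (D * (n : ℝ) ^ (-(1 + δ))) *
        ∫ y : Fin k ⊕ Fin k → ℝ, JI y) :=
      (((Real.summable_nat_rpow.2 (by linarith)).mul_left D).mul_left A).mul_right _
    refine Summable.of_nonneg_of_le (fun n => integral_nonneg fun _ => norm_nonneg _) (fun n => ?_) hs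
    rw [← integral_const_mul]
    exact integral_mono_of_nonneg (Eventually.of_forall fun _ => norm_nonneg _)
      (JI_int.const_mul _) (Eventually.of_forall fun y => hFb n y)
  have key := hasSum_integral_of_summable_integral_norm hFi hFsum
  have e1 : ∀ n, ∫ y, F n y = Om (sA π Ψ) (sA π (bv v)) L t n * Om (sB π Ψ) (sB π (bv v)) L (-t) n :=
    fun n => (int_dg hv hΨ h h1 h2 hL t n).2
  simp only [e1] at key
  have e2 : (∫ y : Fin k ⊕ Fin k → ℝ, phi Ψ (sv v) v L y ((1 / 2 + c0 : ℝ) : ℂ) *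
        Rt t (LR y v ((1 / 2 + c0 : ℝ) : ℂ)) π) = ∫ y, ∑' n, F n y := by
    congr 1; funext y
    rw [hF]
    simp only
    rw [tsum_mul_left, tsum_mul_left]
    unfold Rt zab
    rw [zh_eq hc (fun j => ?_) hδ0 (him y)]
    constructor
    · exact (LRim_le hv y _ _).trans (by rw [hre0, abs_of_pos h1]; exact hc2.le)
    · exact (LRim_le hv y _ _).trans (by rw [hre0, abs_of_pos h1]; exact hc2.le)
  rw [e2]
  exact key

end

end Pool.Agent.TH612.MD
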