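import Pool.Agent.TH612.MD.Oc

set_option autoImplicit false

/-! The off-diagonal terms. -/

namespace Pool.Agent.TH612.MD

open Complex Filter Topology MeasureTheory Set
open scoped ContDiff ComplexConjugate
open Pool.Agent.W182.KO Pool.Agent.TH612.CF

noncomputable section

lemma w1_joint {ξ1 : ℝ} {Ψ : ℝ → ℂ} (h : TF ξ1 Ψ) (b : Bool) {x : ℝ} (hx : 0 ≤ x) (L : ℝ) {n : ℕ}
    (hn : 1 ≤ n) : Continuous (fun p : ℝ × ℝ => w1 Ψ b L n p.1 (x + p.2 * I)) := by
  have hn0 : (n : ℂ) ≠ 0 := by exact_mod_cast (by omega : n ≠ 0)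
  unfold w1
  have hPc : Continuous (P Ψ) := (P_diff h).continuous
  refine (hPc.comp (by fun_prop)).mul (Continuous.mul ?_ ?_)
  · rw [continuous_iff_continuousAt]
    intro p
    exact ContinuousAt.comp (f := fun p : ℝ × ℝ => (1 / 2 + ((x : ℂ) + p.2 * I) + p.1 * I))
      (Xf_diff b (by simp; linarith)).continuousAt (by fun_prop)
  · exact Continuous.const_cpow (by fun_prop) (Or.inl hn0)

section multi

variable {ι : Type*} [Fintype ι] {c1 c2 : ℝ} {w : ℝ → ℂ}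

/-- the full integrand of one tuple -/
def GT (w : ℝ → ℂ) (Ψ : ι → ℝ → ℂ) (b : ι → Bool) (σ : ι → ℝ) (x : ι → ℝ) (L T : ℝ) (N : ι → ℕ) (t : ℝ)
    (y : ι → ℝ) : ℂ :=
  w (t / T) * ∏ i, w1 (Ψ i) (b i) L (N i) (σ i * t) (x i + y i * I)

lemma GT_joint (hw : Continuous w) {ξ : ι → ℝ} {Ψ : ι → ℝ → ℂ} (h : ∀ i, TF (ξ i) (Ψ i)) (b : ι → Bool)
    (σ : ι → ℝ) {x : ι → ℝ} (hx : ∀ i, 0 ≤ x i) (L T : ℝ) {N : ι → ℕ} (hN : ∀ i, 1 ≤ N i) :
    Continuous (fun p : ℝ × (ι → ℝ) => GT w Ψ b σ x L T N p.1 p.2) := by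
  unfold GT
  have h0 : Continuous fun p : ℝ × (ι → ℝ) => p.1 / T := by fun_prop
  refine Continuous.mul (hw.comp h0) (continuous_finsetProd _ fun i _ => ?_)
  have h1 : Continuous fun p : ℝ × (ι → ℝ) => (σ i * p.1, p.2 i) :=
    (continuous_const.mul continuous_fst).prodMk ((continuous_apply i).comp continuous_snd)
  have h2 := w1_joint (h i) (b i) (hx i) L (hN i)
  exact Continuous.comp (g := fun p : ℝ × ℝ => w1 (Ψ i) (b i) L (N i) p.1 ((x i : ℂ) + p.2 * I))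
    (f := fun p : ℝ × (ι → ℝ) => (σ i * p.1, p.2 i)) h2 h1

omit [Fintype ι] in
lemma prod_ofReal_exp (s : Finset ι) (σ : ι → ℝ) (N : ι → ℕ) (t : ℝ) :
    ∏ i ∈ s, exp (-(I * (σ i * Real.log (N i)) * t)) =
      exp (-(I * ((∑ i ∈ s, σ i * Real.log (N i) : ℝ) : ℂ) * t)) := by
  rw [← Complex.exp_sum]
  congr 1
  push_cast
  rw [Finset.sum_neg_distrib, Finset.mul_sum, Finset.sum_mul]

/-- one off-diagonal term -/
theorem off_term (hw : WT c1 c2 w) (hc1 : 0 < c1) (hc12 : c1 ≤ c2) {ξ : ι → ℝ} {Ψ : ι → ℝ → ℂ}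
    (h : ∀ i, TF (ξ i) (Ψ i)) {b : ι → Bool} {σ : ι → ℝ} (hb : Bal b σ) (J : ℕ) :
    ∃ C : ℝ, 0 ≤ C ∧ ∀ (L T θ : ℝ) (N : ι → ℕ), 1 ≤ L → 64 ≤ T → 128 ≤ c1 * T → 0 < θ → θ ≤ 1 →
      (∀ i, 1 ≤ N i) → θ ≤ |∑ i, σ i * Real.log (N i)| →
      ‖∫ t in (c1 * T)..(c2 * T), w (t / T) * ∏ i, W1 (Ψ i) (b i) 0 L (N i) (σ i * t)‖ ≤
        C * T * (1 / (T * θ)) ^ J := by
  obtain ⟨C, hC, hin⟩ := inner hw hc1 hc12 hb J
  obtain ⟨Cw, hCw, hbw⟩ := hw.bdd
  have hAd : Ad 0 := Or.inl ⟨le_rfl, by norm_num⟩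
  have hP := fun i => P_dec (h i) (2 + J)
  choose CP hCP hPb using hP
  have hD := fun i => w1_dec (h i) (b i) hAd 2
  choose CD hCD hDb using hD
  refine ⟨(∏ i, CP i) * C * J2 ^ Fintype.card ι, ?_, ?_⟩
  · have := J2_nonneg
    have : 0 ≤ ∏ i, CP i := Finset.prod_nonneg fun i _ => hCP i
    positivity
  intro L T θ N hL hT hcT hθ hθ1 hN hΘ
  have hT0 : 0 < T := by linarith
  have hle : c1 * T ≤ c2 * T := by gcongr
  have hx : ∀ _ : ι, (0:ℝ) ≤ 0 := fun _ => le_rfl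
  set G : ℝ → (ι → ℝ) → ℂ := GT w Ψ b σ (fun _ => 0) L T N with hG
  have hGc : Continuous (fun p : ℝ × (ι → ℝ) => G p.1 p.2) := GT_joint hw.cont h b σ hx L T hN
  -- Fubini
  have e1 : ∀ t : ℝ, w (t / T) * ∏ i, W1 (Ψ i) (b i) 0 L (N i) (σ i * t) = ∫ y, G t y := by
    intro t
    rw [hG]
    unfold GT
    rw [integral_const_mul, integral_fintype_prod_volume_eq_prod
      (f := fun (i : ι) (x : ℝ) => w1 (Ψ i) (b i) L (N i) (σ i * t) ((0:ℝ) + x * I))]
    rfl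
  have hGb : ∀ t y, ‖G t y‖ ≤ Cw * (∏ i, CD i) * JI y := by
    intro t y
    rw [hG]
    unfold GT JI
    rw [norm_mul, norm_prod, mul_assoc, ← Finset.prod_mul_distrib]
    have h1 : ∏ i, ‖w1 (Ψ i) (b i) L (N i) (σ i * t) ((0:ℝ) + y i * I)‖ ≤
        ∏ i, (CD i * ((1 + |y i|) ^ 2)⁻¹) := by
      refine Finset.prod_le_prod (fun _ _ => norm_nonneg _) fun i _ => ?_
      refine (hDb i L (σ i * t) (y i) (N i) hL (hN i)).trans ?_
      rw [mul_zero, mul_zero, mul_zero, Real.exp_zero, Real.rpow_zero, one_mul, one_mul, add_zero,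
        div_eq_mul_inv]
      have hNi : (1:ℝ) ≤ N i := by exact_mod_cast hN i
      have h2 : (N i : ℝ) ^ (-(1 / 2) : ℝ) ≤ 1 :=
        Real.rpow_le_one_of_one_le_of_nonpos hNi (by norm_num)
      have := hCD i
      calc CD i * (N i : ℝ) ^ (-(1 / 2) : ℝ) * ((1 + |y i|) ^ 2)⁻¹ ≤ CD i * 1 * ((1 + |y i|) ^ 2)⁻¹ := by
            gcongr
        _ = _ := by ring
    have := hbw (t / T)
    gcongr
  have hint : Integrable (fun p : ℝ × (ι → ℝ) => G p.1 p.2)
      ((volume.restrict (Ioc (c1 * T) (c2 * T))).prod volume) :=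
    prodint hGc.aestronglyMeasurable (Eventually.of_forall fun p _ => hGb p.1 p.2)
  simp only [e1]
  rw [swapI hle hint]
  -- the inner integral
  have hptw : ∀ y : ι → ℝ, ‖∫ t in (c1 * T)..(c2 * T), G t y‖ ≤
      ((∏ i, CP i) * C * T * (1 / (T * θ)) ^ J) * JI y := by
    intro y
    set Θ : ℝ := ∑ i, σ i * Real.log (N i) with hΘd
    set y' : ι → ℝ := fun i => σ i * y i with hy'
    have hYY : YY y' = YY y := by
      unfold YY
      refine Finset.prod_congr rfl fun i _ => ?_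
      rw [hy']
      simp only
      rw [abs_mul]
      rcases hb.1 i with h1 | h1 <;> rw [h1] <;> simp
    have e2 : ∀ t : ℝ, G t y = (∏ i, (P (Ψ i) (L * ((0:ℝ) + y i * I)) *
        (N i : ℂ) ^ (-(1 / 2 + ((0:ℝ) + y i * I)) : ℂ))) *
        (w (t / T) * HY b σ y' t * exp (-(I * Θ * t))) := by
      intro t
      rw [hG, hΘd, ← prod_ofReal_exp]
      unfold GT HY w1
      have : ∀ i, (N i : ℂ) ^ (-(1 / 2 + (((0:ℝ) : ℂ) + y i * I) + (σ i * t : ℝ) * I)) =
          (N i : ℂ) ^ (-(1 / 2 + (((0:ℝ) : ℂ) + y i * I)) : ℂ) * exp (-(I * (σ i * Real.log (N i)) * t)) := by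
        intro i
        have hN0 : (N i : ℂ) ≠ 0 := by exact_mod_cast (by have := hN i; omega : N i ≠ 0)
        have e3 : (-(1 / 2 + (((0:ℝ) : ℂ) + y i * I) + (σ i * t : ℝ) * I)) =
            (-(1 / 2 + (((0:ℝ) : ℂ) + y i * I)) : ℂ) + (-((σ i * t : ℝ) * I)) := by ring
        rw [e3, Complex.cpow_add _ _ hN0]
        congr 1
        rw [Complex.cpow_def_of_ne_zero hN0, ← Complex.natCast_log]
        congr 1
        push_cast; ring
      simp only [this, Finset.prod_mul_distrib]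
      have e4 : ∀ i, (1 / 2 + (((0:ℝ) : ℂ) + y i * I) + (σ i * t : ℝ) * I) =
          1 / 2 + I * (σ i * ((t : ℂ) + y' i)) := by
        intro i
        have hs : σ i * σ i = 1 := by rcases hb.1 i with h1 | h1 <;> rw [h1] <;> norm_num
        have hs' : (σ i : ℂ) * σ i = 1 := by exact_mod_cast hs
        rw [hy']
        push_cast
        linear_combination (-(I * y i)) * hs'
      simp only [e4]
      ring
    simp only [e2]
    rw [intervalIntegral.integral_const_mul, norm_mul, norm_prod]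
    have g1 := hin T θ Θ y' hT hcT hθ hθ1 hΘ
    rw [hYY] at g1
    have g2 : ∏ i, ‖P (Ψ i) (L * ((0:ℝ) + y i * I)) * (N i : ℂ) ^ (-(1 / 2 + ((0:ℝ) + y i * I)) : ℂ)‖ ≤
        ∏ i, (CP i / (1 + |y i|) ^ (2 + J)) := by
      refine Finset.prod_le_prod (fun _ _ => norm_nonneg _) fun i _ => ?_
      have hNi : (1:ℝ) ≤ N i := by exact_mod_cast hN i
      have g3 := hPb i L 0 (y i) hL le_rfl
      rw [mul_zero, mul_zero, Real.exp_zero, mul_one] at g3
      have g4 : ‖(N i : ℂ) ^ (-(1 / 2 + ((0:ℝ) + y i * I)) : ℂ)‖ ≤ 1 := by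
        rw [Complex.norm_natCast_cpow_of_pos (hN i)]
        refine Real.rpow_le_one_of_one_le_of_nonpos hNi ?_
        simp
      rw [norm_mul]
      calc _ ≤ CP i / (1 + |y i|) ^ (2 + J) * 1 := by
            have := hCP i
            gcongr
        _ = _ := mul_one _
    have hYp : 0 < YY y := by have := YY_one y; linarith
    have e5 : ∏ i, (CP i / (1 + |y i|) ^ (2 + J)) = (∏ i, CP i) * (JI y * (YY y ^ J)⁻¹) := by
      unfold JI YY
      rw [Finset.prod_div_distrib, div_eq_mul_inv]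
      congr 1
      rw [← Finset.prod_pow, ← Finset.prod_inv_distrib, ← Finset.prod_inv_distrib,
        ← Finset.prod_mul_distrib]
      refine Finset.prod_congr rfl fun i _ => ?_
      rw [pow_add, mul_inv]
    rw [e5] at g2
    have hCPn : 0 ≤ ∏ i, CP i := Finset.prod_nonneg fun i _ => hCP i
    have hJI := (JI_pos y).le
    calc _ ≤ ((∏ i, CP i) * (JI y * (YY y ^ J)⁻¹)) * (C * T * (YY y / (T * θ)) ^ J) := by gcongr
      _ = _ := by
          rw [div_pow, one_div, inv_pow]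
          field_simp
  refine (decayI (Eventually.of_forall hptw)).trans (le_of_eq ?_)
  ring

end multi

end

end Pool.Agent.TH612.MD
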