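import Pool.Agent.TH612.MD.V2
import Pool.Agent.TH612.MD.Ot

set_option autoImplicit false

/-! Shift of all the variables for the sum of the swap terms. -/

namespace Pool.Agent.TH612.MD

open Complex Filter Topology MeasureTheory Set
open scoped ContDiff ComplexConjugate
open Pool.Agent.W182.KO hiding ee SS_summable
open Pool.Agent.TH612.CF

noncomputable section

variable {k : ℕ} {v : Fin k ⊕ Fin k → ℝ} {μ : ℝ}

lemma ny_le_YY (y : Fin k ⊕ Fin k → ℝ) : ny y ≤ YY y := by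
  unfold ny YY
  classical
  have : ∀ s : Finset (Fin k ⊕ Fin k), 1 + ∑ i ∈ s, |y i| ≤ ∏ i ∈ s, (1 + |y i|) := by
    intro s
    induction s using Finset.induction_on with
    | empty => simp
    | insert i s hi ih =>
      rw [Finset.sum_insert hi, Finset.prod_insert hi]
      have h1 := abs_nonneg (y i)
      have h2 : 0 ≤ ∑ i ∈ s, |y i| := Finset.sum_nonneg fun i _ => abs_nonneg _
      nlinarith
  exact this Finset.univ

/-- the product of the transforms -/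
def phi (Ψ : Fin k ⊕ Fin k → ℝ → ℂ) (σ v : Fin k ⊕ Fin k → ℝ) (L : ℝ) (y : Fin k ⊕ Fin k → ℝ) (s : ℂ) : ℂ :=
  ∏ i, P (Ψ i) (L * (((|v i| : ℝ) : ℂ) * (s - 1 / 2) + ((σ i * y i : ℝ) : ℂ) * I))

/-- the weighted sum of the swap terms -/
def gQ (Ψ : Fin k ⊕ Fin k → ℝ → ℂ) (σ v : Fin k ⊕ Fin k → ℝ) (L t : ℝ) (y : Fin k ⊕ Fin k → ℝ) (s : ℂ) : ℂ :=
  phi Ψ σ v L y s * Qs t (LR y v s)

variable {ξ σ : Fin k ⊕ Fin k → ℝ} {Ψ : Fin k ⊕ Fin k → ℝ → ℂ}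

lemma LR_shift (y v : Fin k ⊕ Fin k → ℝ) (s : ℂ) (u : ℝ) : LR y v (s + u * I) = LR (y + u • v) v s := by
  funext i
  rw [LR_apply, LR_apply]
  simp only [Pi.add_apply, Pi.smul_apply, smul_eq_mul]
  push_cast
  linear_combination (-(v i * u : ℂ)) * I_sq

lemma phi_shift (hσ : ∀ i, σ i * v i = |v i|) (L : ℝ) (y : Fin k ⊕ Fin k → ℝ) (s : ℂ) (u : ℝ) :
    phi Ψ σ v L y (s + u * I) = phi Ψ σ v L (y + u • v) s := by
  unfold phi
  refine Finset.prod_congr rfl fun i _ => ?_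
  congr 2
  simp only [Pi.add_apply, Pi.smul_apply, smul_eq_mul]
  have h1 : σ i * (y i + u * v i) = σ i * y i + u * |v i| := by rw [← hσ i]; ring
  rw [h1]
  push_cast; ring

lemma gQ_shift (hσ : ∀ i, σ i * v i = |v i|) (L t : ℝ) (y : Fin k ⊕ Fin k → ℝ) (s : ℂ) (u : ℝ) :
    gQ Ψ σ v L t y (s + u * I) = gQ Ψ σ v L t (y + u • v) s := by
  unfold gQ
  rw [phi_shift hσ, LR_shift]

lemma phi_bd (hΨ : ∀ i, TF (ξ i) (Ψ i)) (hs : ∀ i, σ i = 1 ∨ σ i = -1) (v : Fin k ⊕ Fin k → ℝ) (N : ℕ) :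
    ∃ C : ℝ, 0 ≤ C ∧
    ∀ (L τ : ℝ) (y : Fin k ⊕ Fin k → ℝ), 1 ≤ L → 0 ≤ τ → ‖phi Ψ σ v L y ((1 / 2 + τ : ℝ) : ℂ)‖ ≤
      C * Real.exp (L * τ * ∑ i, ξ i * |v i|) * (JI y * (YY y ^ N)⁻¹) := by
  have hP := fun i => P_dec (hΨ i) (2 + N)
  choose C hC hb using hP
  refine ⟨∏ i, C i, Finset.prod_nonneg fun i _ => hC i, fun L τ y hL hτ => ?_⟩
  unfold phi
  rw [norm_prod]
  have h1 : ∏ i, ‖P (Ψ i) (L * (((|v i| : ℝ) : ℂ) * (((1 / 2 + τ : ℝ) : ℂ) - 1 / 2) +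
      ((σ i * y i : ℝ) : ℂ) * I))‖ ≤
      ∏ i, (C i * Real.exp (L * τ * (ξ i * |v i|)) * (((1 + |y i|) ^ 2)⁻¹ * ((1 + |y i|) ^ N)⁻¹)) := by
    refine Finset.prod_le_prod (fun _ _ => norm_nonneg _) fun i _ => ?_
    have h2 := hb i L (|v i| * τ) (σ i * y i) hL (mul_nonneg (abs_nonneg _) hτ)
    have e1 : (((|v i| : ℝ) : ℂ) * (((1 / 2 + τ : ℝ) : ℂ) - 1 / 2) + ((σ i * y i : ℝ) : ℂ) * I) =
        ((|v i| * τ : ℝ) : ℂ) + ((σ i * y i : ℝ) : ℂ) * I := by push_cast; ring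
    have e2 : |σ i * y i| = |y i| := by
      rw [abs_mul]
      rcases hs i with h | h <;> rw [h] <;> simp
    rw [e1]
    rw [e2] at h2
    refine h2.trans (le_of_eq ?_)
    rw [div_eq_mul_inv, pow_add, mul_inv]
    congr 3
    ring
  refine h1.trans (le_of_eq ?_)
  unfold JI YY
  rw [Finset.prod_mul_distrib, Finset.prod_mul_distrib, Finset.prod_mul_distrib, ← Real.exp_sum,
    ← Finset.mul_sum, ← Finset.prod_pow, ← Finset.prod_inv_distrib]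

lemma phi_cont (hΨ : ∀ i, TF (ξ i) (Ψ i)) (σ v : Fin k ⊕ Fin k → ℝ) (L : ℝ) :
    Continuous (fun x : (Fin k ⊕ Fin k → ℝ) × ℂ => phi Ψ σ v L x.1 x.2) := by
  unfold phi
  refine continuous_finsetProd _ fun i _ => ?_
  have h1 : Continuous (fun x : (Fin k ⊕ Fin k → ℝ) × ℂ => x.1 i) := (continuous_apply i).comp continuous_fst
  have h2 : Continuous (P (Ψ i)) := (P_diff (hΨ i)).continuous
  refine h2.comp ?_
  fun_prop

lemma phi_diff (hΨ : ∀ i, TF (ξ i) (Ψ i)) (σ v : Fin k ⊕ Fin k → ℝ) (L : ℝ) (y : Fin k ⊕ Fin k → ℝ) :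
    Differentiable ℂ (phi Ψ σ v L y) := by
  unfold phi
  intro s
  refine DifferentiableAt.fun_finsetProd fun i _ => ?_
  exact ((P_diff (hΨ i)) _).comp s (by fun_prop)

/-- bound for the weighted sum of the swap terms -/
lemma gQ_bd (h : VV v μ) (hΨ : ∀ i, TF (ξ i) (Ψ i)) (hs : ∀ i, σ i = 1 ∨ σ i = -1) {c0 : ℝ}
    (hc0 : 0 < c0) (hc : c0 < 1 / 4) : ∃ C : ℝ, 0 ≤ C ∧ ∀ (L t τ : ℝ) (y : Fin k ⊕ Fin k → ℝ), 1 ≤ L →
      0 ≤ t → 0 ≤ τ → τ ≤ c0 → Gn v y → ((1 / 2 + τ : ℝ) : ℂ) ∉ SS y v →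
      ‖gQ Ψ σ v L t y ((1 / 2 + τ : ℝ) : ℂ)‖ ≤
        C * Real.exp (L * τ * ∑ i, ξ i * |v i|) * (1 + t) ^ k * JI y := by
  obtain ⟨K, B, hK, hQ⟩ := Q_bddv h hc0 hc
  obtain ⟨C, hC, hphi⟩ := phi_bd hΨ hs v B
  refine ⟨C * K, by positivity, fun L t τ y hL ht hτ hτc hG hS => ?_⟩
  have g1 := hphi L τ y hL hτ
  have g2 := hQ y t ((1 / 2 + τ : ℝ) : ℂ) hG ht (by
    rw [Complex.ofReal_re, show (1 / 2 + τ - 1 / 2 : ℝ) = τ by ring, abs_of_nonneg hτ]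
    exact hτc) hS
  rw [Complex.ofReal_im, abs_zero, add_zero, mul_one] at g2
  have hn := ny_one y
  have hY := YY_one y
  have h3 : ny y ^ B ≤ YY y ^ B := by
    have := ny_le_YY y
    gcongr
  have hJ := (JI_pos y).le
  have hK0 : 0 ≤ K := by linarith
  unfold gQ
  rw [norm_mul]
  have hYp : 0 < YY y ^ B := by positivity
  calc _ ≤ (C * Real.exp (L * τ * ∑ i, ξ i * |v i|) * (JI y * (YY y ^ B)⁻¹)) *
        (K * YY y ^ B * (1 + t) ^ k) := by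
        have := g2.trans (by gcongr : K * ny y ^ B * (1 + t) ^ k ≤ K * YY y ^ B * (1 + t) ^ k)
        gcongr
    _ = _ := by field_simp

lemma JI_shift (h : VV v μ) (y : Fin k ⊕ Fin k → ℝ) {u : ℝ} (hu : |u| ≤ 1) :
    JI (y + u • v) ≤ 4 ^ Fintype.card (Fin k ⊕ Fin k) * JI y := by
  unfold JI
  have h1 : ∏ i, ((1 + |(y + u • v) i|) ^ 2)⁻¹ ≤ ∏ i : Fin k ⊕ Fin k, (4 * ((1 + |y i|) ^ 2)⁻¹) := by
    refine Finset.prod_le_prod (fun i _ => by positivity) fun i _ => ?_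
    have h2 : 1 + |y i| ≤ 2 * (1 + |(y + u • v) i|) := by
      simp only [Pi.add_apply, Pi.smul_apply, smul_eq_mul]
      have h3 : |u * v i| ≤ 1 := by
        rw [abs_mul]
        have := h.le i
        have := abs_nonneg u
        have := abs_nonneg (v i)
        nlinarith
      have h4 := abs_sub_abs_le_abs_sub (y i) (-(u * v i))
      rw [abs_neg, sub_neg_eq_add] at h4
      have := abs_nonneg (y i + u * v i)
      linarith
    have h5 : (1 + |y i|) ^ 2 ≤ 4 * (1 + |(y + u • v) i|) ^ 2 := by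
      calc _ ≤ (2 * (1 + |(y + u • v) i|)) ^ 2 := by gcongr
        _ = _ := by ring
    rw [inv_le_comm₀ (by positivity) (by positivity), mul_inv, inv_inv]
    linarith
  refine h1.trans (le_of_eq ?_)
  rw [Finset.prod_mul_distrib, Finset.prod_const, Finset.card_univ]

lemma mem_Dm (h : VV v μ) {c : ℝ} {t : ℝ} {y : Fin k ⊕ Fin k → ℝ} {s : ℂ} (hs : |s.re - 1 / 2| < c)
    (hS : s ∉ SS y v) : (t, y, s) ∈ Dm v c :=
  ⟨fun i => (LRim_le h y s i).trans_lt hs, fun p hp => nSS_ne h hS hp⟩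

lemma nSS_re {y : Fin k ⊕ Fin k → ℝ} {s : ℂ} (hs : s.re ≠ 1 / 2) : s ∉ SS y v := fun h => hs (SS_rev h)

lemma int4 {F1 F2 F3 F4 : (Fin k ⊕ Fin k → ℝ) → ℂ} (h1 : Integrable F1) (h2 : Integrable F2)
    (h3 : Integrable F3) (h4 : Integrable F4) :
    ∫ y, (F1 y - F2 y + I * F3 y - I * F4 y) = (∫ y, F1 y) - (∫ y, F2 y) + I * (∫ y, F3 y) -
      I * ∫ y, F4 y := by
  have g3 : Integrable fun y => I * F3 y := h3.const_mul I
  have g4 : Integrable fun y => I * F4 y := h4.const_mul I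
  have g12 : Integrable fun y => F1 y - F2 y := h1.sub h2
  have g123 : Integrable fun y => F1 y - F2 y + I * F3 y := g12.add g3
  rw [integral_sub g123 g4, integral_add g12 g3, integral_sub h1 h2, integral_const_mul,
    integral_const_mul]

/-- constancy along the shift -/
theorem H_const (h : VV v μ) (hΨ : ∀ i, TF (ξ i) (Ψ i)) (hs : ∀ i, σ i = 1 ∨ σ i = -1)
    (hσ : ∀ i, σ i * v i = |v i|) {τ1 τ2 : ℝ} (h1 : 0 < τ1) (h12 : τ1 ≤ τ2) (h2 : τ2 < 1 / 4)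
    {L t : ℝ} (hL : 1 ≤ L) (ht : 0 ≤ t) :
    ∫ y, gQ Ψ σ v L t y ((1 / 2 + τ1 : ℝ) : ℂ) = ∫ y, gQ Ψ σ v L t y ((1 / 2 + τ2 : ℝ) : ℂ) := by
  have hτ2 : 0 < τ2 := by linarith
  obtain ⟨c, hc2, hc⟩ := exists_between h2
  obtain ⟨C, hC, hb⟩ := gQ_bd h hΨ hs hτ2 h2
  set S : ℝ := ∑ i, ξ i * |v i| with hS
  set A : ℝ := C * Real.exp (L * τ2 * |S|) * (1 + t) ^ k with hA
  have hA0 : 0 ≤ A := by positivity
  have hbA : ∀ (τ : ℝ) (y : Fin k ⊕ Fin k → ℝ), 0 < τ → τ ≤ τ2 → Gn v y →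
      ‖gQ Ψ σ v L t y ((1 / 2 + τ : ℝ) : ℂ)‖ ≤ A * JI y := by
    intro τ y hτ hτ' hG
    refine (hb L t τ y hL ht hτ.le hτ' hG (nSS_re (by rw [Complex.ofReal_re]; linarith))).trans ?_
    have h3 : Real.exp (L * τ * S) ≤ Real.exp (L * τ2 * |S|) := by
      refine Real.exp_le_exp.2 ?_
      calc L * τ * S ≤ L * τ * |S| := mul_le_mul_of_nonneg_left (le_abs_self _) (by positivity)
        _ ≤ _ := by gcongr
    have := (JI_pos y).le
    rw [hA]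
    gcongr
  -- joint continuity off the centre
  have hcont : ∀ {X : Type} [TopologicalSpace X] (Y : X → (Fin k ⊕ Fin k → ℝ)) (Z : X → ℂ) (U : Set X),
      Continuous Y → Continuous Z → (∀ x ∈ U, (Z x).re ≠ 1 / 2 ∧ |(Z x).re - 1 / 2| < c) →
      ContinuousOn (fun x => gQ Ψ σ v L t (Y x) (Z x)) U := by
    intro X _ Y Z U hY hZ hU
    unfold gQ
    refine ContinuousOn.mul ?_ ?_
    · exact ((phi_cont hΨ σ v L).comp (hY.prodMk hZ)).continuousOn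
    · refine (Qs_jcont v hc).comp (f := fun x => (t, Y x, Z x)) ?_ ?_
      · exact (continuous_const.prodMk (hY.prodMk hZ)).continuousOn
      · intro x hx
        exact mem_Dm h (hU x hx).2 (nSS_re (hU x hx).1)
  -- the four sides
  have hside : ∀ y : Fin k ⊕ Fin k → ℝ,
      (∫ x in (1 / 2 + τ1)..(1 / 2 + τ2), gQ Ψ σ v L t y ((x : ℝ) : ℂ)) -
      (∫ x in (1 / 2 + τ1)..(1 / 2 + τ2), gQ Ψ σ v L t (y + v) ((x : ℝ) : ℂ)) +
      I * (∫ u in (0:ℝ)..1, gQ Ψ σ v L t (y + u • v) ((1 / 2 + τ2 : ℝ) : ℂ)) -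
      I * (∫ u in (0:ℝ)..1, gQ Ψ σ v L t (y + u • v) ((1 / 2 + τ1 : ℝ) : ℂ)) = 0 := by
    intro y
    have hrect := Complex.integral_boundary_rect_eq_zero_of_differentiableOn
      (fun s => gQ Ψ σ v L t y s) (((1 / 2 + τ1 : ℝ) : ℂ) + (0:ℝ) * I)
      (((1 / 2 + τ2 : ℝ) : ℂ) + (1:ℝ) * I) (by
        intro s hs
        rw [mem_reProdIm] at hs
        simp only [add_re, ofReal_re, mul_re, I_re, mul_zero, ofReal_im, I_im, mul_one, sub_self,
          add_zero] at hs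
        rw [uIcc_of_le (by linarith)] at hs
        have h3 : s ∈ St c \ SS y v := by
          refine ⟨?_, nSS_re (by linarith [hs.1.1])⟩
          unfold St
          rw [mem_ofPred_eq, abs_lt]
          constructor <;> linarith [hs.1.1, hs.1.2]
        have hO : IsOpen (St c \ SS y v) := (St_open c).sdiff (SS_finv y).isClosed
        have h4 := (Qs_diffv h hc t y).differentiableAt (hO.mem_nhds h3)
        exact (((phi_diff hΨ σ v L y) s).mul h4).differentiableWithinAt)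
    simp only [add_re, ofReal_re, mul_re, I_re, mul_zero, ofReal_im, I_im, mul_one, sub_self,
      add_zero, add_im, mul_im, zero_add] at hrect
    have e1 : ∀ x : ℝ, gQ Ψ σ v L t y ((x : ℂ) + ((1:ℝ) : ℂ) * I) = gQ Ψ σ v L t (y + v) (x : ℂ) := by
      intro x
      rw [gQ_shift hσ, one_smul]
    have e2 : ∀ (x u : ℝ), gQ Ψ σ v L t y ((x : ℂ) + (u : ℂ) * I) = gQ Ψ σ v L t (y + u • v) (x : ℂ) :=
      fun x u => gQ_shift hσ L t y x u
    have e3 : ∀ x : ℝ, gQ Ψ σ v L t y ((x : ℂ) + ((0:ℝ) : ℂ) * I) = gQ Ψ σ v L t y (x : ℂ) := by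
      intro x
      rw [ofReal_zero, zero_mul, add_zero]
    simp only [e1, e3, e2, smul_eq_mul] at hrect
    exact hrect
  -- integrability
  have i1 : Integrable (fun y => ∫ x in (1 / 2 + τ1)..(1 / 2 + τ2), gQ Ψ σ v L t y ((x : ℝ) : ℂ)) := by
    have hi := prodintC (G := fun (x : ℝ) (y : Fin k ⊕ Fin k → ℝ) => gQ Ψ σ v L t y ((x : ℝ) : ℂ))
      (a := 1 / 2 + τ1) (b := 1 / 2 + τ2) (B := A)
      (hcont (fun p : ℝ × (Fin k ⊕ Fin k → ℝ) => p.2) (fun p => (p.1 : ℂ)) _ continuous_snd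
        (by fun_prop) (fun p hp => by
          have := hp.1.1
          have := hp.1.2
          simp only [ofReal_re]
          refine ⟨by linarith, ?_⟩
          rw [abs_lt]; constructor <;> linarith))
      (by
        filter_upwards [ae_gen h] with y hy x hx
        have := hbA (x - 1 / 2) y (by linarith [hx.1]) (by linarith [hx.2]) hy
        rwa [show (1 / 2 + (x - 1 / 2) : ℝ) = x by ring] at this)
    have := hi.integral_prod_right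
    simp only [intervalIntegral.integral_of_le (by linarith : 1 / 2 + τ1 ≤ 1 / 2 + τ2)]
    exact this
  have i2 : Integrable (fun y => ∫ x in (1 / 2 + τ1)..(1 / 2 + τ2), gQ Ψ σ v L t (y + v) ((x : ℝ) : ℂ)) :=
    i1.comp_add_right v
  have e4 : (∫ y, ∫ x in (1 / 2 + τ1)..(1 / 2 + τ2), gQ Ψ σ v L t (y + v) ((x : ℝ) : ℂ)) =
      ∫ y, ∫ x in (1 / 2 + τ1)..(1 / 2 + τ2), gQ Ψ σ v L t y ((x : ℝ) : ℂ) :=
    integral_add_right_eq_self (fun y => ∫ x in (1 / 2 + τ1)..(1 / 2 + τ2), gQ Ψ σ v L t y ((x : ℝ) : ℂ)) v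
  have i3 : ∀ τ : ℝ, 0 < τ → τ ≤ τ2 → Integrable (fun y => ∫ u in (0:ℝ)..1,
      gQ Ψ σ v L t (y + u • v) ((1 / 2 + τ : ℝ) : ℂ)) ∧
      (∫ y, ∫ u in (0:ℝ)..1, gQ Ψ σ v L t (y + u • v) ((1 / 2 + τ : ℝ) : ℂ)) =
        ∫ y, gQ Ψ σ v L t y ((1 / 2 + τ : ℝ) : ℂ) := by
    intro τ hτ hτ'
    have hi := prodintC (G := fun (u : ℝ) (y : Fin k ⊕ Fin k → ℝ) =>
      gQ Ψ σ v L t (y + u • v) ((1 / 2 + τ : ℝ) : ℂ))
      (a := 0) (b := 1) (B := A * 4 ^ Fintype.card (Fin k ⊕ Fin k))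
      (hcont (fun p : ℝ × (Fin k ⊕ Fin k → ℝ) => p.2 + p.1 • v) (fun _ => ((1 / 2 + τ : ℝ) : ℂ)) _
        (by fun_prop) continuous_const (fun p _ => by
          simp only [ofReal_re]
          refine ⟨by linarith, ?_⟩
          rw [abs_lt]; constructor <;> linarith))
      (by
        filter_upwards [ae_gen h] with y hy u hu
        refine (hbA τ (y + u • v) hτ hτ' (hy.shift u)).trans ?_
        have := JI_shift h y (u := u) (by rw [abs_of_pos hu.1]; exact hu.2)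
        calc _ ≤ A * (4 ^ Fintype.card (Fin k ⊕ Fin k) * JI y) := by gcongr
          _ = _ := by ring)
    constructor
    · have := hi.integral_prod_right
      simp only [intervalIntegral.integral_of_le (zero_le_one' ℝ)]
      exact this
    · rw [← swapI zero_le_one hi]
      have e5 : ∀ u : ℝ, ∫ y, gQ Ψ σ v L t (y + u • v) ((1 / 2 + τ : ℝ) : ℂ) =
          ∫ y, gQ Ψ σ v L t y ((1 / 2 + τ : ℝ) : ℂ) := fun u =>
        integral_add_right_eq_self (fun y => gQ Ψ σ v L t y ((1 / 2 + τ : ℝ) : ℂ)) (u • v)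
      simp only [e5]
      rw [intervalIntegral.integral_const, sub_zero, one_smul]
  obtain ⟨j2, f2⟩ := i3 τ2 hτ2 le_rfl
  obtain ⟨j1, f1⟩ := i3 τ1 h1 h12
  have hz : ∫ y : Fin k ⊕ Fin k → ℝ,
      ((∫ x in (1 / 2 + τ1)..(1 / 2 + τ2), gQ Ψ σ v L t y ((x : ℝ) : ℂ)) -
      (∫ x in (1 / 2 + τ1)..(1 / 2 + τ2), gQ Ψ σ v L t (y + v) ((x : ℝ) : ℂ)) +
      I * (∫ u in (0:ℝ)..1, gQ Ψ σ v L t (y + u • v) ((1 / 2 + τ2 : ℝ) : ℂ)) -
      I * (∫ u in (0:ℝ)..1, gQ Ψ σ v L t (y + u • v) ((1 / 2 + τ1 : ℝ) : ℂ))) = 0 := by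
    simp only [hside, integral_zero]
  rw [int4 i1 i2 j2 j1, e4, sub_self, zero_add, f1, f2] at hz
  have h5 := mul_left_cancel₀ I_ne_zero (sub_eq_zero.1 hz)
  exact h5.symm

/-- **the shift of all the variables** -/
theorem H_zero (h : VV v μ) (hΨ : ∀ i, TF (ξ i) (Ψ i)) (hs : ∀ i, σ i = 1 ∨ σ i = -1)
    (hσ : ∀ i, σ i * v i = |v i|) {c0 : ℝ} (h1 : 0 < c0) (h2 : c0 < 1 / 4)
    {L t : ℝ} (hL : 1 ≤ L) (ht : 0 ≤ t) :
    ∫ y, gQ Ψ σ v L t y (1 / 2) = ∫ y, gQ Ψ σ v L t y ((1 / 2 + c0 : ℝ) : ℂ) := by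
  obtain ⟨c, hc2, hc⟩ := exists_between h2
  obtain ⟨C, hC, hb⟩ := gQ_bd h hΨ hs h1 h2
  set S : ℝ := ∑ i, ξ i * |v i| with hS
  set A : ℝ := C * Real.exp (L * c0 * |S|) * (1 + t) ^ k with hA
  have hbA : ∀ (τ : ℝ) (y : Fin k ⊕ Fin k → ℝ), 0 < τ → τ ≤ c0 → Gn v y →
      ‖gQ Ψ σ v L t y ((1 / 2 + τ : ℝ) : ℂ)‖ ≤ A * JI y := by
    intro τ y hτ hτ' hG
    refine (hb L t τ y hL ht hτ.le hτ' hG (nSS_re (by rw [Complex.ofReal_re]; linarith))).trans ?_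
    have h3 : Real.exp (L * τ * S) ≤ Real.exp (L * c0 * |S|) := by
      refine Real.exp_le_exp.2 ?_
      calc L * τ * S ≤ L * τ * |S| := mul_le_mul_of_nonneg_left (le_abs_self _) (by positivity)
        _ ≤ _ := by gcongr
    have := (JI_pos y).le
    rw [hA]
    gcongr
  have hjc : ∀ (y : Fin k ⊕ Fin k → ℝ) (τ : ℝ), |τ| < c → ((1 / 2 + τ : ℝ) : ℂ) ∉ SS y v →
      ContinuousAt (fun x : (Fin k ⊕ Fin k → ℝ) × ℝ => gQ Ψ σ v L t x.1 ((1 / 2 + x.2 : ℝ) : ℂ)) (y, τ) := by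
    intro y τ hτ hSS
    unfold gQ
    refine ContinuousAt.mul ?_ ?_
    · have hc1 : Continuous fun x : (Fin k ⊕ Fin k → ℝ) × ℝ => (x.1, ((1 / 2 + x.2 : ℝ) : ℂ)) := by fun_prop
      exact ((phi_cont hΨ σ v L).comp hc1).continuousAt
    · have hc1 : Continuous fun x : (Fin k ⊕ Fin k → ℝ) × ℝ => (t, x.1, ((1 / 2 + x.2 : ℝ) : ℂ)) := by
        fun_prop
      have hmem : (t, y, ((1 / 2 + τ : ℝ) : ℂ)) ∈ Dm v c := mem_Dm h (by
        rw [Complex.ofReal_re, show (1 / 2 + τ - 1 / 2 : ℝ) = τ by ring]; exact hτ) hSS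
      have hq := (Qs_jcont v hc).continuousAt ((Dm_open v c).mem_nhds hmem)
      exact ContinuousAt.comp (g := fun x : ℝ × (Fin k ⊕ Fin k → ℝ) × ℂ => Qs x.1 (LR x.2.1 v x.2.2))
        (f := fun x : (Fin k ⊕ Fin k → ℝ) × ℝ => (t, x.1, ((1 / 2 + x.2 : ℝ) : ℂ))) (x := (y, τ))
        hq hc1.continuousAt
  have hlim : Tendsto (fun τ : ℝ => ∫ y, gQ Ψ σ v L t y ((1 / 2 + τ : ℝ) : ℂ)) (𝓝[>] 0)
      (𝓝 (∫ y, gQ Ψ σ v L t y (1 / 2))) := by
    refine tendsto_integral_filter_of_dominated_convergence (fun y => A * JI y) ?_ ?_ (JI_int.const_mul A) ?_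
    · filter_upwards [Ioo_mem_nhdsGT h1] with τ hτ
      refine Continuous.aestronglyMeasurable ?_
      rw [continuous_iff_continuousAt]
      intro y
      have h3 := hjc y τ (by rw [abs_of_pos hτ.1]; linarith [hτ.2])
        (nSS_re (by rw [Complex.ofReal_re]; linarith [hτ.1]))
      exact ContinuousAt.comp (f := fun y : Fin k ⊕ Fin k → ℝ => (y, τ)) h3 (by fun_prop)
    · filter_upwards [Ioo_mem_nhdsGT h1] with τ hτ
      filter_upwards [ae_gen h] with y hy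
      exact hbA τ y hτ.1 hτ.2.le hy
    · filter_upwards [ae_dist] with y hy
      have hS0 : ((1 / 2 + (0:ℝ) : ℝ) : ℂ) ∉ SS y v := by
        rintro ⟨p, q, hpq, h3⟩
        rw [LR_apply, LR_apply] at h3
        have h4 : (y p : ℂ) = y q := by
          have : ((1 / 2 + (0:ℝ) : ℝ) : ℂ) - 1 / 2 = 0 := by push_cast; ring
          rw [this, mul_zero, mul_zero, sub_zero, sub_zero] at h3
          exact h3
        exact hy p q (fun h => hpq (by rw [h])) (by exact_mod_cast h4)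
      have h3 := hjc y 0 (by rw [abs_zero]; linarith) hS0
      have h4 : Tendsto (fun τ : ℝ => (y, τ)) (𝓝[>] 0) (𝓝 (y, (0:ℝ))) :=
        ((by fun_prop : Continuous fun τ : ℝ => (y, τ)).tendsto 0).mono_left nhdsWithin_le_nhds
      have h5 := h3.tendsto.comp h4
      have e0 : ((1 / 2 + (0:ℝ) : ℝ) : ℂ) = 1 / 2 := by push_cast; ring
      simp only [e0] at h5
      exact h5
  have hev : ∀ᶠ τ in 𝓝[>] (0:ℝ), ∫ y, gQ Ψ σ v L t y ((1 / 2 + τ : ℝ) : ℂ) =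
      ∫ y, gQ Ψ σ v L t y ((1 / 2 + c0 : ℝ) : ℂ) := by
    filter_upwards [Ioo_mem_nhdsGT h1] with τ hτ
    exact H_const h hΨ hs hσ hτ.1 hτ.2.le h2 hL ht
  exact tendsto_nhds_unique (hlim.congr' hev) tendsto_const_nhds |>.symm ▸ rfl

end

end Pool.Agent.TH612.MD
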