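import Pool.Agent.TH612.MD.B

set_option autoImplicit false

/-! Assembly. -/

namespace Pool.Agent.TH612.MD

open Complex Filter Topology MeasureTheory Set
open scoped ContDiff ComplexConjugate
open Pool.Agent.W182.KO hiding ee SS_summable
open Pool.Agent.TH612.CF

noncomputable section

variable {k : ℕ} {v : Fin k ⊕ Fin k → ℝ} {μ : ℝ} {ξ : Fin k ⊕ Fin k → ℝ} {Ψ : Fin k ⊕ Fin k → ℝ → ℂ}
  {c1 c2 : ℝ} {w : ℝ → ℂ}

/-- the integral of one swap term -/
lemma Jp_O (hw : WT c1 c2 w) (hc1 : 0 < c1) (hc12 : c1 ≤ c2) (hv : VV v μ) (hΨ : ∀ i, TF (ξ i) (Ψ i))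
    {c0 : ℝ} (h1 : 0 < c0) (h2 : c0 < 1 / 4) (π : Equiv.Perm (Fin k ⊕ Fin k)) :
    ∃ C : ℝ, 0 ≤ C ∧ ∀ T : ℝ, Real.exp 1 ≤ T →
      ‖∫ t in (c1 * T)..(c2 * T), w (t / T) * Jp Ψ v c0 (Real.log T) π t‖ ≤
        C * T ^ (1 + c0 * ((∑ i, ξ i * |v i|) + ee v π)) := by
  obtain ⟨C, hC, hb⟩ := Jp_norm hv hΨ h1 h2
  obtain ⟨Cw, hCw, hbw⟩ := hw.bdd
  have hc2 : 0 < c2 := by linarith
  set S : ℝ := ∑ i, ξ i * |v i| with hS
  set r : ℝ := ee v π * c0 with hr
  set D : ℝ := (1 + c2) ^ r + c1 ^ r with hD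
  have hD0 : 0 ≤ D := by positivity
  refine ⟨Cw * (C * D) * (c2 - c1), by
    have : 0 ≤ c2 - c1 := by linarith
    positivity, fun T hT => ?_⟩
  have hT1 : 1 ≤ T := by have := Real.add_one_le_exp 1; linarith
  have hT0 : 0 < T := by linarith
  have hL : 1 ≤ Real.log T := by rwa [Real.le_log_iff_exp_le hT0]
  have hle : c1 * T ≤ c2 * T := by gcongr
  have hcT : 0 < c1 * T := by positivity
  have e1 : Real.exp (Real.log T * c0 * S) = T ^ (c0 * S) := by
    rw [Real.rpow_def_of_pos hT0]; congr 1; ring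
  have hpt : ∀ t ∈ Set.uIoc (c1 * T) (c2 * T), ‖w (t / T) * Jp Ψ v c0 (Real.log T) π t‖ ≤
      Cw * (C * (T ^ (c0 * S) * (D * T ^ r))) := by
    intro t ht
    rw [Set.uIoc_of_le hle] at ht
    have ht0 : 0 ≤ t := hcT.le.trans ht.1.le
    have g1 := hb π (Real.log T) t hL ht0
    rw [e1] at g1
    have g2 : (1 + t) ^ r ≤ D * T ^ r := by
      rcases le_total 0 r with h0 | h0
      · calc (1 + t) ^ r ≤ ((1 + c2) * T) ^ r := by
              refine Real.rpow_le_rpow (by linarith) ?_ h0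
              nlinarith [ht.2]
          _ = (1 + c2) ^ r * T ^ r := Real.mul_rpow (by linarith) hT0.le
          _ ≤ D * T ^ r := by
              have : (1 + c2) ^ r ≤ D := by
                have : 0 ≤ c1 ^ r := by positivity
                linarith
              gcongr
      · calc (1 + t) ^ r ≤ (c1 * T) ^ r :=
              Real.rpow_le_rpow_of_nonpos hcT (by linarith [ht.1]) h0
          _ = c1 ^ r * T ^ r := Real.mul_rpow hc1.le hT0.le
          _ ≤ D * T ^ r := by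
              have : c1 ^ r ≤ D := by
                have : 0 ≤ (1 + c2) ^ r := by positivity
                linarith
              gcongr
    rw [norm_mul]
    have g3 := hbw (t / T)
    have g4 := g1.trans (by gcongr : C * (T ^ (c0 * S) * (1 + t) ^ r) ≤ C * (T ^ (c0 * S) * (D * T ^ r)))
    gcongr
  refine (intervalIntegral.norm_integral_le_of_norm_le_const hpt).trans (le_of_eq ?_)
  rw [abs_of_nonneg (by linarith)]
  have e2 : T ^ (1 + c0 * (S + ee v π)) = T * (T ^ (c0 * S) * T ^ r) := by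
    rw [← Real.rpow_add hT0, Real.rpow_add hT0 1, Real.rpow_one, hr]
    congr 2; ring
  rw [e2]
  ring

/-- the average of all the swap terms -/
lemma Q_avg (hv : VV v μ) (hΨ : ∀ i, TF (ξ i) (Ψ i)) {c0 : ℝ} (h1 : 0 < c0) (h2 : c0 < 1 / 4) {L t : ℝ}
    (hL : 1 ≤ L) (ht : 0 ≤ t) :
    ∫ y, gQ Ψ (sv v) v L t y (1 / 2) = ∑ π, Jp Ψ v c0 L π t := by
  rw [H_zero hv hΨ (sv_pm v) (sv_mul v) h1 h2 hL ht]
  unfold gQ Qs Jp
  simp only [Finset.mul_sum]
  rw [integral_finsetSum _ fun π _ => Jp_int hv hΨ h1 h2 hL ht π]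

/-- the average with the smooth weight -/
theorem cen (hw : WT c1 c2 w) (hc1 : 0 < c1) (hc12 : c1 ≤ c2) (hv : VV v μ)
    (hΨ : ∀ i, TF (ξ i) (Ψ i)) {c0 : ℝ} (h1 : 0 < c0) (h2 : c0 < 1 / 4) {E : ℝ} (hE0 : 0 ≤ E)
    (hE : ∀ π, ¬ GV v π → 1 + c0 * ((∑ i, ξ i * |v i|) + ee v π) ≤ E)
    (hg : ∀ π, GV v π → lam (sA π ξ) (sA π (bv v)) < 1 ∨ lam (sB π ξ) (sB π (bv v)) < 1)
    [DecidablePred (GV v)] (hcard : (Finset.univ.filter (GV v)).card = (Nat.factorial k) ^ 2) :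
    ∃ C T1 : ℝ, 0 ≤ C ∧ Real.exp 1 ≤ T1 ∧ ∀ T : ℝ, T1 ≤ T →
      ‖(∫ t in (c1 * T)..(c2 * T), w (t / T) * ∏ i, N1 (Ψ i) (bv v i) (Real.log T) (sv v i * t)) -
        ((Nat.factorial k : ℂ) ^ 2)⁻¹ * ∫ t in (c1 * T)..(c2 * T), w (t / T) *
          ∫ y, gQ Ψ (sv v) v (Real.log T) t y (1 / 2)‖ ≤ C * T ^ E := by
  have hterm : ∀ π : Equiv.Perm (Fin k ⊕ Fin k), ∃ C T1 : ℝ, 0 ≤ C ∧ ∀ T : ℝ, T1 ≤ T → Real.exp 1 ≤ T →
      ‖∫ t in (c1 * T)..(c2 * T), (w (t / T) * ((if GV v π then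
        ∏ i, N1 (Ψ i) (bv v i) (Real.log T) (sv v i * t) else 0) - Jp Ψ v c0 (Real.log T) π t))‖ ≤
        C * T ^ E := by
    intro π
    by_cases hπ : GV v π
    · obtain ⟨C, T1, hC, hT1, hb⟩ := offd hw hc1 hc12 hv hΨ hπ h1 h2 (hg π hπ)
      refine ⟨C, T1, hC, fun T hT hTe => ?_⟩
      simp only [if_pos hπ]
      have hT1 : 1 ≤ T := by have := Real.add_one_le_exp 1; linarith
      have : 1 ≤ T ^ E := Real.one_le_rpow hT1 hE0
      refine (hb T hT).trans ?_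
      nlinarith
    · obtain ⟨C, hC, hb⟩ := Jp_O hw hc1 hc12 hv hΨ h1 h2 π
      refine ⟨C, 0, hC, fun T _ hTe => ?_⟩
      simp only [if_neg hπ, zero_sub, mul_neg, intervalIntegral.integral_neg, norm_neg]
      have hT1 : 1 ≤ T := by have := Real.add_one_le_exp 1; linarith
      refine (hb T hTe).trans ?_
      have := Real.rpow_le_rpow_of_exponent_le hT1 (hE π hπ)
      gcongr
  choose C T1 hC hb using hterm
  refine ⟨∑ π, C π, Real.exp 1 + ∑ π, |T1 π|, Finset.sum_nonneg fun π _ => hC π, ?_, fun T hT => ?_⟩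
  · have : 0 ≤ ∑ π, |T1 π| := Finset.sum_nonneg fun _ _ => abs_nonneg _
    linarith
  have hTs : 0 ≤ ∑ π, |T1 π| := Finset.sum_nonneg fun _ _ => abs_nonneg _
  have hTe : Real.exp 1 ≤ T := by linarith
  have hTπ : ∀ π, T1 π ≤ T := fun π => by
    have := Finset.single_le_sum (f := fun π => |T1 π|) (fun π _ => abs_nonneg _) (Finset.mem_univ π)
    have h3 := le_abs_self (T1 π)
    have h4 := Real.exp_pos 1
    linarith
  have hT1 : 1 ≤ T := by have := Real.add_one_le_exp 1; linarith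
  have hT0 : 0 < T := by linarith
  have hL : 1 ≤ Real.log T := by rwa [Real.le_log_iff_exp_le hT0]
  have hle : c1 * T ≤ c2 * T := by gcongr
  have hca : 0 ≤ c1 * T := by positivity
  have hNi := N1_tint hw hΨ v hL T hca hle
  have hJi := fun π => Jp_tint hw hv hΨ h1 h2 hL T hca hle π
  obtain ⟨N, hN⟩ : ∃ N : ℝ → ℂ, N = fun t => ∏ i, N1 (Ψ i) (bv v i) (Real.log T) (sv v i * t) := ⟨_, rfl⟩
  have hNi' : IntervalIntegrable (fun t => w (t / T) * N t) volume (c1 * T) (c2 * T) := by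
    rw [hN]; exact hNi
  have e1 : ∫ t in (c1 * T)..(c2 * T), w (t / T) * ∫ y, gQ Ψ (sv v) v (Real.log T) t y (1 / 2) =
      ∑ π, ∫ t in (c1 * T)..(c2 * T), w (t / T) * Jp Ψ v c0 (Real.log T) π t := by
    rw [← intervalIntegral.integral_finsetSum fun π _ => hJi π]
    refine intervalIntegral.integral_congr fun t ht => ?_
    rw [uIcc_of_le hle] at ht
    rw [Q_avg hv hΨ h1 h2 hL (hca.trans ht.1), Finset.mul_sum]
  have hk : ((Nat.factorial k : ℂ) ^ 2) ≠ 0 := by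
    have : (Nat.factorial k : ℂ) ≠ 0 := by exact_mod_cast Nat.factorial_ne_zero k
    positivity
  have e2 : ∀ π, ∫ t in (c1 * T)..(c2 * T), (w (t / T) * ((if GV v π then
        ∏ i, N1 (Ψ i) (bv v i) (Real.log T) (sv v i * t) else 0) - Jp Ψ v c0 (Real.log T) π t)) =
      (if GV v π then (∫ t in (c1 * T)..(c2 * T), w (t / T) * N t) else 0) -
        ∫ t in (c1 * T)..(c2 * T), w (t / T) * Jp Ψ v c0 (Real.log T) π t := by
    intro π
    split_ifs
    · rw [← intervalIntegral.integral_sub hNi' (hJi π)]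
      congr 1; funext t
      rw [hN]
      ring
    · simp only [zero_sub, mul_neg, intervalIntegral.integral_neg]
  have e3 : (∫ t in (c1 * T)..(c2 * T), w (t / T) * ∏ i, N1 (Ψ i) (bv v i) (Real.log T) (sv v i * t)) -
        ((Nat.factorial k : ℂ) ^ 2)⁻¹ * ∫ t in (c1 * T)..(c2 * T), w (t / T) *
          ∫ y, gQ Ψ (sv v) v (Real.log T) t y (1 / 2) =
      ((Nat.factorial k : ℂ) ^ 2)⁻¹ * ∑ π, ∫ t in (c1 * T)..(c2 * T), (w (t / T) * ((if GV v π then
        ∏ i, N1 (Ψ i) (bv v i) (Real.log T) (sv v i * t) else 0) - Jp Ψ v c0 (Real.log T) π t)) := by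
    simp only [e2]
    rw [Finset.sum_sub_distrib, ← Finset.sum_filter, Finset.sum_const, hcard, e1, hN]
    rw [nsmul_eq_mul, Nat.cast_pow, mul_sub, ← mul_assoc, inv_mul_cancel₀ hk, one_mul]
  rw [e3, norm_mul]
  have e4 : ‖((Nat.factorial k : ℂ) ^ 2)⁻¹‖ ≤ 1 := by
    rw [norm_inv, norm_pow, Complex.norm_natCast]
    apply inv_le_one_of_one_le₀
    apply one_le_pow₀
    exact_mod_cast Nat.factorial_pos k
  calc _ ≤ 1 * ∑ π, (C π * T ^ E) := by
        refine mul_le_mul e4 ?_ (norm_nonneg _) zero_le_one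
        exact norm_sum_le_of_le _ fun π _ => hb π T (hTπ π) hTe
    _ = _ := by rw [one_mul, Finset.sum_mul]

end

end Pool.Agent.TH612.MD
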