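import Pool.Agent.TH612.MD.M

set_option autoImplicit false

/-! Assembly: Fubini and the choice of the parameters. -/

namespace Pool.Agent.TH612.MD

open Complex Filter Topology MeasureTheory Set
open scoped ContDiff ComplexConjugate
open Pool.Agent.W182.KO hiding ee SS_summable
open Pool.Agent.TH612.CF

noncomputable section

variable {k : ℕ} {v : Fin k ⊕ Fin k → ℝ} {μ : ℝ} {ξ : Fin k ⊕ Fin k → ℝ} {Ψ : Fin k ⊕ Fin k → ℝ → ℂ}
  {c1 c2 : ℝ} {w : ℝ → ℂ}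

lemma nSS_half {y : Fin k ⊕ Fin k → ℝ} (hy : ∀ p q, p ≠ q → y p ≠ y q) : (1 / 2 : ℂ) ∉ SS y v := by
  rintro ⟨p, q, hpq, h3⟩
  rw [LR_apply, LR_apply] at h3
  have h4 : (y p : ℂ) = y q := by
    rw [sub_self, mul_zero, mul_zero, sub_zero, sub_zero] at h3
    exact h3
  exact hy p q (fun h => hpq (by rw [h])) (by exact_mod_cast h4)

/-- joint integrability of the weighted swap terms on the centre -/
theorem gQ_pint (hw : WT c1 c2 w) (hv : VV v μ) (hΨ : ∀ i, TF (ξ i) (Ψ i)) {L : ℝ} (hL : 1 ≤ L) (T : ℝ)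
    {a b : ℝ} (ha : 0 ≤ a) :
    Integrable (fun p : ℝ × (Fin k ⊕ Fin k → ℝ) => w (p.1 / T) * gQ Ψ (sv v) v L p.1 p.2 (1 / 2))
      ((volume.restrict (Ioc a b)).prod volume) := by
  obtain ⟨C, hC, hb⟩ := gQ_bd hv hΨ (sv_pm v) (c0 := 1 / 8) (by norm_num) (by norm_num)
  obtain ⟨Cw, hCw, hbw⟩ := hw.bdd
  have e0 : ((1 / 2 + (0:ℝ) : ℝ) : ℂ) = 1 / 2 := by push_cast; ring
  have hae : ∀ᵐ p : ℝ × (Fin k ⊕ Fin k → ℝ) ∂(volume.prod volume), ∀ i j, i ≠ j → p.2 i ≠ p.2 j :=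
    Measure.quasiMeasurePreserving_snd.ae ae_dist
  have hae2 : ∀ᵐ p : ℝ × (Fin k ⊕ Fin k → ℝ) ∂(volume.prod volume), Gn v p.2 :=
    Measure.quasiMeasurePreserving_snd.ae (ae_gen hv)
  refine prodint (G := fun t y => w (t / T) * gQ Ψ (sv v) v L t y (1 / 2))
    (B := Cw * (C * (1 + |b|) ^ k)) ?_ ?_
  · set U : Set (ℝ × (Fin k ⊕ Fin k → ℝ)) := {p | (p.1, p.2, (1 / 2 : ℂ)) ∈ Dm v (1 / 8)} with hU
    have hUo : IsOpen U := (Dm_open v (1 / 8)).preimage (by fun_prop)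
    have hUa : ∀ᵐ p : ℝ × (Fin k ⊕ Fin k → ℝ) ∂(volume.prod volume), p ∈ U := by
      filter_upwards [hae] with p hp
      exact mem_Dm hv (by norm_num) (nSS_half hp)
    rw [← Measure.restrict_eq_self_of_ae_mem hUa]
    refine ContinuousOn.aestronglyMeasurable ?_ hUo.measurableSet
    have h0 : Continuous fun p : ℝ × (Fin k ⊕ Fin k → ℝ) => p.1 / T := by fun_prop
    refine (hw.cont.comp h0).continuousOn.mul ?_
    unfold gQ
    have h1 : Continuous fun p : ℝ × (Fin k ⊕ Fin k → ℝ) => (p.2, (1 / 2 : ℂ)) := by fun_prop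
    refine ((phi_cont hΨ (sv v) v L).comp h1).continuousOn.mul ?_
    have h2 : Continuous fun p : ℝ × (Fin k ⊕ Fin k → ℝ) => (p.1, p.2, (1 / 2 : ℂ)) := by fun_prop
    exact (Qs_jcont v (c := 1 / 8) (by norm_num)).comp (f := fun p : ℝ × (Fin k ⊕ Fin k → ℝ) =>
      (p.1, p.2, (1 / 2 : ℂ))) h2.continuousOn fun p hp => hp
  · filter_upwards [hae, hae2] with p hp hp2 ht
    have ht0 : 0 ≤ p.1 := ha.trans ht.1.le
    have g := hb L p.1 0 p.2 hL ht0 le_rfl (by norm_num) hp2 (by rw [e0]; exact nSS_half hp)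
    rw [e0, mul_zero, zero_mul, Real.exp_zero, mul_one] at g
    have g2 := hbw (p.1 / T)
    have hJ := (JI_pos p.2).le
    rw [norm_mul]
    have h3 : 1 + p.1 ≤ 1 + |b| := by have := le_abs_self b; linarith [ht.2]
    calc ‖w (p.1 / T)‖ * ‖gQ Ψ (sv v) v L p.1 p.2 (1 / 2)‖ ≤ Cw * (C * (1 + p.1) ^ k * JI p.2) := by
          gcongr
      _ ≤ Cw * (C * (1 + |b|) ^ k * JI p.2) := by gcongr
      _ = _ := by ring

/-- the integrand -/
def HH (w : ℝ → ℂ) (Ψ : Fin k ⊕ Fin k → ℝ → ℂ) (v : Fin k ⊕ Fin k → ℝ) (L T t : ℝ)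
    (y : Fin k ⊕ Fin k → ℝ) : ℂ :=
  GZ w Ψ v L T t y - ((Nat.factorial k : ℂ) ^ 2)⁻¹ * (w (t / T) * gQ Ψ (sv v) v L t y (1 / 2))

theorem HH_fub (hw : WT c1 c2 w) (hv : VV v μ) (hΨ : ∀ i, TF (ξ i) (Ψ i)) {L : ℝ} (hL : 1 ≤ L) (T : ℝ)
    {a b : ℝ} (ha : 0 ≤ a) (hab : a ≤ b) :
    Integrable (fun y => ∫ t in a..b, HH w Ψ v L T t y) ∧
    ∫ y, ∫ t in a..b, HH w Ψ v L T t y =
      (∫ t in a..b, w (t / T) * ∏ i, N1 (Ψ i) (bv v i) L (sv v i * t)) -
        ((Nat.factorial k : ℂ) ^ 2)⁻¹ * ∫ t in a..b, w (t / T) * ∫ y, gQ Ψ (sv v) v L t y (1 / 2) := by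
  have i1 := GZ_int hw hΨ v hL T a b ha
  have i2 := gQ_pint hw hv hΨ hL T (b := b) ha
  have i3 := i2.const_mul ((Nat.factorial k : ℂ) ^ 2)⁻¹
  have i4 : Integrable (fun p : ℝ × (Fin k ⊕ Fin k → ℝ) => HH w Ψ v L T p.1 p.2)
      ((volume.restrict (Ioc a b)).prod volume) := i1.sub i3
  simp only [intervalIntegral.integral_of_le hab]
  refine ⟨i4.integral_prod_right, ?_⟩
  rw [← integral_prod_symm _ i4]
  have e1 : ∫ p, HH w Ψ v L T p.1 p.2 ∂((volume.restrict (Ioc a b)).prod volume) =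
      (∫ p, GZ w Ψ v L T p.1 p.2 ∂((volume.restrict (Ioc a b)).prod volume)) -
      ((Nat.factorial k : ℂ) ^ 2)⁻¹ * ∫ p, w (p.1 / T) * gQ Ψ (sv v) v L p.1 p.2 (1 / 2)
        ∂((volume.restrict (Ioc a b)).prod volume) := by
    rw [← integral_const_mul, ← integral_sub i1 i3]
    rfl
  rw [e1, integral_prod _ i1, integral_prod _ i2]
  simp only [GZ_integral, integral_const_mul]

/-- the sign of a place -/
def sgA (A : Finset (Fin k ⊕ Fin k)) (i : Fin k ⊕ Fin k) : ℝ := if i ∈ A then 1 else -1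

/-- the flipped places -/
def fA (A : Finset (Fin k ⊕ Fin k)) (i : Fin k ⊕ Fin k) : Bool := if i ∈ A then i.isRight else i.isLeft

variable {A : Finset (Fin k ⊕ Fin k)} {b : Bool} {ε : ℝ}

lemma sv_dv (h0 : 0 < ε) (h1 : ε ≤ 1 / 2) : sv (dv A b ε) = sgA A := by
  funext i
  unfold sv sgA
  simp only [dv_pos h0 h1]

lemma bv_dv (h0 : 0 < ε) (h1 : ε ≤ 1 / 2) : bv (dv A b ε) = fA A := by
  funext i
  unfold bv fA
  simp only [dv_pos h0 h1]

lemma sgA_pm (A : Finset (Fin k ⊕ Fin k)) (i : Fin k ⊕ Fin k) : sgA A i = 1 ∨ sgA A i = -1 := by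
  unfold sgA; split_ifs <;> simp

lemma P_sgn (ψ : ℝ → ℂ) {σ : ℝ} (hσ : σ = 1 ∨ σ = -1) (L y : ℝ) :
    P (fun x => ψ (σ * x)) (L * (((σ * y : ℝ) : ℂ) * I)) = P ψ (L * y * I) := by
  unfold P
  have h := sgn_int (f := fun x : ℝ => ψ x * exp (x * (L * y * I))) hσ
  rw [← h]
  congr 1; funext x
  congr 2
  push_cast; ring

lemma Zg_Ff (A : Finset (Fin k ⊕ Fin k)) (y : Fin k ⊕ Fin k → ℝ) (t : ℝ) :
    Zg y t = ∏ i, Ff (fA A i) (1 / 2 + ((sgA A i * y i + sgA A i * t : ℝ) : ℂ) * I) := by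
  unfold Zg
  rw [Fintype.prod_sum_type, Finset.prod_mul_distrib]
  congr 1
  · refine Finset.prod_congr rfl fun j _ => ?_
    unfold Ff fA sgA
    by_cases h : Sum.inl j ∈ A
    · simp only [if_pos h, Sum.isRight_inl, Bool.false_eq_true, if_false]
      congr 1; push_cast; ring
    · simp only [if_neg h, Sum.isLeft_inl, if_true]
      congr 1; push_cast; ring
  · refine Finset.prod_congr rfl fun j _ => ?_
    unfold Ff fA sgA
    by_cases h : Sum.inr j ∈ A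
    · simp only [if_pos h, Sum.isRight_inr, if_true]
      congr 1; push_cast; ring
    · simp only [if_neg h, Sum.isLeft_inr, Bool.false_eq_true, if_false]
      congr 1; push_cast; ring

/-- the outer integrand of the statement -/
def WW (w : ℝ → ℂ) (ψ : Fin k ⊕ Fin k → ℝ → ℂ) (T : ℝ) (y : Fin k ⊕ Fin k → ℝ) : ℂ :=
  (∏ i, P (ψ i) (Real.log T * y i * I)) * ∫ t in Ioi (0:ℝ), w (t / T) *
    (Zg y t - ((Nat.factorial k : ℂ) ^ 2)⁻¹ * Qs t (fun i => (y i : ℂ)))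

lemma WW_eq (hw : WT c1 c2 w) (hc1 : 0 < c1) (hc12 : c1 ≤ c2) (h0 : 0 < ε) (h1 : ε ≤ 1 / 2)
    {ψ : Fin k ⊕ Fin k → ℝ → ℂ} {T : ℝ} (hT : 0 < T) (y : Fin k ⊕ Fin k → ℝ) :
    WW w ψ T y = ∫ t in (c1 * T)..(c2 * T),
      HH w (fun i x => ψ i (sgA A i * x)) (dv A b ε) (Real.log T) T t y := by
  have hle : c1 * T ≤ c2 * T := by gcongr
  unfold WW
  rw [intervalIntegral.integral_of_le hle]
  have e1 : ∫ t in Ioi (0:ℝ), w (t / T) *
      (Zg y t - ((Nat.factorial k : ℂ) ^ 2)⁻¹ * Qs t (fun i => (y i : ℂ))) =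
      ∫ t in Ioc (c1 * T) (c2 * T), w (t / T) *
      (Zg y t - ((Nat.factorial k : ℂ) ^ 2)⁻¹ * Qs t (fun i => (y i : ℂ))) := by
    refine setIntegral_eq_of_subset_of_forall_sdiff_eq_zero measurableSet_Ioi ?_ ?_
    · intro t ht
      have : 0 < c1 * T := by positivity
      exact this.trans ht.1
    · intro t ht
      have hz : w (t / T) = 0 := by
        have h2 := ht.2
        rw [mem_Ioc, not_and_or, not_lt, not_le] at h2
        rcases h2 with h2 | h2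
        · exact hw.z1 _ (by rw [div_le_iff₀ hT]; exact h2)
        · exact hw.z2 _ (by rw [le_div_iff₀ hT]; exact h2.le)
      rw [hz, zero_mul]
  rw [e1, ← integral_const_mul]
  congr 1; funext t
  unfold HH GZ gQ phi
  have e2 : LR y (dv A b ε) (1 / 2) = fun i => (y i : ℂ) := by
    funext i
    rw [LR_apply, sub_self, mul_zero, sub_zero]
  rw [sv_dv h0 h1, bv_dv h0 h1, Zg_Ff A, e2]
  simp only [sub_self, mul_zero, zero_add]
  have e3 : ∀ i, P (fun x => ψ i (sgA A i * x)) (Real.log T * (((sgA A i * y i : ℝ) : ℂ) * I)) =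
      P (ψ i) (Real.log T * y i * I) := fun i => P_sgn (ψ i) (sgA_pm A i) _ _
  simp only [e3, Finset.prod_mul_distrib]
  ring

end

end Pool.Agent.TH612.MD
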