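import Pool.Agent.TH612.MD.M2

set_option autoImplicit false

/-! The main theorem in the internal notation. -/

namespace Pool.Agent.TH612.MD

open Complex Filter Topology MeasureTheory Set
open scoped ContDiff ComplexConjugate
open Pool.Agent.W182.KO hiding ee SS_summable
open Pool.Agent.TH612.CF

noncomputable section

variable {k : ℕ} {c1 c2 : ℝ} {w : ℝ → ℂ} {A : Finset (Fin k ⊕ Fin k)} {b : Bool} {ε : ℝ}

lemma exists_WT (h1 : ContDiff ℝ ∞ w) (h2 : HasCompactSupport w) (h3 : tsupport w ⊆ Ioi 0) :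
    ∃ c1 c2 : ℝ, 0 < c1 ∧ c1 ≤ c2 ∧ WT c1 c2 w := by
  rcases (tsupport w).eq_empty_or_nonempty with he | hne
  · have hz : ∀ x, w x = 0 := fun x => image_eq_zero_of_notMem_tsupport (by rw [he]; simp)
    exact ⟨1, 1, one_pos, le_rfl, h1, fun x _ => hz x, fun x _ => hz x⟩
  · have hc : IsCompact (tsupport w) := h2
    obtain ⟨m, hm, hm'⟩ := hc.exists_isLeast hne
    obtain ⟨M, hM, hM'⟩ := hc.exists_isGreatest hne
    have hm0 : 0 < m := h3 hm
    have hmM : m ≤ M := hm' hM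
    refine ⟨m / 2, M + 1, by linarith, by linarith, h1, fun x hx => ?_, fun x hx => ?_⟩
    · exact image_eq_zero_of_notMem_tsupport fun h => by
        have := hm' h; linarith
    · exact image_eq_zero_of_notMem_tsupport fun h => by
        have := hM' h; linarith

lemma card_GV (hA : A.card = k) (h0 : 0 < ε) (h1 : ε ≤ 1 / 2) [DecidablePred (GV (dv A b ε))] :
    (Finset.univ.filter (GV (dv A b ε))).card = (Nat.factorial k) ^ 2 := by
  classical
  obtain ⟨π0, hπ0⟩ := exists_good hA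
  have h : ∀ π : Equiv.Perm (Fin k ⊕ Fin k), GV (dv A b ε) π ↔ Good (sgA A) π := by
    intro π
    rw [GV_iff h0 h1]
    unfold Good sgA
    refine forall_congr' fun j => and_congr ?_ ?_
    · split_ifs with h <;> simp [h]; norm_num
    · split_ifs with h <;> simp [h]; norm_num
  have hg : Good (sgA A) π0 := (h π0).1 ((GV_iff h0 h1 π0).2 hπ0)
  rw [← card_good hg]
  congr 1
  ext π
  simp only [Finset.mem_filter, Finset.mem_univ, true_and]
  exact h π

lemma lam_A {π : Equiv.Perm (Fin k ⊕ Fin k)} (h : ∀ j, π (Sum.inl j) ∈ A ∧ π (Sum.inr j) ∉ A)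
    (ℓ : Fin k ⊕ Fin k → ℝ) :
    lam (sA π fun i => ℓ i - fb (fA A i)) (sA π (fA A)) = sd A true ℓ := by
  unfold lam sd sA
  rw [sum_pi π]
  have e1 : ∑ j, (if decide (π (Sum.inl j) ∈ A) = true then ℓ (π (Sum.inl j)) else 0) =
      ∑ j, ℓ (π (Sum.inl j)) := Finset.sum_congr rfl fun j _ => by simp [(h j).1]
  have e2 : ∑ j, (if decide (π (Sum.inr j) ∈ A) = true then ℓ (π (Sum.inr j)) else 0) = 0 :=
    Finset.sum_eq_zero fun j _ => by simp [(h j).2]
  rw [e1, e2, add_zero]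
  refine Finset.sum_congr rfl fun j _ => ?_
  ring

lemma lam_B {π : Equiv.Perm (Fin k ⊕ Fin k)} (h : ∀ j, π (Sum.inl j) ∈ A ∧ π (Sum.inr j) ∉ A)
    (ℓ : Fin k ⊕ Fin k → ℝ) :
    lam (sB π fun i => ℓ i - fb (fA A i)) (sB π (fA A)) = sd A false ℓ := by
  unfold lam sd sB
  rw [sum_pi π]
  have e1 : ∑ j, (if decide (π (Sum.inl j) ∈ A) = false then ℓ (π (Sum.inl j)) else 0) = 0 :=
    Finset.sum_eq_zero fun j _ => by simp [(h j).1]
  have e2 : ∑ j, (if decide (π (Sum.inr j) ∈ A) = false then ℓ (π (Sum.inr j)) else 0) =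
      ∑ j, ℓ (π (Sum.inr j)) := Finset.sum_congr rfl fun j _ => by simp [(h j).2]
  rw [e1, e2, zero_add]
  refine Finset.sum_congr rfl fun j _ => ?_
  ring

theorem main_thm (hA : A.card = k) (b : Bool) {ℓ : Fin k ⊕ Fin k → ℝ} (hℓ : ∀ i, 0 ≤ ℓ i)
    (hs : sd A b ℓ < 1) {ψ : Fin k ⊕ Fin k → ℝ → ℂ}
    (hψ : ∀ i, TF (ℓ i - fb (fA A i)) (fun x => ψ i (sgA A i * x)))
    (hw : WT c1 c2 w) (hc1 : 0 < c1) (hc12 : c1 ≤ c2) :
    (∀ T : ℝ, Real.exp 1 ≤ T → Integrable (WW w ψ T)) ∧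
    ∀ δ : ℝ, 0 < δ → ∃ C T1 : ℝ, 0 ≤ C ∧ Real.exp 1 ≤ T1 ∧ ∀ T : ℝ, T1 ≤ T →
      ‖∫ y, WW w ψ T y‖ ≤ C * T ^ (1 - (1 - sd A b ℓ) / 4 + δ) := by
  classical
  have hT' : ∀ T : ℝ, Real.exp 1 ≤ T → 0 < T ∧ 1 ≤ Real.log T ∧ 0 ≤ c1 * T ∧ c1 * T ≤ c2 * T := by
    intro T hT
    have hT1 : 1 ≤ T := by have := Real.add_one_le_exp 1; linarith
    have hT0 : 0 < T := by linarith
    exact ⟨hT0, by rwa [Real.le_log_iff_exp_le hT0], by positivity, by gcongr⟩
  constructor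
  · intro T hT
    obtain ⟨hT0, hL, hca, hle⟩ := hT' T hT
    have hv := dv_VV A b (ε := 1 / 2) (by norm_num) le_rfl
    have h := (HH_fub hw hv hψ hL T hca hle).1
    refine h.congr (Eventually.of_forall fun y => ?_)
    exact (WW_eq hw hc1 hc12 (by norm_num) le_rfl hT0 y).symm
  · intro δ hδ
    set a : ℝ := sd A b ℓ with ha
    have ha0 : 0 ≤ a := by
      rw [ha]; unfold sd
      refine Finset.sum_nonneg fun i _ => ?_
      split_ifs
      · exact hℓ i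
      · exact le_rfl
    set S : ℝ := ∑ i, ℓ i with hS
    have hS0 : 0 ≤ S := Finset.sum_nonneg fun i _ => hℓ i
    obtain ⟨ε, hε0, hε1, hε2⟩ : ∃ ε : ℝ, 0 < ε ∧ ε ≤ 1 / 2 ∧ ε * (1 + S) ≤ δ := by
      refine ⟨min (1 / 2) (δ / (1 + S)), by positivity, min_le_left _ _, ?_⟩
      have := min_le_right (1 / 2) (δ / (1 + S))
      calc _ ≤ δ / (1 + S) * (1 + S) := by gcongr
        _ = δ := by field_simp
    obtain ⟨m, hm0, hm1, hm2⟩ : ∃ m : ℝ, 0 < m ∧ m ≤ 1 / 8 ∧ m ≤ δ / 2 :=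
      ⟨min (1 / 8) (δ / 2), by positivity, min_le_left _ _, min_le_right _ _⟩
    have hv := dv_VV A b hε0 hε1
    have hbv : bv (dv A b ε) = fA A := bv_dv hε0 hε1
    obtain ⟨C, T1, hC, hT1, hb⟩ := cen (c0 := 1 / 4 - m) (E := 1 - (1 - a) / 4 + δ) hw hc1 hc12 hv hψ
      (by linarith) (by linarith) (by linarith) (fun π hπ => by
        have g := bad_exp hA hε0 hε1 hπ hℓ (ξ := fun i => ℓ i - fb (fA A i)) (fun i => by rw [hbv])
        rw [← ha, ← hS] at g
        have h3 : (1 / 4 - m) * ((∑ i, (ℓ i - fb (fA A i)) * |dv A b ε i|) + ee (dv A b ε) π) ≤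
            (1 / 4 - m) * (a - 1 + δ) := by
          refine mul_le_mul_of_nonneg_left ?_ (by linarith)
          linarith
        nlinarith) (fun π hπ => by
        have hπ' := (GV_iff hε0 hε1 π).1 hπ
        rw [hbv, lam_A hπ', lam_B hπ']
        cases b
        · exact Or.inr hs
        · exact Or.inl hs) (card_GV hA hε0 hε1)
    refine ⟨C, T1, hC, hT1, fun T hT => ?_⟩
    have hTe := hT1.trans hT
    obtain ⟨hT0, hL, hca, hle⟩ := hT' T hTe
    have e := (HH_fub hw hv hψ hL T hca hle).2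
    simp only [fun y => WW_eq (A := A) (b := b) hw hc1 hc12 hε0 hε1 (ψ := ψ) hT0 y]
    rw [e]
    exact hb T hT

end

end Pool.Agent.TH612.MD
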