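import Pool.Agent.TH612.MD.Bs

set_option autoImplicit false

/-! The average of one zeta factor as a sum of the termwise integrals. -/

namespace Pool.Agent.TH612.MD

open Complex Filter Topology MeasureTheory Set
open scoped ContDiff
open Pool.Agent.W182.KO Pool.Agent.TH612.CF

noncomputable section

variable {ξ1 : ℝ} {Ψ : ℝ → ℂ}

/-- the average of one factor -/
def N1 (Ψ : ℝ → ℂ) (b : Bool) (L u : ℝ) : ℂ :=
  ∫ y : ℝ, P Ψ (L * (y * I)) * Ff b (1 / 2 + (y + u : ℝ) * I)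

/-- index set -/
def Sb (b : Bool) : Finset (Fin 1) := if b then Finset.univ else ∅

lemma Ff_ZM (b : Bool) (s : ℂ) : ZM (fun _ : Fin 1 => (0:ℝ)) (Sb b) s = Ff b s := by
  unfold ZM Ff Sb
  cases b <;> simp

lemma Ff_DQ (b : Bool) {κ : ℝ} (hκ : 0 < κ) : ∃ (M : ℕ) (R C : ℝ), DQ (Ff b) (1 + 4 * κ) R M C := by
  obtain ⟨M0, h⟩ := ZM_DQ hκ (fun _ : Fin 1 => (0:ℝ))
  obtain ⟨C, hC⟩ := h (Sb b) M0 le_rfl _ le_rfl
  have e : ZM (fun _ : Fin 1 => (0:ℝ)) (Sb b) = Ff b := funext (Ff_ZM b)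
  rw [e] at hC
  exact ⟨M0, _, C, hC⟩

lemma one_DQ {c R : ℝ} {M : ℕ} : DQ (fun _ : ℂ => (1:ℂ)) c R M 1 where
  hC := zero_le_one
  diff := fun s _ _ _ => differentiableAt_const 1
  line := continuous_const
  cline := continuous_const
  bdl := fun u => by
    rw [norm_one, one_mul]
    exact one_le_pow₀ (by have := abs_nonneg u; linarith)
  bd := fun s _ _ _ => by
    rw [norm_one, one_mul]
    exact one_le_pow₀ (by have := abs_nonneg s.im; linarith)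
  bdc := fun u => by
    rw [norm_one, one_mul]
    exact one_le_pow₀ (by have := abs_nonneg u; linarith)

/-- the average on the line to the right -/
def N2 (Ψ : ℝ → ℂ) (b : Bool) (κ L u : ℝ) : ℂ :=
  ∫ y : ℝ, P Ψ (L * (((1 / 2 + 4 * κ : ℝ) : ℂ) + y * I)) * Ff b (((1 + 4 * κ : ℝ) : ℂ) + (y + u : ℝ) * I)

lemma N1_I0 (b : Bool) (L t : ℝ) : N1 Ψ b L t = I0 Ψ (Ff b) (fun _ => 1) L t := by
  unfold N1 I0
  congr 1; funext y
  rw [mul_one, mul_assoc]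

lemma N1_I0' (b : Bool) (L t : ℝ) : N1 Ψ b L (-t) = I0 Ψ (fun _ => 1) (Ff b) L t := by
  unfold N1 I0
  congr 1; funext y
  rw [one_mul, mul_assoc, sub_eq_add_neg]

lemma N2_K0 (b : Bool) (κ L t : ℝ) : N2 Ψ b κ L t = K0 Ψ (Ff b) (fun _ => 1) (1 + 4 * κ) L t := by
  unfold N2 K0
  congr 1; funext y
  rw [mul_one]
  congr 2
  push_cast; ring

lemma N2_K0' (b : Bool) (κ L t : ℝ) : N2 Ψ b κ L (-t) = K0 Ψ (fun _ => 1) (Ff b) (1 + 4 * κ) L t := by
  unfold N2 K0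
  congr 1; funext y
  rw [one_mul, ← sub_eq_add_neg]
  congr 2
  push_cast; ring

lemma DQ.monoM {F : ℂ → ℂ} {c R C : ℝ} {M M' : ℕ} (h : DQ F c R M C) (hM : M ≤ M') : DQ F c R M' C := by
  have key : ∀ u : ℝ, C * (1 + |u|) ^ M ≤ C * (1 + |u|) ^ M' := fun u => by
    have : (1:ℝ) ≤ 1 + |u| := by have := abs_nonneg u; linarith
    have := h.hC
    gcongr
  exact ⟨h.hC, h.diff, h.line, h.cline, fun u => (h.bdl u).trans (key u),
    fun s h1 h2 h3 => (h.bd s h1 h2 h3).trans (key s.im), fun u => (h.bdc u).trans (key u)⟩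

theorem N1_shift (h : TF ξ1 Ψ) (b : Bool) {κ : ℝ} (hκ : 0 < κ) {c1 c2 : ℝ} (hc1 : 0 < c1)
    (hc12 : c1 ≤ c2) (K : ℕ) : ∃ C T1 : ℝ, 0 ≤ C ∧ Real.exp 1 ≤ T1 ∧ ∀ T u : ℝ, T1 ≤ T →
      c1 * T ≤ |u| → |u| ≤ c2 * T → ‖N1 Ψ b (Real.log T) u - N2 Ψ b κ (Real.log T) u‖ ≤ C / T ^ K := by
  obtain ⟨X, hX0, hX⟩ := exists_TF h.cd h.cs
  obtain ⟨M, R, CF, hF⟩ := Ff_DQ b hκ
  have hc : (1:ℝ) / 2 ≤ 1 + 4 * κ := by linarith
  set n : ℕ := K + 2 * M + ⌈X * (1 / 2 + 4 * κ)⌉₊ with hn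
  obtain ⟨Ca, hCa, ha⟩ := shift_q hX hX0 hF (one_DQ (c := 1 + 4 * κ) (R := R) (M := M)) hc n
  obtain ⟨Cb, hCb, hb⟩ := shift_q hX hX0 (one_DQ (c := 1 + 4 * κ) (R := R) (M := M)) hF hc n
  have hc2 : 0 < c2 := by linarith
  refine ⟨(Ca + Cb) * (1 + c2) ^ (2 * M) / c1 ^ n, max (Real.exp 1) (max 1 (2 * R) / c1),
    by positivity, le_max_left _ _, fun T u hT h1 h2 => ?_⟩
  have hTe : Real.exp 1 ≤ T := (le_max_left _ _).trans hT
  have hT1 : 1 ≤ T := by have := Real.add_one_le_exp 1; linarith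
  have hT0 : 0 < T := by linarith
  have hL : 1 ≤ Real.log T := by rwa [Real.le_log_iff_exp_le hT0]
  have hU : max 1 (2 * R) ≤ c1 * T := by
    have := (le_max_right _ _).trans hT
    rw [div_le_iff₀ hc1] at this
    linarith
  have hU1 : 1 ≤ c1 * T := (le_max_left _ _).trans hU
  have hUR : 2 * R ≤ c1 * T := (le_max_right _ _).trans hU
  -- the common bound
  have hbd : ∀ C' : ℝ, 0 ≤ C' → C' * (Real.exp (X * (Real.log T * (1 + 4 * κ - 1 / 2))) *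
      (1 + |u|) ^ (2 * M)) / (c1 * T) ^ n ≤ C' * (1 + c2) ^ (2 * M) / c1 ^ n / T ^ K := by
    intro C' hC'
    have e1 : Real.exp (X * (Real.log T * (1 + 4 * κ - 1 / 2))) ≤ T ^ ⌈X * (1 / 2 + 4 * κ)⌉₊ := by
      rw [exp_rpow hT0, ← Real.rpow_natCast]
      refine Real.rpow_le_rpow_of_exponent_le hT1 ?_
      refine le_trans (le_of_eq ?_) (Nat.le_ceil _)
      ring
    have e2 : (1 + |u|) ^ (2 * M) ≤ ((1 + c2) * T) ^ (2 * M) := by
      gcongr
      nlinarith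
    have e3 : (c1 * T) ^ n = c1 ^ n * (T ^ K * T ^ (2 * M) * T ^ ⌈X * (1 / 2 + 4 * κ)⌉₊) := by
      rw [mul_pow, hn, pow_add T, pow_add T]
    rw [e3]
    calc _ ≤ C' * (T ^ ⌈X * (1 / 2 + 4 * κ)⌉₊ * ((1 + c2) * T) ^ (2 * M)) /
          (c1 ^ n * (T ^ K * T ^ (2 * M) * T ^ ⌈X * (1 / 2 + 4 * κ)⌉₊)) := by gcongr
      _ = _ := by
          rw [mul_pow]
          field_simp
  have hfin : (Ca + Cb) * (1 + c2) ^ (2 * M) / c1 ^ n / T ^ K =
      Ca * (1 + c2) ^ (2 * M) / c1 ^ n / T ^ K + Cb * (1 + c2) ^ (2 * M) / c1 ^ n / T ^ K := by ring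
  have p1 : 0 ≤ Ca * (1 + c2) ^ (2 * M) / c1 ^ n / T ^ K := by positivity
  have p2 : 0 ≤ Cb * (1 + c2) ^ (2 * M) / c1 ^ n / T ^ K := by positivity
  have hR' : 0 ≤ |u| := abs_nonneg u
  rcases le_total 0 u with h0 | h0
  · have g := ha (Real.log T) (c1 * T) |u| hL hU1 hUR h1
    have g2 := hbd Ca hCa
    rw [abs_of_nonneg h0] at g g2
    rw [N1_I0, N2_K0]
    refine g.trans (g2.trans ?_)
    rw [hfin]; linarith
  · have g := hb (Real.log T) (c1 * T) |u| hL hU1 hUR h1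
    have g2 := hbd Cb hCb
    have e : u = -|u| := by rw [abs_of_nonpos h0, neg_neg]
    rw [show N1 Ψ b (Real.log T) u = I0 Ψ (fun _ => 1) (Ff b) (Real.log T) |u| by
      conv_lhs => rw [e]
      rw [N1_I0'],
      show N2 Ψ b κ (Real.log T) u = K0 Ψ (fun _ => 1) (Ff b) (1 + 4 * κ) (Real.log T) |u| by
      conv_lhs => rw [e]
      rw [N2_K0']]
    refine g.trans (g2.trans ?_)
    rw [hfin]; linarith

lemma w1_zero (b : Bool) (L u : ℝ) {s : ℂ} (hs : 0 ≤ s.re) : w1 Ψ b L 0 u s = 0 := by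
  unfold w1
  have : (((0:ℕ) : ℂ)) ^ (-(1 / 2 + s + u * I)) = 0 := by
    rw [Nat.cast_zero]
    refine Complex.zero_cpow ?_
    intro h0
    have := congrArg Complex.re h0
    simp at this
    linarith
  rw [this, mul_zero, mul_zero]

lemma W1_zero (b : Bool) (L u : ℝ) {x : ℝ} (hx : 0 ≤ x) : W1 Ψ b x L 0 u = 0 := by
  unfold W1
  have : (fun y : ℝ => w1 Ψ b L 0 u ((x : ℂ) + y * I)) = fun _ => 0 := by
    funext y
    exact w1_zero b L u (by simpa using hx)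
  rw [this, integral_zero]

lemma W1_norm_sum (h : TF ξ1 Ψ) (b : Bool) {κ : ℝ} (hκ : 0 < κ) {L : ℝ} (hL : 1 ≤ L) (u : ℝ) :
    Summable fun n : ℕ => ∫ y : ℝ, ‖w1 Ψ b L n u (((1 / 2 + 4 * κ : ℝ) : ℂ) + y * I)‖ := by
  obtain ⟨C, hC, hb⟩ := w1_dec h b (x := 1 / 2 + 4 * κ) (Or.inr (by linarith)) (0 + 2)
  have hs : Summable (fun n : ℕ => C * (Real.exp (ξ1 * (L * (1 / 2 + 4 * κ))) *
      (1 + |u|) ^ (fb b * (1 / 2 + 4 * κ)) * (n : ℝ) ^ (-(1 / 2 + (1 / 2 + 4 * κ)))) * J2) := by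
    refine Summable.mul_right _ (Summable.mul_left _ (Summable.mul_left _ ?_))
    exact Real.summable_nat_rpow.2 (by linarith)
  refine Summable.of_nonneg_of_le (fun n => integral_nonneg fun _ => norm_nonneg _) (fun n => ?_) hs
  rcases Nat.eq_zero_or_pos n with hn | hn
  · subst hn
    have : (fun y : ℝ => ‖w1 Ψ b L 0 u ((((1 / 2 + 4 * κ : ℝ) : ℂ)) + y * I)‖) = fun _ => 0 := by
      funext y
      rw [w1_zero b L u (by simp; positivity), norm_zero]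
    rw [this, integral_zero]
    have := J2_nonneg
    positivity
  · unfold J2
    rw [← integral_const_mul]
    refine integral_mono_of_nonneg (Eventually.of_forall fun _ => norm_nonneg _)
      (one_add_inv_sq_int.const_mul _) (Eventually.of_forall fun y => ?_)
    exact decay_le (n := 0) (by positivity) (fun y => hb L u y n hL hn) y

theorem N2_hasSum (h : TF ξ1 Ψ) (b : Bool) {κ : ℝ} (hκ : 0 < κ) {L : ℝ} (hL : 1 ≤ L) (u : ℝ) :
    HasSum (fun n : ℕ => W1 Ψ b (1 / 2 + 4 * κ) L n u) (N2 Ψ b κ L u) := by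
  have hAd : Ad (1 / 2 + 4 * κ) := Or.inr (by linarith)
  have hint : ∀ n : ℕ, Integrable (fun y : ℝ => w1 Ψ b L n u (((1 / 2 + 4 * κ : ℝ) : ℂ) + y * I)) := by
    intro n
    rcases Nat.eq_zero_or_pos n with hn | hn
    · subst hn
      have : (fun y : ℝ => w1 Ψ b L 0 u ((((1 / 2 + 4 * κ : ℝ) : ℂ)) + y * I)) = fun _ => 0 := by
        funext y
        exact w1_zero b L u (by simp; positivity)
      rw [this]
      exact integrable_zero _ _ _
    · exact w1_int h b hAd hL hn u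
  have key := hasSum_integral_of_summable_integral_norm hint (W1_norm_sum h b hκ hL u)
  have e : N2 Ψ b κ L u = ∫ y : ℝ, ∑' n : ℕ, w1 Ψ b L n u (((1 / 2 + 4 * κ : ℝ) : ℂ) + y * I) := by
    unfold N2
    congr 1; funext y
    set w : ℂ := ((1 + 4 * κ : ℝ) : ℂ) + (y + u : ℝ) * I with hw
    have hwre : w.re = 1 + 4 * κ := by simp [hw]
    have hw1 : 1 < w.re := by rw [hwre]; linarith
    have hne : w ≠ 1 := by
      intro h0
      rw [h0] at hw1
      simp at hw1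
    have hwe : (1 / 2 + ((((1 / 2 + 4 * κ : ℝ) : ℂ)) + y * I) + u * I) = w := by
      rw [hw]; push_cast; ring
    unfold w1
    rw [hwe, tsum_mul_left, tsum_mul_left, Ff_eq b (by linarith) hne]
    congr 2
    rw [zeta_eq_tsum_one_div_nat_cpow hw1]
    refine tsum_congr fun n => ?_
    rw [Complex.cpow_neg, one_div]
  rw [e]
  exact key

end

end Pool.Agent.TH612.MD
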