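import Pool.Agent.TH612.MD.Ns

set_option autoImplicit false

/-! The off-diagonal integrals in several variables. -/

namespace Pool.Agent.TH612.MD

open Complex Filter Topology MeasureTheory Set
open scoped ContDiff ComplexConjugate
open Pool.Agent.W182.KO Pool.Agent.TH612.CF

noncomputable section

section multi

variable {ι : Type*} [Fintype ι]

lemma prodint {G : ℝ → (ι → ℝ) → ℂ} (hG : AEStronglyMeasurable (fun p : ℝ × (ι → ℝ) => G p.1 p.2)
    (volume.prod volume)) {a b B : ℝ} (hb : ∀ᵐ p : ℝ × (ι → ℝ) ∂(volume.prod volume),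
      p.1 ∈ Ioc a b → ‖G p.1 p.2‖ ≤ B * JI p.2) :
    Integrable (fun p : ℝ × (ι → ℝ) => G p.1 p.2) ((volume.restrict (Ioc a b)).prod volume) := by
  have h1 : Integrable (fun p : ℝ × (ι → ℝ) => B * JI p.2)
      ((volume.restrict (Ioc a b)).prod volume) := by
    have : Integrable (fun _ : ℝ => B) (volume.restrict (Ioc a b)) := by
      refine integrable_const_iff.2 (Or.inr ?_)
      exact ⟨by simp⟩
    exact this.mul_prod JI_int
  have h2 : (volume.restrict (Ioc a b)).prod (volume : Measure (ι → ℝ)) =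
      ((volume : Measure ℝ).prod (volume : Measure (ι → ℝ))).restrict (Ioc a b ×ˢ univ) := by
    rw [← Measure.prod_restrict, Measure.restrict_univ]
  rw [h2] at h1 ⊢
  refine h1.mono' hG.restrict ?_
  rw [ae_restrict_iff' (measurableSet_Ioc.prod MeasurableSet.univ)]
  filter_upwards [hb] with p hp hmem
  exact hp hmem.1

lemma prodintC {G : ℝ → (ι → ℝ) → ℂ} {a b B : ℝ}
    (hG : ContinuousOn (fun p : ℝ × (ι → ℝ) => G p.1 p.2) (Ioc a b ×ˢ univ))
    (hb : ∀ᵐ y : ι → ℝ, ∀ t ∈ Ioc a b, ‖G t y‖ ≤ B * JI y) :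
    Integrable (fun p : ℝ × (ι → ℝ) => G p.1 p.2) ((volume.restrict (Ioc a b)).prod volume) := by
  have h1 : Integrable (fun p : ℝ × (ι → ℝ) => B * JI p.2)
      ((volume.restrict (Ioc a b)).prod volume) := by
    have : Integrable (fun _ : ℝ => B) (volume.restrict (Ioc a b)) := by
      refine integrable_const_iff.2 (Or.inr ?_)
      exact ⟨by simp⟩
    exact this.mul_prod JI_int
  have h2 : (volume.restrict (Ioc a b)).prod (volume : Measure (ι → ℝ)) =
      ((volume : Measure ℝ).prod (volume : Measure (ι → ℝ))).restrict (Ioc a b ×ˢ univ) := by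
    rw [← Measure.prod_restrict, Measure.restrict_univ]
  rw [h2] at h1 ⊢
  refine h1.mono' (hG.aestronglyMeasurable (measurableSet_Ioc.prod MeasurableSet.univ)) ?_
  rw [ae_restrict_iff' (measurableSet_Ioc.prod MeasurableSet.univ)]
  have h3 : ∀ᵐ p : ℝ × (ι → ℝ) ∂((volume : Measure ℝ).prod (volume : Measure (ι → ℝ))),
      ∀ t ∈ Ioc a b, ‖G t p.2‖ ≤ B * JI p.2 := Measure.quasiMeasurePreserving_snd.ae hb
  filter_upwards [h3] with p hp hmem
  exact hp p.1 hmem.1

lemma swapI {G : ℝ → (ι → ℝ) → ℂ} {a b : ℝ} (hab : a ≤ b)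
    (hi : Integrable (fun p : ℝ × (ι → ℝ) => G p.1 p.2) ((volume.restrict (Ioc a b)).prod volume)) :
    ∫ t in a..b, ∫ y, G t y = ∫ y, ∫ t in a..b, G t y := by
  simp only [intervalIntegral.integral_of_le hab]
  exact integral_integral_swap hi

/-- product of the factors of the functional equation -/
def HY (b : ι → Bool) (σ : ι → ℝ) (y : ι → ℝ) (z : ℂ) : ℂ :=
  ∏ i, Xf (b i) (1 / 2 + I * (σ i * (z + y i)))

/-- balanced data -/
def Bal (b : ι → Bool) (σ : ι → ℝ) : Prop :=
  (∀ i, σ i = 1 ∨ σ i = -1) ∧ ∀ z : ℂ, 1 ≤ z.re → ∏ i, Xf (b i) (1 / 2 + I * (σ i * z)) = 1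

/-- product of `1 + |y i|` -/
def YY (y : ι → ℝ) : ℝ := ∏ i, (1 + |y i|)

lemma YY_one (y : ι → ℝ) : 1 ≤ YY y := by
  unfold YY
  exact Finset.one_le_prod fun i _ => by have := abs_nonneg (y i); linarith

lemma le_YY (y : ι → ℝ) (i : ι) : 1 + |y i| ≤ YY y := by
  classical
  unfold YY
  rw [← Finset.mul_prod_erase _ _ (Finset.mem_univ i)]
  refine le_mul_of_one_le_right (by positivity) ?_
  exact Finset.one_le_prod fun j _ => by have := abs_nonneg (y j); linarith

end multi

lemma XX_diffI {z : ℂ} (hz : 1 ≤ z.im) : DifferentiableAt ℂ XX z ∧ DifferentiableAt ℂ XX (conj z) := by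
  have h1 := (XX_hd hz)
  refine ⟨h1.differentiableAt, ?_⟩
  have h2 := h1.conj_conj
  have e2 : (conj ∘ XX ∘ conj : ℂ → ℂ) = XX := by
    funext z
    simp only [Function.comp]
    rw [XX_conj, Complex.conj_conj]
  rw [e2] at h2
  exact h2.differentiableAt

lemma conj_half (z : ℂ) (y : ℝ) : conj (1 / 2 + I * (conj z + y)) = 1 / 2 + I * (((-1:ℝ) : ℂ) * (z + y)) := by
  simp only [map_add, map_mul, map_div₀, map_one, map_ofNat, conj_I, conj_ofReal, Complex.conj_conj]
  push_cast; ring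

lemma Xf_ratio (b : Bool) {σ : ℝ} (hσ : σ = 1 ∨ σ = -1) {t0 y : ℝ} {z : ℂ} (ht : 64 ≤ t0)
    (hy : |y| ≤ t0 / 16) (h : ‖z - t0‖ * (1 + |y|) ≤ t0 / 16) :
    ‖Xf b (1 / 2 + I * (σ * (z + y)))‖ ≤ Real.exp 4 * ‖Xf b (1 / 2 + I * (σ * z))‖ ∧
    DifferentiableAt ℂ (fun z : ℂ => Xf b (1 / 2 + I * (σ * (z + y)))) z := by
  unfold Xf
  cases b with
  | false =>
    simp only [Bool.false_eq_true, if_false]
    refine ⟨?_, differentiableAt_const 1⟩
    rw [norm_one, mul_one]
    exact Real.one_le_exp (by norm_num)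
  | true =>
    simp only [if_true]
    have hyn := abs_nonneg y
    have hrn := norm_nonneg (z - t0)
    have hr : ‖z - t0‖ ≤ t0 / 16 := by nlinarith
    have hre : 1 ≤ z.re + y := by
      have h2 := Complex.abs_re_le_norm (z - t0)
      have h3 : (z - (t0 : ℂ)).re = z.re - t0 := by simp
      rw [h3] at h2
      have h4 := (abs_le.1 (h2.trans hr)).1
      have h5 := (abs_le.1 hy).1
      linarith
    rcases hσ with rfl | rfl
    · constructor
      · have := XX_ratio ht hy h
        simpa using this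
      · have h1 := (XX_diffI (z := 1 / 2 + I * (((1:ℝ) : ℂ) * (z + y))) (by simpa using hre)).1
        exact DifferentiableAt.comp z (f := fun z : ℂ => 1 / 2 + I * (((1:ℝ) : ℂ) * (z + y))) h1
          (by fun_prop)
    · constructor
      · have h1 : ‖conj z - t0‖ = ‖z - t0‖ := by
          rw [← Complex.norm_conj (z - t0), map_sub, conj_ofReal]
        have := XX_ratio (t := conj z) ht hy (by rw [h1]; exact h)
        rw [← Complex.norm_conj (XX (1 / 2 + I * (conj z + y))), ← XX_conj, conj_half,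
          ← Complex.norm_conj (XX (1 / 2 + I * conj z)), ← XX_conj] at this
        have e := conj_half z 0
        simp only [ofReal_zero, add_zero] at e
        rw [e] at this
        exact this
      · have h1 := (XX_diffI (z := 1 / 2 + I * (conj z + y)) (by simpa using hre)).2
        rw [conj_half] at h1
        exact DifferentiableAt.comp z (f := fun z : ℂ => 1 / 2 + I * (((-1:ℝ) : ℂ) * (z + y))) h1
          (by fun_prop)

section multi

variable {ι : Type*} [Fintype ι]

lemma HY_bd {b : ι → Bool} {σ : ι → ℝ} (hb : Bal b σ) {t0 : ℝ} {y : ι → ℝ} {z : ℂ} (ht : 64 ≤ t0)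
    (hy : ∀ i, |y i| ≤ t0 / 16) (h : ∀ i, ‖z - t0‖ * (1 + |y i|) ≤ t0 / 16) (hz : 1 ≤ z.re) :
    DifferentiableAt ℂ (HY b σ y) z ∧ ‖HY b σ y z‖ ≤ Real.exp 4 ^ Fintype.card ι := by
  constructor
  · unfold HY
    exact DifferentiableAt.fun_finsetProd fun i _ => (Xf_ratio (b i) (hb.1 i) ht (hy i) (h i)).2
  · unfold HY
    rw [norm_prod]
    calc _ ≤ ∏ i, (Real.exp 4 * ‖Xf (b i) (1 / 2 + I * (σ i * z))‖) :=
          Finset.prod_le_prod (fun _ _ => norm_nonneg _) fun i _ =>
            (Xf_ratio (b i) (hb.1 i) ht (hy i) (h i)).1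
      _ = _ := by
          rw [Finset.prod_mul_distrib, Finset.prod_const, Finset.card_univ, ← norm_prod, hb.2 z hz,
            norm_one, mul_one]

lemma Xf_half (b : Bool) (u : ℝ) : ‖Xf b (1 / 2 + I * u)‖ = 1 := by
  unfold Xf
  split_ifs
  · rw [XX_H, mul_comm I]
    exact H345.norm_XX_half u
  · exact norm_one

lemma HY_real (b : ι → Bool) (σ y : ι → ℝ) (t : ℝ) : ‖HY b σ y t‖ = 1 := by
  unfold HY
  rw [norm_prod]
  refine Finset.prod_eq_one fun i _ => ?_
  have : (1 / 2 + I * (σ i * ((t : ℂ) + y i))) = 1 / 2 + I * ((σ i * (t + y i) : ℝ) : ℂ) := by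
    push_cast; ring
  rw [this]
  exact Xf_half _ _

variable {c1 c2 : ℝ} {w : ℝ → ℂ}

/-- the inner integral -/
theorem inner (hw : WT c1 c2 w) (hc1 : 0 < c1) (hc12 : c1 ≤ c2) {b : ι → Bool} {σ : ι → ℝ}
    (hb : Bal b σ) (J : ℕ) : ∃ C : ℝ, 0 ≤ C ∧ ∀ (T θ Θ : ℝ) (y : ι → ℝ), 64 ≤ T → 128 ≤ c1 * T →
      0 < θ → θ ≤ 1 → θ ≤ |Θ| →
      ‖∫ t in (c1 * T)..(c2 * T), w (t / T) * HY b σ y t * exp (-(I * Θ * t))‖ ≤
        C * T * (YY y / (T * θ)) ^ J := by
  obtain ⟨C, hC, hosc⟩ := osc_J hc12 J hw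
  obtain ⟨C0, hC0, hb0⟩ := hw.bdd
  set E : ℝ := Real.exp 4 ^ Fintype.card ι with hE
  have hE0 : 0 ≤ E := by positivity
  set d : ℝ := min 1 (c1 / (16 * (J + 1))) with hd
  have hd0 : 0 < d := by positivity
  have hd1 : d ≤ 1 := min_le_left _ _
  have hd2 : d * (J + 1) ≤ c1 / 16 := by
    have := min_le_right 1 (c1 / (16 * ((J:ℝ) + 1)))
    calc d * (J + 1) ≤ c1 / (16 * (J + 1)) * (J + 1) := by gcongr
      _ = c1 / 16 := by field_simp
  refine ⟨C * E * (1 / d) ^ J + C0 * (c2 - c1) * (16 / c1) ^ J, by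
    have : 0 ≤ c2 - c1 := by linarith
    positivity, fun T θ Θ y hT hcT hθ hθ1 hΘ => ?_⟩
  have hT0 : 0 < T := by linarith
  have hY1 := YY_one y
  have hY0 : 0 < YY y := by linarith
  have hle : c1 * T ≤ c2 * T := by gcongr
  have hΘ0 : Θ ≠ 0 := by
    intro h0
    rw [h0, abs_zero] at hΘ
    linarith
  have hcc : 0 ≤ c2 - c1 := by linarith
  have q1 : 0 ≤ C * E * (1 / d) ^ J * T * (YY y / (T * θ)) ^ J := by positivity
  have q2 : 0 ≤ C0 * (c2 - c1) * (16 / c1) ^ J * T * (YY y / (T * θ)) ^ J := by positivity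
  have hsplit : (C * E * (1 / d) ^ J + C0 * (c2 - c1) * (16 / c1) ^ J) * T * (YY y / (T * θ)) ^ J =
    C * E * (1 / d) ^ J * T * (YY y / (T * θ)) ^ J +
      C0 * (c2 - c1) * (16 / c1) ^ J * T * (YY y / (T * θ)) ^ J := by ring
  rw [hsplit]
  rcases le_total (YY y) (c1 * T / 16) with hY | hY
  · -- main case
    set ρ : ℝ := d * T / YY y with hρ
    have hρ0 : 0 < ρ := by positivity
    have hρT : ρ ≤ T := by
      rw [hρ, div_le_iff₀ hY0]
      nlinarith
    have key := hosc T ρ Θ E (HY b σ y) hT0 hρ0 hρT hΘ0 hE0 (fun t0 h1 h2 z hz => ?_)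
    · refine key.trans (le_trans ?_ (le_add_of_nonneg_right q2))
      have h3 : (θ * ρ) ^ J ≤ (|Θ| * ρ) ^ J := by gcongr
      calc C * T * E / (|Θ| * ρ) ^ J ≤ C * T * E / (θ * ρ) ^ J := by gcongr
        _ = _ := by
          rw [hρ]
          simp only [div_pow, mul_pow, one_div, inv_pow]
          field_simp
    · have hJ0 : (0:ℝ) ≤ J := Nat.cast_nonneg J
      have hz' : ‖z - t0‖ * YY y ≤ t0 / 16 := by
        calc ‖z - t0‖ * YY y ≤ J * ρ * YY y := by gcongr
          _ = J * d * T := by rw [hρ]; field_simp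
          _ ≤ (J + 1) * d * T := by gcongr; linarith
          _ = (d * (J + 1)) * T := by ring
          _ ≤ c1 / 16 * T := by gcongr
          _ ≤ t0 / 16 := by linarith
      have hr : ‖z - t0‖ ≤ t0 / 16 := by
        have := norm_nonneg (z - t0)
        nlinarith
      refine HY_bd hb (t0 := t0) (by linarith) (fun i => ?_) (fun i => ?_) ?_
      · have := le_YY y i
        linarith
      · refine le_trans ?_ hz'
        have := le_YY y i
        gcongr
      · have h5 := Complex.abs_re_le_norm (z - t0)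
        have h6 : (z - (t0 : ℂ)).re = z.re - t0 := by simp
        rw [h6] at h5
        have := (abs_le.1 (h5.trans hr)).1
        linarith
  · -- trivial case
    have h1 := intervalIntegral.norm_integral_le_of_norm_le_const (a := c1 * T) (b := c2 * T)
      (f := fun t : ℝ => w (t / T) * HY b σ y t * exp (-(I * Θ * t))) (C := C0) (fun t _ => by
        have h3 : ‖exp (-(I * Θ * t))‖ = 1 := by
          have : -(I * Θ * t) = ((-(Θ * t) : ℝ) : ℂ) * I := by push_cast; ring
          rw [this, Complex.norm_exp_ofReal_mul_I]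
        rw [norm_mul, norm_mul, h3, mul_one, HY_real, mul_one]
        exact hb0 _)
    refine h1.trans (le_trans ?_ (le_add_of_nonneg_left q1))
    have e1 : |c2 * T - c1 * T| = (c2 - c1) * T := by
      rw [abs_of_nonneg (by linarith)]; ring
    rw [e1]
    have h4 : 1 ≤ 16 / c1 * (YY y / (T * θ)) := by
      rw [div_mul_div_comm, one_le_div (by positivity)]
      nlinarith
    have h5 : (1:ℝ) ≤ (16 / c1) ^ J * (YY y / (T * θ)) ^ J := by
      rw [← mul_pow]
      exact one_le_pow₀ h4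
    calc C0 * ((c2 - c1) * T) = C0 * (c2 - c1) * T * 1 := by ring
      _ ≤ C0 * (c2 - c1) * T * ((16 / c1) ^ J * (YY y / (T * θ)) ^ J) := by gcongr
      _ = _ := by ring

end multi

end

end Pool.Agent.TH612.MD
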