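import Pool.Agent.TH612.MD.L1

set_option autoImplicit false

/-! Repeated integration by parts against a holomorphic amplitude. -/

namespace Pool.Agent.TH612.MD

open Complex Filter Topology MeasureTheory Set
open scoped ContDiff
open Pool.Agent.W182.KO Pool.Agent.TH612.CF

noncomputable section

/-- smooth weights supported in `[c1, c2]` -/
structure WT (c1 c2 : ℝ) (w : ℝ → ℂ) : Prop where
  cd : ContDiff ℝ ∞ w
  z1 : ∀ x, x ≤ c1 → w x = 0
  z2 : ∀ x, c2 ≤ x → w x = 0

variable {c1 c2 : ℝ} {w : ℝ → ℂ}

lemma WT.cont (h : WT c1 c2 w) : Continuous w := h.cd.continuous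

lemma WT.diff (h : WT c1 c2 w) : Differentiable ℝ w := h.cd.differentiable (by simp)

lemma WT.deriv (h : WT c1 c2 w) : WT c1 c2 (deriv w) := by
  have hcd : ContDiff ℝ ∞ (_root_.deriv w) := ((contDiff_infty_iff_deriv (𝕜 := ℝ)).1 h.cd).2
  have hc : Continuous (_root_.deriv w) := hcd.continuous
  have hcl : IsClosed {x | _root_.deriv w x = 0} := isClosed_eq hc continuous_const
  refine ⟨hcd, fun x hx => ?_, fun x hx => ?_⟩
  · have h1 : Iio c1 ⊆ {x | _root_.deriv w x = 0} := by
      intro y hy
      have h2 : w =ᶠ[𝓝 y] fun _ => 0 := by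
        filter_upwards [Iio_mem_nhds hy] with u hu using h.z1 u (le_of_lt hu)
      show _root_.deriv w y = 0
      rw [h2.deriv_eq, deriv_const]
    have h3 := closure_minimal h1 hcl
    rw [closure_Iio] at h3
    exact h3 hx
  · have h1 : Ioi c2 ⊆ {x | _root_.deriv w x = 0} := by
      intro y hy
      have h2 : w =ᶠ[𝓝 y] fun _ => 0 := by
        filter_upwards [Ioi_mem_nhds hy] with u hu using h.z2 u (le_of_lt hu)
      show _root_.deriv w y = 0
      rw [h2.deriv_eq, deriv_const]
    have h3 := closure_minimal h1 hcl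
    rw [closure_Ioi] at h3
    exact h3 hx

lemma WT.bdd (h : WT c1 c2 w) : ∃ C : ℝ, 0 ≤ C ∧ ∀ x, ‖w x‖ ≤ C := by
  obtain ⟨C, hC⟩ := (isCompact_Icc (a := c1) (b := c2)).exists_bound_of_continuousOn h.cont.continuousOn
  refine ⟨max C 0, le_max_right _ _, fun x => ?_⟩
  rcases le_total x c1 with h1 | h1
  · rw [h.z1 x h1, norm_zero]; exact le_max_right _ _
  rcases le_total c2 x with h2 | h2
  · rw [h.z2 x h2, norm_zero]; exact le_max_right _ _
  · exact (hC x ⟨h1, h2⟩).trans (le_max_left _ _)

/-- the `J`-fold integration by parts -/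
theorem osc_J (hc12 : c1 ≤ c2) : ∀ (J : ℕ) {w : ℝ → ℂ}, WT c1 c2 w → ∃ C : ℝ, 0 ≤ C ∧
    ∀ (T ρ Θ M : ℝ) (H : ℂ → ℂ), 0 < T → 0 < ρ → ρ ≤ T → Θ ≠ 0 → 0 ≤ M →
      (∀ t0 : ℝ, c1 * T ≤ t0 → t0 ≤ c2 * T → ∀ z : ℂ, ‖z - t0‖ ≤ J * ρ →
        DifferentiableAt ℂ H z ∧ ‖H z‖ ≤ M) →
      ‖∫ t in (c1 * T)..(c2 * T), w (t / T) * H t * exp (-(I * Θ * t))‖ ≤ C * T * M / (|Θ| * ρ) ^ J
  | 0, w, hw => by
      obtain ⟨C, hC, hb⟩ := hw.bdd
      refine ⟨C * (c2 - c1), mul_nonneg hC (by linarith), fun T ρ Θ M H hT hρ hρT hΘ hM hH => ?_⟩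
      have hle : c1 * T ≤ c2 * T := by gcongr
      have h1 := intervalIntegral.norm_integral_le_of_norm_le_const (a := c1 * T) (b := c2 * T)
        (f := fun t : ℝ => w (t / T) * H t * exp (-(I * Θ * t))) (C := C * M) (fun t ht => by
          rw [uIoc_of_le hle] at ht
          have h2 := (hH t ht.1.le ht.2 t (by simp)).2
          have h3 : ‖exp (-(I * Θ * t))‖ = 1 := by
            have : -(I * Θ * t) = ((-(Θ * t) : ℝ) : ℂ) * I := by push_cast; ring
            rw [this, Complex.norm_exp_ofReal_mul_I]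
          rw [norm_mul, norm_mul, h3, mul_one]
          have := hb (t / T)
          gcongr)
      refine h1.trans (le_of_eq ?_)
      rw [abs_of_nonneg (by linarith), pow_zero, div_one]
      ring
  | J + 1, w, hw => by
      obtain ⟨C, hC, hb⟩ := osc_J hc12 J hw
      obtain ⟨C', hC', hb'⟩ := osc_J hc12 J hw.deriv
      refine ⟨C + C', by positivity, fun T ρ Θ M H hT hρ hρT hΘ hM hH => ?_⟩
      have hle : c1 * T ≤ c2 * T := by gcongr
      have hΘc : (Θ : ℂ) ≠ 0 := by exact_mod_cast hΘ
      have hcast : (((J + 1 : ℕ) : ℝ)) * ρ = J * ρ + ρ := by push_cast; ring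
      -- holomorphy
      have hball : ∀ t0 : ℝ, c1 * T ≤ t0 → t0 ≤ c2 * T →
          DifferentiableOn ℂ H (Metric.ball (t0 : ℂ) (J * ρ + ρ)) := by
        intro t0 h1 h2 z hz
        rw [Metric.mem_ball, dist_eq_norm] at hz
        exact (hH t0 h1 h2 z (by rw [hcast]; exact hz.le)).1.differentiableWithinAt
      have hder : ∀ t0 : ℝ, c1 * T ≤ t0 → t0 ≤ c2 * T → ∀ z : ℂ, ‖z - t0‖ ≤ J * ρ →
          DifferentiableAt ℂ (deriv H) z ∧ ‖deriv H z‖ ≤ M / ρ := by
        intro t0 h1 h2 z hz
        constructor
        · refine ((hball t0 h1 h2).deriv Metric.isOpen_ball).differentiableAt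
            (Metric.isOpen_ball.mem_nhds ?_)
          rw [Metric.mem_ball, dist_eq_norm]
          linarith
        · refine Complex.norm_deriv_le_of_forall_mem_sphere_norm_le hρ ?_ fun u hu => ?_
          · refine DifferentiableOn.diffContOnCl fun u hu => ?_
            have hu' := Metric.closure_ball_subset_closedBall hu
            rw [Metric.mem_closedBall, dist_eq_norm] at hu'
            refine (hH t0 h1 h2 u ?_).1.differentiableWithinAt
            rw [hcast]
            calc ‖u - t0‖ = ‖(u - z) + (z - t0)‖ := by congr 1; ring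
              _ ≤ ‖u - z‖ + ‖z - t0‖ := norm_add_le _ _
              _ ≤ _ := by linarith
          · rw [mem_sphere_iff_norm] at hu
            refine (hH t0 h1 h2 u ?_).2
            rw [hcast]
            calc ‖u - t0‖ = ‖(u - z) + (z - t0)‖ := by congr 1; ring
              _ ≤ ‖u - z‖ + ‖z - t0‖ := norm_add_le _ _
              _ ≤ _ := by linarith
      have g1 := hb T ρ Θ (M / ρ) (deriv H) hT hρ hρT hΘ (by positivity) hder
      have g2 := hb' T ρ Θ M H hT hρ hρT hΘ hM fun t0 h1 h2 z hz => hH t0 h1 h2 z (by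
        rw [hcast]; linarith)
      -- integration by parts
      set u : ℝ → ℂ := fun t => w (t / T) * H t with hu
      set u' : ℝ → ℂ := fun t => deriv w (t / T) * (1 / T) * H t + w (t / T) * deriv H t with hu'
      set v : ℝ → ℂ := fun t => exp (-(I * Θ * t)) / (-(I * Θ)) with hv
      set v' : ℝ → ℂ := fun t => exp (-(I * Θ * t)) with hv'
      have hIΘ : -(I * (Θ : ℂ)) ≠ 0 := neg_ne_zero.2 (mul_ne_zero I_ne_zero hΘc)
      have du : ∀ t ∈ uIcc (c1 * T) (c2 * T), HasDerivAt u (u' t) t := by
        intro t ht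
        rw [uIcc_of_le hle] at ht
        have h1 : HasDerivAt (fun t : ℝ => w (t / T)) (deriv w (t / T) * (1 / T)) t := by
          have h2 : HasDerivAt (fun t : ℝ => t / T) (1 / T) t := (hasDerivAt_id t).div_const T
          have h3 := HasDerivAt.scomp t (hw.diff (t / T)).hasDerivAt h2
          refine h3.congr_deriv ?_
          rw [Complex.real_smul, mul_comm]
          push_cast; rfl
        have h4 : HasDerivAt (fun t : ℝ => H t) (deriv H t) t :=
          (hH t ht.1 ht.2 t (by simp; positivity)).1.hasDerivAt.comp_ofReal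
        exact h1.mul h4
      have dv : ∀ t ∈ uIcc (c1 * T) (c2 * T), HasDerivAt v (v' t) t := by
        intro t _
        have h1 : HasDerivAt (fun t : ℝ => -(I * Θ * (t : ℂ))) (-(I * Θ)) t := by
          have h2 : HasDerivAt (fun t : ℝ => (t : ℂ)) 1 t := Complex.ofRealCLM.hasDerivAt
          have h3 := (h2.const_mul (I * (Θ : ℂ))).neg
          rw [mul_one] at h3
          exact h3
        have h4 := (h1.cexp).div_const (-(I * (Θ : ℂ)))
        refine h4.congr_deriv ?_
        rw [mul_div_assoc, div_self hIΘ, mul_one]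
      have hHc : ContinuousOn (fun t : ℝ => H t) (Icc (c1 * T) (c2 * T)) := fun t ht =>
        ((hH t ht.1 ht.2 t (by simp; positivity)).1.continuousAt.comp
          Complex.continuous_ofReal.continuousAt).continuousWithinAt
      have hHc' : ContinuousOn (fun t : ℝ => deriv H t) (Icc (c1 * T) (c2 * T)) := fun t ht =>
        ((hder t ht.1 ht.2 t (by simp; positivity)).1.continuousAt.comp
          Complex.continuous_ofReal.continuousAt).continuousWithinAt
      have hwc : Continuous (fun t : ℝ => w (t / T)) := hw.cont.comp (by fun_prop)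
      have hwc' : Continuous (fun t : ℝ => deriv w (t / T)) := hw.deriv.cont.comp (by fun_prop)
      have hec : Continuous (fun t : ℝ => exp (-(I * Θ * (t : ℂ)))) := by fun_prop
      have i1 : ContinuousOn (fun t : ℝ => deriv w (t / T) * H t * exp (-(I * Θ * t)))
        (Icc (c1 * T) (c2 * T)) := (hwc'.continuousOn.mul hHc).mul hec.continuousOn
      have i2 : ContinuousOn (fun t : ℝ => w (t / T) * deriv H t * exp (-(I * Θ * t)))
        (Icc (c1 * T) (c2 * T)) := (hwc.continuousOn.mul hHc').mul hec.continuousOn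
      have iu' : IntervalIntegrable u' volume (c1 * T) (c2 * T) := by
        refine ContinuousOn.intervalIntegrable ?_
        rw [uIcc_of_le hle]
        exact ((hwc'.mul continuous_const).continuousOn.mul hHc).add (hwc.continuousOn.mul hHc')
      have iv' : IntervalIntegrable v' volume (c1 * T) (c2 * T) := hec.intervalIntegrable _ _
      have key := intervalIntegral.integral_mul_deriv_eq_deriv_mul du dv iu' iv'
      have z1 : u (c1 * T) = 0 := by
        rw [hu]; simp only
        rw [mul_div_cancel_right₀ _ hT.ne', hw.z1 c1 le_rfl, zero_mul]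
      have z2 : u (c2 * T) = 0 := by
        rw [hu]; simp only
        rw [mul_div_cancel_right₀ _ hT.ne', hw.z2 c2 le_rfl, zero_mul]
      rw [z1, z2, zero_mul, zero_mul, sub_zero, zero_sub] at key
      have e1 : ∫ t in (c1 * T)..(c2 * T), u' t * v t =
          (1 / (-(I * Θ))) * ((1 / T : ℝ) * (∫ t in (c1 * T)..(c2 * T),
            deriv w (t / T) * H t * exp (-(I * Θ * t))) +
          ∫ t in (c1 * T)..(c2 * T), w (t / T) * deriv H t * exp (-(I * Θ * t))) := by
        rw [← intervalIntegral.integral_const_mul, ← intervalIntegral.integral_add,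
          ← intervalIntegral.integral_const_mul]
        · refine intervalIntegral.integral_congr fun t _ => ?_
          simp only [hu', hv]
          push_cast
          field_simp
        · refine ContinuousOn.intervalIntegrable ?_
          rw [uIcc_of_le hle]
          exact continuousOn_const.mul i1
        · refine ContinuousOn.intervalIntegrable ?_
          rw [uIcc_of_le hle]
          exact i2
      rw [e1] at key
      have key2 := congrArg norm key
      rw [norm_neg, norm_mul] at key2
      have e2 : ‖(1 / (-(I * (Θ : ℂ))))‖ = 1 / |Θ| := by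
        rw [norm_div, norm_one, norm_neg, norm_mul, norm_I, one_mul, Complex.norm_real,
          Real.norm_eq_abs]
      rw [e2] at key2
      have e3 : ∫ t in (c1 * T)..(c2 * T), u t * v' t =
          ∫ t in (c1 * T)..(c2 * T), w (t / T) * H t * exp (-(I * Θ * t)) := rfl
      rw [e3] at key2
      rw [key2]
      have hΘp : 0 < |Θ| := abs_pos.2 hΘ
      have g3 : ‖((1 / T : ℝ) : ℂ) * ∫ t in (c1 * T)..(c2 * T),
          deriv w (t / T) * H t * exp (-(I * Θ * t))‖ ≤ (1 / ρ) * (C' * T * M / (|Θ| * ρ) ^ J) := by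
        rw [norm_mul, Complex.norm_real, Real.norm_of_nonneg (by positivity)]
        have : 1 / T ≤ 1 / ρ := one_div_le_one_div_of_le hρ hρT
        gcongr
      calc _ ≤ 1 / |Θ| * ((1 / ρ) * (C' * T * M / (|Θ| * ρ) ^ J) + C * T * (M / ρ) / (|Θ| * ρ) ^ J) := by
            refine mul_le_mul_of_nonneg_left ?_ (by positivity)
            exact (norm_add_le _ _).trans (add_le_add g3 g1)
        _ = _ := by
            rw [pow_succ]
            field_simp
            ring

end

end Pool.Agent.TH612.MD
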