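import Pool.Agent.TH612.MD.Bs

set_option autoImplicit false

/-! Bounds for the swap terms along a generic direction. -/

namespace Pool.Agent.TH612.MD

open Complex Filter Topology MeasureTheory Set
open scoped ContDiff ComplexConjugate
open Pool.Agent.W182.KO hiding ee SS_summable
open Pool.Agent.TH612.CF

noncomputable section

variable {k : ℕ}

/-- admissible directions -/
structure VV (v : Fin k ⊕ Fin k → ℝ) (μ : ℝ) : Prop where
  pos : 0 < μ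
  sep : ∀ p q, p ≠ q → μ ≤ |v p - v q|
  le : ∀ i, |v i| ≤ 1
  low : ∀ i, μ ≤ |v i|

variable {v : Fin k ⊕ Fin k → ℝ} {μ : ℝ}

lemma VV.ne (h : VV v μ) {p q : Fin k ⊕ Fin k} (hpq : p ≠ q) : v p ≠ v q := by
  intro h0
  have := h.sep p q hpq
  rw [h0, sub_self, abs_zero] at this
  linarith [h.pos]

/-- size of the base point -/
def ny (y : Fin k ⊕ Fin k → ℝ) : ℝ := 1 + ∑ i, |y i|

lemma ny_one (y : Fin k ⊕ Fin k → ℝ) : 1 ≤ ny y := by
  unfold ny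
  have : 0 ≤ ∑ i, |y i| := Finset.sum_nonneg fun i _ => abs_nonneg _
  linarith

lemma abs_le_ny (y : Fin k ⊕ Fin k → ℝ) (i : Fin k ⊕ Fin k) : 1 + |y i| ≤ ny y := by
  unfold ny
  have := Finset.single_le_sum (f := fun i => |y i|) (fun j _ => abs_nonneg _) (Finset.mem_univ i)
  linarith

lemma abs2_le_ny (y : Fin k ⊕ Fin k → ℝ) {p q : Fin k ⊕ Fin k} (hpq : p ≠ q) :
    1 + (|y p| + |y q|) ≤ ny y := by
  unfold ny
  have : |y p| + |y q| ≤ ∑ i, |y i| := by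
    calc _ = ∑ i ∈ {p, q}, |y i| := (Finset.sum_pair hpq).symm
      _ ≤ _ := Finset.sum_le_sum_of_subset_of_nonneg (Finset.subset_univ _) fun _ _ _ => abs_nonneg _
  linarith

lemma LRim_le (h : VV v μ) (y : Fin k ⊕ Fin k → ℝ) (s : ℂ) (i : Fin k ⊕ Fin k) :
    |(LR y v s i).im| ≤ |s.re - 1 / 2| := by
  rw [LR_im, abs_neg, abs_mul]
  calc |v i| * |s.re - 1 / 2| ≤ 1 * |s.re - 1 / 2| := by
        have := h.le i
        gcongr
    _ = _ := one_mul _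

lemma LRre_le (h : VV v μ) (y : Fin k ⊕ Fin k → ℝ) (s : ℂ) (i : Fin k ⊕ Fin k) :
    |(LR y v s i).re| ≤ |y i| + |s.im| := by
  rw [LR_re]
  refine (abs_add_le _ _).trans ?_
  rw [abs_mul]
  have h1 : |v i| * |s.im| ≤ 1 * |s.im| := by
    have := h.le i
    gcongr
  linarith

lemma Xt_bdv {K : ℝ} (hK : ∀ x u : ℝ, |x| ≤ 1 / 4 → ‖chi (1 / 2 + (x + u * I))‖ ≤ K * (1 + |u|) ^ (-x))
    (hK1 : 1 ≤ K) (h : VV v μ) (y : Fin k ⊕ Fin k → ℝ) {s : ℂ} (hs : |s.re - 1 / 2| ≤ 1 / 4) {t : ℝ}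
    (ht : 0 ≤ t) (i : Fin k ⊕ Fin k) :
    ‖Xt t (LR y v s i)‖ ≤ K * (ny y * (1 + |s.im|)) * (1 + t) ^ (-(v i * (s.re - 1 / 2))) ∧
    ‖(Xt t (LR y v s i))⁻¹‖ ≤ K * (ny y * (1 + |s.im|)) * (1 + t) ^ (v i * (s.re - 1 / 2)) := by
  set ρ : ℝ := v i * (s.re - 1 / 2) with hρ
  have hρ1 : |ρ| ≤ 1 / 4 := by
    have := LRim_le h y s i
    rw [LR_im, abs_neg, ← hρ] at this
    linarith
  set u : ℝ := t + (y i + v i * s.im) with hu
  have hx : 1 + |y i + v i * s.im| ≤ ny y * (1 + |s.im|) := by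
    have h1 := LRre_le h y s i
    rw [LR_re] at h1
    have h2 := abs_le_ny y i
    have h3 := abs_nonneg s.im
    have h4 := ny_one y
    nlinarith
  have ht' : |t| = t := abs_of_nonneg ht
  have hK0 : 0 ≤ K := by linarith
  have e0 : LR y v s i = (((y i + v i * s.im : ℝ)) : ℂ) + ((-ρ : ℝ) : ℂ) * I := by
    rw [← Complex.re_add_im (LR y v s i), LR_re, LR_im, hρ]
  have e1 : I * t + I * LR y v s i = ((ρ : ℝ) : ℂ) + (u : ℂ) * I := by
    rw [e0, hu]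
    push_cast
    linear_combination (-(ρ : ℂ)) * I_sq
  constructor
  · have h1 := hK ρ u hρ1
    unfold Xt
    rw [e1]
    have h2 := peetre_pow (t := t) (x := y i + v i * s.im) (r := -ρ) (by rw [abs_neg]; linarith)
    rw [← hu, ht'] at h2
    calc _ ≤ K * (1 + |u|) ^ (-ρ) := h1
      _ ≤ K * ((1 + |y i + v i * s.im|) * (1 + t) ^ (-ρ)) := by gcongr
      _ ≤ K * ((ny y * (1 + |s.im|)) * (1 + t) ^ (-ρ)) := by gcongr
      _ = _ := by ring
  · have h1 := hK (-ρ) (-u) (by rw [abs_neg]; exact hρ1)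
    rw [Xt_inv (by rw [LR_im, abs_neg, ← hρ]; linarith)]
    have e2 : 1 / 2 - I * t - I * LR y v s i = 1 / 2 + (((-ρ : ℝ) : ℂ) + ((-u : ℝ) : ℂ) * I) := by
      push_cast
      linear_combination (-1 : ℂ) * e1
    rw [e2]
    have h2 := peetre_pow (t := t) (x := y i + v i * s.im) (r := ρ) (by linarith)
    rw [← hu, ht'] at h2
    rw [abs_neg, neg_neg] at h1
    calc _ ≤ K * (1 + |u|) ^ ρ := h1
      _ ≤ K * ((1 + |y i + v i * s.im|) * (1 + t) ^ ρ) := by gcongr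
      _ ≤ K * ((ny y * (1 + |s.im|)) * (1 + t) ^ ρ) := by gcongr
      _ = _ := by ring

lemma GG_bdv (h : VV v μ) : ∃ K : ℝ, 1 ≤ K ∧
    ∀ (π : Equiv.Perm (Fin k ⊕ Fin k)) (y : Fin k ⊕ Fin k → ℝ) (s : ℂ) (t : ℝ),
      |s.re - 1 / 2| ≤ 1 / 4 → 0 ≤ t →
      ‖GG t (LR y v s) π‖ ≤ K * (ny y * (1 + |s.im|)) ^ (2 * k) * (1 + t) ^ (ee v π * (s.re - 1 / 2)) := by
  obtain ⟨K, hK1, hK⟩ := chi_le
  refine ⟨K ^ (2 * k), one_le_pow₀ hK1, fun π y s t hs ht => ?_⟩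
  have h1t : 0 < 1 + t := by linarith
  have him : ∀ i, |(LR y v s i).im| < 1 / 2 := fun i => by
    have := LRim_le h y s i
    linarith
  have hK0 : 0 ≤ K := by linarith
  have hn := ny_one y
  rw [GG_eq t him, norm_mul, norm_prod, norm_prod]
  have f1 : ∏ j : Fin k, ‖Xt t (LR y v s (Sum.inl j))‖ ≤
      ∏ j : Fin k, (K * (ny y * (1 + |s.im|)) * (1 + t) ^ (-(v (Sum.inl j) * (s.re - 1 / 2)))) :=
    Finset.prod_le_prod (fun _ _ => norm_nonneg _) fun j _ => (Xt_bdv hK hK1 h y hs ht (Sum.inl j)).1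
  have f2 : ∏ j : Fin k, ‖(Xt t (LR y v s (π (Sum.inl j))))⁻¹‖ ≤
      ∏ j : Fin k, (K * (ny y * (1 + |s.im|)) * (1 + t) ^ (v (π (Sum.inl j)) * (s.re - 1 / 2))) :=
    Finset.prod_le_prod (fun _ _ => norm_nonneg _) fun j _ =>
      (Xt_bdv hK hK1 h y hs ht (π (Sum.inl j))).2
  refine (mul_le_mul f1 f2 (Finset.prod_nonneg fun _ _ => norm_nonneg _)
    (Finset.prod_nonneg fun _ _ => by positivity)).trans (le_of_eq ?_)
  simp only [Finset.prod_mul_distrib, Finset.prod_const, Finset.card_univ, Fintype.card_fin]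
  rw [← Real.rpow_sum_of_pos h1t, ← Real.rpow_sum_of_pos h1t]
  have e : ee v π * (s.re - 1 / 2) = (∑ j : Fin k, -(v (Sum.inl j) * (s.re - 1 / 2))) +
      ∑ j : Fin k, v (π (Sum.inl j)) * (s.re - 1 / 2) := by
    unfold ee
    rw [Finset.sum_neg_distrib, ← Finset.sum_mul, ← Finset.sum_mul]
    ring
  rw [e, Real.rpow_add h1t, mul_pow (ny y), two_mul, pow_add, pow_add, pow_add]
  ring

lemma zab_bdv (h : VV v μ) {c : ℝ} (hc : c < 1 / 4) {δ : ℝ} (hδ : 0 < δ) :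
    ∃ K : ℝ, 1 ≤ K ∧ ∀ (π : Equiv.Perm (Fin k ⊕ Fin k)) (y : Fin k ⊕ Fin k → ℝ) (s : ℂ),
      |s.re - 1 / 2| ≤ c →
      (∀ j l, δ ≤ ‖LR y v s (π (Sum.inl j)) - LR y v s (π (Sum.inr l))‖) →
      ‖zab (fun j => LR y v s (π (Sum.inl j))) (fun j => LR y v s (π (Sum.inr j)))‖ ≤
        K * (ny y * (1 + |s.im|)) ^ (2 * k ^ 2) := by
  set K : ℝ := BF k c * (3 * 3 ^ 2 / δ) ^ (k ^ 2) with hK
  refine ⟨max K 1, le_max_right _ _, fun π y s hs hsep => ?_⟩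
  have him : ∀ i, |(LR y v s i).im| ≤ c := fun i => (LRim_le h y s i).trans hs
  have hn := ny_one y
  unfold zab
  rw [norm_mul, norm_prod]
  have h1 := FH_le hc (a := fun j => LR y v s (π (Sum.inl j))) (b := fun j => LR y v s (π (Sum.inr j)))
    (fun j => ⟨him _, him _⟩)
  have hfac : ∀ j l, ‖riemannZeta (1 + I * LR y v s (π (Sum.inl j)) - I * LR y v s (π (Sum.inr l)))‖ ≤
      3 * 3 ^ 2 / δ * (ny y * (1 + |s.im|)) ^ 2 := by
    intro j l
    set w : ℂ := 1 + I * LR y v s (π (Sum.inl j)) - I * LR y v s (π (Sum.inr l)) with hw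
    have e1 : w - 1 = I * (LR y v s (π (Sum.inl j)) - LR y v s (π (Sum.inr l))) := by rw [hw]; ring
    have h2 : δ ≤ ‖w - 1‖ := by
      rw [e1, norm_mul, norm_I, one_mul]
      exact hsep j l
    have hre : 1 / 2 ≤ w.re := by
      have e2 : w.re = 1 - (LR y v s (π (Sum.inl j))).im + (LR y v s (π (Sum.inr l))).im := by
        rw [hw]; simp; ring
      have a1 := abs_le.1 (him (π (Sum.inl j)))
      have a2 := abs_le.1 (him (π (Sum.inr l)))
      rw [e2]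
      linarith
    have h3 := zeta_sep hre hδ h2
    have hn' : ∀ i, ‖LR y v s i‖ ≤ |y i| + |s.im| + 1 / 4 := by
      intro i
      refine (Complex.norm_le_abs_re_add_abs_im _).trans ?_
      have a1 := him i
      have a2 := LRre_le h y s i
      linarith
    have hg := abs2_le_ny y (inl_ne_inr π j l)
    have hwn : ‖w‖ + 1 ≤ 3 * (ny y * (1 + |s.im|)) := by
      have b1 := norm_sub_le (1 + I * LR y v s (π (Sum.inl j))) (I * LR y v s (π (Sum.inr l)))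
      have b2 := norm_add_le (1:ℂ) (I * LR y v s (π (Sum.inl j)))
      rw [norm_mul, norm_I, one_mul] at b1 b2
      rw [norm_one] at b2
      have b3 := hn' (π (Sum.inl j))
      have b4 := hn' (π (Sum.inr l))
      have b5 := abs_nonneg s.im
      have b6 : |s.im| ≤ ny y * |s.im| := le_mul_of_one_le_left b5 hn
      nlinarith
    refine h3.trans ?_
    calc 3 * (‖w‖ + 1) ^ 2 / δ ≤ 3 * (3 * (ny y * (1 + |s.im|))) ^ 2 / δ := by gcongr
      _ = _ := by ring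
  have h4 : ∏ j : Fin k, ‖∏ l : Fin k, riemannZeta (1 + I * LR y v s (π (Sum.inl j)) -
      I * LR y v s (π (Sum.inr l)))‖ ≤ (3 * 3 ^ 2 / δ * (ny y * (1 + |s.im|)) ^ 2) ^ (k ^ 2) := by
    calc _ ≤ ∏ _j : Fin k, (3 * 3 ^ 2 / δ * (ny y * (1 + |s.im|)) ^ 2) ^ k := by
          refine Finset.prod_le_prod (fun _ _ => norm_nonneg _) fun j _ => ?_
          rw [norm_prod]
          refine (Finset.prod_le_prod (fun _ _ => norm_nonneg _) fun l _ => hfac j l).trans ?_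
          rw [Finset.prod_const, Finset.card_univ, Fintype.card_fin]
      _ = _ := by
          rw [Finset.prod_const, Finset.card_univ, Fintype.card_fin, ← pow_mul, sq k]
  have hBF : 0 ≤ BF k c := (Real.exp_pos _).le
  calc _ ≤ BF k c * (3 * 3 ^ 2 / δ * (ny y * (1 + |s.im|)) ^ 2) ^ (k ^ 2) := by gcongr
    _ = K * (ny y * (1 + |s.im|)) ^ (2 * k ^ 2) := by rw [hK, mul_pow, ← pow_mul]; ring
    _ ≤ _ := by
        gcongr
        exact le_max_left _ _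

/-- bound for a swap term -/
theorem Rt_bdv (h : VV v μ) {c : ℝ} (hc : c < 1 / 4) {δ : ℝ} (hδ : 0 < δ) :
    ∃ (K : ℝ) (B : ℕ), 1 ≤ K ∧ ∀ (π : Equiv.Perm (Fin k ⊕ Fin k)) (y : Fin k ⊕ Fin k → ℝ) (s : ℂ)
      (t : ℝ), |s.re - 1 / 2| ≤ c → 0 ≤ t →
      (∀ j l, δ ≤ ‖LR y v s (π (Sum.inl j)) - LR y v s (π (Sum.inr l))‖) →
      ‖Rt t (LR y v s) π‖ ≤ K * (ny y * (1 + |s.im|)) ^ B * (1 + t) ^ (ee v π * (s.re - 1 / 2)) := by
  obtain ⟨K1, hK1, h1⟩ := GG_bdv h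
  obtain ⟨K2, hK2, h2⟩ := zab_bdv h hc hδ
  refine ⟨K1 * K2, 2 * k + 2 * k ^ 2, by nlinarith, fun π y s t hs ht hsep => ?_⟩
  have g1 := h1 π y s t (hs.trans hc.le) ht
  have g2 := h2 π y s hs hsep
  unfold Rt
  rw [norm_mul]
  have : 0 < 1 + t := by linarith
  have hK10 : 0 ≤ K1 := by linarith
  have hn := ny_one y
  calc _ ≤ (K1 * (ny y * (1 + |s.im|)) ^ (2 * k) * (1 + t) ^ (ee v π * (s.re - 1 / 2))) *
        (K2 * (ny y * (1 + |s.im|)) ^ (2 * k ^ 2)) := by gcongr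
    _ = _ := by rw [pow_add]; ring

lemma ee_absv (h : VV v μ) (π : Equiv.Perm (Fin k ⊕ Fin k)) : |ee v π| ≤ 2 * k := by
  have h' : ∀ f : Fin k → Fin k ⊕ Fin k, |∑ j : Fin k, v (f j)| ≤ k := by
    intro f
    refine (Finset.abs_sum_le_sum_abs _ _).trans ?_
    refine (Finset.sum_le_sum fun j _ => h.le (f j)).trans ?_
    simp
  unfold ee
  have h1 := h' fun j => π (Sum.inl j)
  have h2 := h' Sum.inl
  have h3 : |(∑ j : Fin k, v (π (Sum.inl j))) - ∑ j : Fin k, v (Sum.inl j)| ≤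
      |∑ j : Fin k, v (π (Sum.inl j))| + |∑ j : Fin k, v (Sum.inl j)| := abs_sub _ _
  linarith

lemma tpow_lev (h : VV v μ) (π : Equiv.Perm (Fin k ⊕ Fin k)) {t ρ : ℝ}
    (ht : 0 ≤ t) (hρ : |ρ| ≤ 1 / 4) : (1 + t) ^ (ee v π * ρ) ≤ (1 + t) ^ k := by
  rw [← Real.rpow_natCast]
  refine Real.rpow_le_rpow_of_exponent_le (by linarith) ?_
  have h1 := ee_absv h π
  have h2 : |ee v π * ρ| ≤ 2 * k * (1 / 4) := by
    rw [abs_mul]; gcongr
  have h3 := le_abs_self (ee v π * ρ)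
  have h4 : (0:ℝ) ≤ k := Nat.cast_nonneg k
  linarith

/-- separation on a line -/
lemma sep_linev (h : VV v μ) (y : Fin k ⊕ Fin k → ℝ) (s : ℂ) {p q : Fin k ⊕ Fin k} (hpq : p ≠ q) :
    μ * |s.re - 1 / 2| ≤ ‖LR y v s p - LR y v s q‖ := by
  refine le_trans ?_ (Complex.abs_im_le_norm _)
  rw [sub_im, LR_im, LR_im]
  have e : -(v p * (s.re - 1 / 2)) - -(v q * (s.re - 1 / 2)) = -((v p - v q) * (s.re - 1 / 2)) := by
    ring
  rw [e, abs_neg, abs_mul]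
  have := h.sep p q hpq
  gcongr

lemma sep_farv (h : VV v μ) (y : Fin k ⊕ Fin k → ℝ) {s : ℂ} (hs : ny y ≤ μ * |s.im|)
    {p q : Fin k ⊕ Fin k} (hpq : p ≠ q) : 1 ≤ ‖LR y v s p - LR y v s q‖ := by
  refine le_trans ?_ (Complex.abs_re_le_norm _)
  rw [sub_re, LR_re, LR_re]
  have e : y p + v p * s.im - (y q + v q * s.im) = (v p - v q) * s.im - -(y p - y q) := by ring
  have h1 := h.sep p q hpq
  have h2 : μ * |s.im| ≤ |(v p - v q) * s.im| := by rw [abs_mul]; gcongr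
  have h4 := abs_sub_abs_le_abs_sub ((v p - v q) * s.im) (-(y p - y q))
  rw [e]
  rw [abs_neg] at h4
  have h5 : |y p - y q| ≤ |y p| + |y q| := abs_sub _ _
  have h6 := abs2_le_ny y hpq
  linarith

end

end Pool.Agent.TH612.MD
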