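import Pool.Agent.TH612.MD.V

set_option autoImplicit false

/-! Generic base points and the bound for the sum of the swap terms. -/

namespace Pool.Agent.TH612.MD

open Complex Filter Topology MeasureTheory Set
open scoped ContDiff ComplexConjugate
open Pool.Agent.W182.KO hiding ee SS_summable
open Pool.Agent.TH612.CF

noncomputable section

variable {k : ℕ} {v : Fin k ⊕ Fin k → ℝ} {μ : ℝ}

/-- generic base points -/
def Gn (v y : Fin k ⊕ Fin k → ℝ) : Prop :=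
  ∀ p q p' q', p ≠ q → p' ≠ q' → (y p - y q) * (v p' - v q') = (y p' - y q') * (v p - v q) →
    (p = p' ∧ q = q') ∨ (p = q' ∧ q = p')

lemma Gn.shift {v y : Fin k ⊕ Fin k → ℝ} (h : Gn v y) (u : ℝ) : Gn v (y + u • v) := by
  intro p q p' q' h1 h2 h3
  refine h p q p' q' h1 h2 ?_
  simp only [Pi.add_apply, Pi.smul_apply, smul_eq_mul] at h3
  linarith

lemma ae_lin {f : (Fin k ⊕ Fin k → ℝ) →ₗ[ℝ] ℝ} (hf : ∃ y, f y ≠ 0) :
    ∀ᵐ y : Fin k ⊕ Fin k → ℝ, f y ≠ 0 := by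
  have h1 : LinearMap.ker f ≠ ⊤ := by
    intro h
    obtain ⟨y, hy⟩ := hf
    exact hy (by
      have : y ∈ LinearMap.ker f := by rw [h]; trivial
      exact this)
  have h2 := Measure.addHaar_submodule (volume : Measure (Fin k ⊕ Fin k → ℝ)) (LinearMap.ker f) h1
  rw [ae_iff]
  refine measure_mono_null (fun y hy => ?_) h2
  simpa using hy

lemma ae_dist : ∀ᵐ y : Fin k ⊕ Fin k → ℝ, ∀ p q, p ≠ q → y p ≠ y q := by
  rw [ae_all_iff]
  intro p
  rw [ae_all_iff]
  intro q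
  by_cases hpq : p = q
  · exact Eventually.of_forall fun y h => absurd hpq h
  · have h1 := ae_lin (f := (LinearMap.proj p : (Fin k ⊕ Fin k → ℝ) →ₗ[ℝ] ℝ) - LinearMap.proj q)
      ⟨Pi.single p 1, by simp [Ne.symm hpq]⟩
    filter_upwards [h1] with y hy _ h0
    apply hy
    simp [h0]

lemma ae_gen (h : VV v μ) : ∀ᵐ y : Fin k ⊕ Fin k → ℝ, Gn v y := by
  have key : ∀ᵐ y : Fin k ⊕ Fin k → ℝ, ∀ p q p' q', p ≠ q → p' ≠ q' →
      (y p - y q) * (v p' - v q') = (y p' - y q') * (v p - v q) →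
      (p = p' ∧ q = q') ∨ (p = q' ∧ q = p') := by
    rw [ae_all_iff]
    intro p
    rw [ae_all_iff]
    intro q
    rw [ae_all_iff]
    intro p'
    rw [ae_all_iff]
    intro q'
    by_cases hpq : p = q
    · exact Eventually.of_forall fun y h => absurd hpq h
    by_cases hpq' : p' = q'
    · exact Eventually.of_forall fun y _ h => absurd hpq' h
    by_cases hx : (p = p' ∧ q = q') ∨ (p = q' ∧ q = p')
    · exact Eventually.of_forall fun y _ _ _ => hx
    have hvv' : v p' - v q' ≠ 0 := sub_ne_zero.2 (h.ne hpq')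
    have h1 := ae_lin (f := (v p' - v q') • ((LinearMap.proj p : (Fin k ⊕ Fin k → ℝ) →ₗ[ℝ] ℝ) -
      LinearMap.proj q) - (v p - v q) • ((LinearMap.proj p' : (Fin k ⊕ Fin k → ℝ) →ₗ[ℝ] ℝ) -
      LinearMap.proj q')) (by
        by_cases hp1 : p = p'
        · have hq : q ≠ q' := fun h => hx (Or.inl ⟨hp1, h⟩)
          refine ⟨Pi.single q 1, ?_⟩
          have e1 : p ≠ q := hpq
          have e2 : p' ≠ q := by rw [← hp1]; exact hpq
          have e3 : ¬ (v q' - v p' = 0) := fun h => hvv' (by linarith)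
          simp [e1, e2, Ne.symm hq, e3]
        · by_cases hp2 : p = q'
          · have hq : q ≠ p' := fun h => hx (Or.inr ⟨hp2, h⟩)
            refine ⟨Pi.single q 1, ?_⟩
            have e1 : p ≠ q := hpq
            have e2 : q' ≠ q := by rw [← hp2]; exact hpq
            have e3 : ¬ (v q' - v p' = 0) := fun h => hvv' (by linarith)
            simp [e1, e2, Ne.symm hq, e3]
          · refine ⟨Pi.single p 1, ?_⟩
            simp [Ne.symm hpq, Ne.symm hp1, Ne.symm hp2, hvv'])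
    filter_upwards [h1] with y hy _ _ h0
    exfalso
    apply hy
    simp only [LinearMap.sub_apply, LinearMap.smul_apply, LinearMap.proj_apply, smul_eq_mul]
    linarith
  exact key

lemma SS_finv (y : Fin k ⊕ Fin k → ℝ) : (SS y v).Finite := by
  have h : (Set.range fun x : (Fin k ⊕ Fin k) × (Fin k ⊕ Fin k) =>
      (1 / 2 + ((y x.1 - y x.2 : ℝ) : ℂ) / (I * ((v x.1 - v x.2 : ℝ) : ℂ)))).Finite := Set.finite_range _
  refine h.subset fun s hs => ?_
  obtain ⟨p, q, hpq, h1⟩ := hs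
  refine ⟨(p, q), ?_⟩
  have h2 : ((v p - v q : ℝ) : ℂ) ≠ 0 := by exact_mod_cast sub_ne_zero.2 hpq
  have h3 : ((y p - y q : ℝ) : ℂ) = (I * ((v p - v q : ℝ) : ℂ)) * (s - 1 / 2) := by
    rw [LR_apply, LR_apply] at h1
    push_cast
    linear_combination h1
  simp only
  rw [h3, mul_div_cancel_left₀ _ (mul_ne_zero I_ne_zero h2)]
  ring

lemma nSS_ne (h : VV v μ) {y : Fin k ⊕ Fin k → ℝ} {s : ℂ} (hs : s ∉ SS y v) {p q : Fin k ⊕ Fin k}
    (hpq : p ≠ q) : LR y v s p ≠ LR y v s q := fun h0 => hs ⟨p, q, h.ne hpq, h0⟩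

lemma SS_rev {y : Fin k ⊕ Fin k → ℝ} {s : ℂ} (hs : s ∈ SS y v) : s.re = 1 / 2 := by
  obtain ⟨p, q, hpq, h1⟩ := hs
  have h2 := congrArg Complex.im h1
  rw [LR_im, LR_im] at h2
  have h3 : (v p - v q) * (s.re - 1 / 2) = 0 := by linarith
  rcases mul_eq_zero.1 h3 with h4 | h4
  · exact absurd (sub_eq_zero.1 h4) hpq
  · linarith

lemma Qs_diffv (h : VV v μ) {c : ℝ} (hc : c < 1 / 4) (t : ℝ) (y : Fin k ⊕ Fin k → ℝ) :
    DifferentiableOn ℂ (fun s => Qs t (LR y v s)) (St c \ SS y v) := by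
  unfold Qs
  refine DifferentiableOn.fun_sum fun π _ => ?_
  exact Rt_diff (Γ := LR y v) ((St_open c).sdiff (SS_finv y).isClosed) hc t
    (fun i => (Ln_diff _ _ i).differentiableOn)
    (fun s hs i => (LRim_le h y s i).trans (le_of_lt hs.1)) π
    (fun s hs j l => nSS_ne h hs.2 (inl_ne_inr π j l))

lemma Qs_resv (h : VV v μ) {y : Fin k ⊕ Fin k → ℝ} (hG : Gn v y) {c : ℝ}
    (hc : c < 1 / 4) (t : ℝ) {s0 : ℂ} (hs0 : s0 ∈ SS y v) (hs1 : s0 ∈ {s : ℂ | |s.re - 1 / 2| < c}) :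
    Tendsto (fun s => (s - s0) * Qs t (LR y v s)) (𝓝[≠] s0) (𝓝 0) := by
  obtain ⟨p, q, hpq, h1⟩ := hs0
  have hpq' : p ≠ q := fun h => hpq (by rw [h])
  refine res_zero hc t (fun i => ?_) h1 (by exact_mod_cast hpq) ?_
  · have := LRim_le h y s0 i
    unfold LR at this
    exact this.trans_lt hs1
  · intro p' q' h2
    by_cases hp : p' = q'
    · exact Or.inl hp
    right
    have h3 : (y p - y q) * (v p' - v q') = (y p' - y q') * (v p - v q) := by
      have e1 : (((y p - y q) * (v p' - v q') : ℝ) : ℂ) = (((y p' - y q') * (v p - v q) : ℝ) : ℂ) := by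
        rw [LR_apply, LR_apply] at h1
        have h2' : ((y p' : ℂ)) - I * v p' * (s0 - 1 / 2) = (y q' : ℂ) - I * v q' * (s0 - 1 / 2) := h2
        push_cast
        linear_combination (v p' - v q' : ℂ) * h1 - (v p - v q : ℂ) * h2'
      exact_mod_cast e1
    rcases hG p q p' q' hpq' hp h3 with ⟨a, b⟩ | ⟨a, b⟩
    · exact Or.inl ⟨a.symm, b.symm⟩
    · exact Or.inr ⟨b.symm, a.symm⟩

/-- uniform bound on the whole strip -/
theorem Q_bddv (h : VV v μ) {r : ℝ} (hr0 : 0 < r) (hr : r < 1 / 4) : ∃ (K : ℝ) (B : ℕ), 1 ≤ K ∧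
    ∀ (y : Fin k ⊕ Fin k → ℝ) (t : ℝ) (s : ℂ), Gn v y → 0 ≤ t → |s.re - 1 / 2| ≤ r → s ∉ SS y v →
      ‖Qs t (LR y v s)‖ ≤ K * (ny y * (1 + |s.im|)) ^ B * (1 + t) ^ k := by
  obtain ⟨c, hrc, hc⟩ := exists_between hr
  have hμ := h.pos
  set δ : ℝ := min (μ * r) 1 with hδ
  have hδ0 : 0 < δ := by positivity
  obtain ⟨K, B, hK, hb⟩ := Rt_bdv h hr hδ0
  have hN : (1:ℝ) ≤ NP k := by
    unfold NP
    exact_mod_cast Fintype.card_pos
  have hμ1 : 1 ≤ 1 + 1 / μ := by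
    have : 0 < 1 / μ := by positivity
    linarith
  refine ⟨NP k * K * (1 + 1 / μ) ^ B, 2 * B, ?_, fun y t s hG ht hs hsS => ?_⟩
  · have := one_le_pow₀ (n := B) hμ1
    have : 1 ≤ NP k * K := by nlinarith
    nlinarith
  have hn := ny_one y
  have hn0 : 0 < ny y := by linarith
  set Y : ℝ := |s.im| + ny y / μ with hY
  have hYp : 0 < Y := by
    have := abs_nonneg s.im
    have : 0 < ny y / μ := by positivity
    linarith
  have hK0 : 0 ≤ K := by linarith
  have hY1 : ny y * (1 + Y) ≤ (1 + 1 / μ) * (ny y * (1 + |s.im|)) ^ 2 := by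
    have h1 : 0 ≤ |s.im| := abs_nonneg _
    have h2 : 1 + Y ≤ (1 + 1 / μ) * (ny y * (1 + |s.im|)) := by
      rw [hY]
      have e : (1 + 1 / μ) * (ny y * (1 + |s.im|)) = ny y + ny y * |s.im| + ny y / μ + ny y / μ * |s.im| := by
        ring
      rw [e]
      have h3 : |s.im| ≤ ny y * |s.im| := le_mul_of_one_le_left h1 hn
      have h4 : 0 ≤ ny y / μ * |s.im| := by positivity
      linarith
    have h5 : ny y ≤ ny y * (1 + |s.im|) := le_mul_of_one_le_right hn0.le (by linarith)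
    calc ny y * (1 + Y) ≤ (ny y * (1 + |s.im|)) * ((1 + 1 / μ) * (ny y * (1 + |s.im|))) := by
          have : 0 ≤ 1 + Y := by linarith
          gcongr
      _ = _ := by ring
  have hmax := max_fin (f := fun s => Qs t (LR y v s)) (S := SS y v) (r := r) (r' := c) (Y := Y)
    (C := NP k * (K * ((1 + 1 / μ) * (ny y * (1 + |s.im|)) ^ 2) ^ B * (1 + t) ^ k))
    hr0 hrc hYp (SS_finv y) (Qs_diffv h hc t y) (fun s0 h1 h2 => Qs_resv h hG hc t h1 h2)
    (fun z g1 g2 g3 => ?_) hs (by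
      have : 0 ≤ ny y / μ := by positivity
      linarith) hsS
  · refine hmax.trans (le_of_eq ?_)
    rw [mul_pow, ← pow_mul]
    ring
  · have hsep : ∀ p q, p ≠ q → δ ≤ ‖LR y v z p - LR y v z q‖ := by
      intro p q hpq
      rcases g3 with g3 | g3
      · have := sep_linev h y z hpq
        rw [g3] at this
        exact (min_le_left _ _).trans this
      · refine (min_le_right _ _).trans (sep_farv h y ?_ hpq)
        rw [g3, hY, mul_add, mul_div_cancel₀ _ hμ.ne']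
        have : 0 ≤ μ * |s.im| := by positivity
        linarith
    constructor
    · rintro ⟨p, q, hpq, hh⟩
      have := hsep p q (fun h => hpq (by rw [h]))
      rw [hh, sub_self, norm_zero] at this
      linarith
    · refine Qs_le_of fun π => ?_
      refine (hb π y z t g1 ht fun j l => hsep _ _ (inl_ne_inr π j l)).trans ?_
      have h1 := tpow_lev h π ht (ρ := z.re - 1 / 2) (g1.trans hr.le)
      have h2 : ny y * (1 + |z.im|) ≤ (1 + 1 / μ) * (ny y * (1 + |s.im|)) ^ 2 := by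
        refine le_trans ?_ hY1
        gcongr
      gcongr

/-- the domain of joint continuity -/
def Dm (v : Fin k ⊕ Fin k → ℝ) (c : ℝ) : Set (ℝ × (Fin k ⊕ Fin k → ℝ) × ℂ) :=
  {x | (∀ i, |(LR x.2.1 v x.2.2 i).im| < c) ∧
    ∀ p : (Fin k ⊕ Fin k) × (Fin k ⊕ Fin k), p.1 ≠ p.2 → LR x.2.1 v x.2.2 p.1 ≠ LR x.2.1 v x.2.2 p.2}

lemma LR_jc (v : Fin k ⊕ Fin k → ℝ) (i : Fin k ⊕ Fin k) :
    Continuous (fun x : ℝ × (Fin k ⊕ Fin k → ℝ) × ℂ => LR x.2.1 v x.2.2 i) := by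
  simp only [LR_apply]
  have h1 : Continuous (fun x : ℝ × (Fin k ⊕ Fin k → ℝ) × ℂ => x.2.1 i) :=
    (continuous_apply i).comp (continuous_fst.comp continuous_snd)
  fun_prop

lemma Dm_open (v : Fin k ⊕ Fin k → ℝ) (c : ℝ) : IsOpen (Dm v c) := by
  unfold Dm
  rw [ofPred_and]
  refine IsOpen.inter ?_ ?_
  · rw [ofPred_forall]
    exact isOpen_iInter_of_finite fun i =>
      isOpen_lt (continuous_abs.comp (Complex.continuous_im.comp (LR_jc v i))) continuous_const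
  · rw [ofPred_forall]
    refine isOpen_iInter_of_finite fun y => ?_
    by_cases hy : y.1 = y.2
    · have : {x : ℝ × (Fin k ⊕ Fin k → ℝ) × ℂ | y.1 ≠ y.2 → LR x.2.1 v x.2.2 y.1 ≠
          LR x.2.1 v x.2.2 y.2} = univ := by
        ext x; simp [hy]
      rw [this]; exact isOpen_univ
    · have : {x : ℝ × (Fin k ⊕ Fin k → ℝ) × ℂ | y.1 ≠ y.2 → LR x.2.1 v x.2.2 y.1 ≠
          LR x.2.1 v x.2.2 y.2} = {x : ℝ × (Fin k ⊕ Fin k → ℝ) × ℂ | LR x.2.1 v x.2.2 y.1 ≠
          LR x.2.1 v x.2.2 y.2} := by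
        ext x; simp [hy]
      rw [this]
      exact isOpen_ne_fun (LR_jc v _) (LR_jc v _)

lemma Rt_jcont (v : Fin k ⊕ Fin k → ℝ) {c : ℝ} (hc : c < 1 / 4) (π : Equiv.Perm (Fin k ⊕ Fin k)) :
    ContinuousOn (fun x : ℝ × (Fin k ⊕ Fin k → ℝ) × ℂ => Rt x.1 (LR x.2.1 v x.2.2) π) (Dm v c) :=
  Rt_cont (T := fun x : ℝ × (Fin k ⊕ Fin k → ℝ) × ℂ => x.1) (Γ := fun x => LR x.2.1 v x.2.2)
    (Dm_open v c) hc (by fun_prop) (fun i => (LR_jc v i).continuousOn) (fun x hx i => (hx.1 i).le) π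
    (fun x hx j l => hx.2 (π (Sum.inl j), π (Sum.inr l)) (inl_ne_inr π j l))

lemma Qs_jcont (v : Fin k ⊕ Fin k → ℝ) {c : ℝ} (hc : c < 1 / 4) :
    ContinuousOn (fun x : ℝ × (Fin k ⊕ Fin k → ℝ) × ℂ => Qs x.1 (LR x.2.1 v x.2.2)) (Dm v c) := by
  unfold Qs
  exact continuousOn_finsetSum _ fun π _ => Rt_jcont v hc π

end

end Pool.Agent.TH612.MD
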